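import Pool.Agent.W5h58.NF.StepT

/-!
# The generalized Tate conjecture for varieties with algebraic cohomology
-/

set_option autoImplicit false
set_option linter.unusedSectionVars false

open CategoryTheory AlgebraicGeometry Finset Function

universe u v w x

namespace Pool.Agent.W5h58.NF

open Pool.Agent.H914 Pool.Agent.H914.VarClass Pool.Agent.H914.VarClass.Obj
  Pool.Agent.H914.WeilCohomology Pool.Agent.H281R3.HT Pool.Agent.W552 Pool.Agent.TH125.Gal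

variable {k : Type u} [Field k] {𝒱 : VarClass k} {ops : CycleOps 𝒱}
  {W : WeilCohomology.{u, v} ops} {Γ : Type w} [Group Γ] {χ : Γ →* W.Kˣ}

theorem GP_disj2 {K : Type*} [Field K] {V : Type*} [AddCommGroup V] [Module K V]
    (F : Module.End K V) (P : K → Prop) : Disjoint (GP F P) (GP F fun β => ¬ P β) := by
  have h1 := (Module.End.independent_maxGenEigenspace F).disjoint_biSup_biSup
    (s := {β | P β}) (t := {β | ¬ P β}) (by
      rw [Set.disjoint_left]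
      intro β h h'
      exact h' h)
  exact h1

theorem zpow_div_pow {K : Type*} [Field K] {q : K} (hq : q ≠ 0) (j D : ℕ) (x : ℤ) :
    (q ^ j) ^ D / q ^ x = q ^ ((j * D : ℕ) - x : ℤ) := by
  rw [← pow_mul, zpow_sub₀ hq, zpow_natCast]

theorem le_of_integral {K : Type*} [Field K] {q : K} (hq : q ≠ 0) (hni : ¬ IsIntegral ℤ q⁻¹)
    {z : ℤ} (h : IsIntegral ℤ (q ^ z)) : 0 ≤ z := by
  by_contra hz
  push Not at hz
  apply hni
  obtain ⟨m, hm⟩ := Int.eq_ofNat_of_zero_le (show (0 : ℤ) ≤ -z by omega)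
  have h1 : z = -(m : ℤ) := by omega
  rw [h1, zpow_neg, zpow_natCast, ← inv_pow] at h
  exact h.of_pow (by omega)

/-- **Varieties with algebraic cohomology.** -/
theorem gtc_base {Z : GVar W Γ} (hG : ∀ j, ∀ c ∈ algClasses W Z.X j, ∃ Δ : Subgroup Γ,
      Δ.FiniteIndex ∧ ∀ g ∈ Δ, Z.act g c = (χ g : W.K) ^ j • c)
    (halg : algSpan W Z.X = ⊤) {γ : Γ} (hni : ¬ IsIntegral ℤ (χ γ : W.K)⁻¹) (D : ℕ) :
    GTCUpTo χ γ D 0 Z := by
  classical
  obtain ⟨N, b, j, hb⟩ := exists_algBasis W Z.X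
  choose Δ0 hΔ0 hfix using fun i => hG (j i) (b i) (hb i)
  rintro x r U ⟨Δ, hΔ, hU, m, hm, hγΔ, hUx⟩ hr
  obtain ⟨m0, hm0, hm0'⟩ := Pool.Agent.TH125.Gal.exists_pow (Subgroup.finiteIndex_iInf hΔ0)
    (γ ^ m)
  set γ' := (γ ^ m) ^ m0 with hγ'
  set F : Module.End W.K (W.H Z.X) := (Z.act γ').toLinearMap with hF
  have hq0 : (χ γ' : W.K) ≠ 0 := Units.ne_zero _
  have hχ : (χ γ' : W.K) = (χ γ : W.K) ^ (m * m0) := by
    rw [hγ', ← pow_mul, map_pow, Units.val_pow_eq_pow_val]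
  have hni' : ¬ IsIntegral ℤ (χ γ' : W.K)⁻¹ := by
    intro h
    apply hni
    rw [hχ, ← inv_pow] at h
    exact h.of_pow (Nat.mul_pos hm hm0)
  have hUF : U ≤ GP F (Dvd W.K (χ γ' : W.K) D x) :=
    hUx.trans (slopePart_pow Z.act (γ ^ m) D x m0)
  intro a ha
  have h1 : ∃ c : Fin N → W.K, a = ∑ i, c i • (b i : W.H Z.X) := by
    have h2 : a ∈ algSpan W Z.X := by rw [halg]; exact Submodule.mem_top
    refine ⟨fun i => b.repr ⟨a, h2⟩ i, ?_⟩
    have h3 := congrArg Subtype.val (b.sum_repr ⟨a, h2⟩)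
    rw [Submodule.coe_sum] at h3
    exact h3.symm
  obtain ⟨c, hc⟩ := h1
  have hgen : ∀ i, (b i : W.H Z.X) ∈ F.maxGenEigenspace ((χ γ' : W.K) ^ j i) := fun i =>
    eig_gen (hfix i γ' (Subgroup.mem_iInf.1 hm0' i))
  set P := Dvd W.K (χ γ' : W.K) D x with hP
  set a1 := ∑ i ∈ univ.filter (fun i => P ((χ γ' : W.K) ^ j i)), c i • (b i : W.H Z.X) with ha1
  set a2 := ∑ i ∈ univ.filter (fun i => ¬ P ((χ γ' : W.K) ^ j i)), c i • (b i : W.H Z.X) with ha2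
  have h12 : a1 + a2 = a := by
    rw [ha1, ha2, Finset.sum_filter_add_sum_filter_not]
    exact hc.symm
  have h1P : a1 ∈ GP F P := Submodule.sum_mem _ fun i hi => Submodule.smul_mem _ _
    (mem_GP (P := P) (Finset.mem_filter.1 hi).2 (hgen i))
  have h2P : a2 ∈ GP F fun β => ¬ P β := Submodule.sum_mem _ fun i hi => Submodule.smul_mem _ _
    (mem_GP (P := fun β => ¬ P β) (Finset.mem_filter.1 hi).2 (hgen i))
  have h2P' : a2 ∈ GP F P := by
    have h3 : a2 = a - a1 := by rw [← h12, add_sub_cancel_left]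
    rw [h3]
    exact Submodule.sub_mem _ (hUF ha) h1P
  have h20 := Submodule.disjoint_def.1 (GP_disj2 F P) _ h2P' h2P
  rw [← h12, h20, add_zero]
  refine Submodule.sum_mem _ fun i hi => Submodule.smul_mem _ _ ?_
  have h3 := (Finset.mem_filter.1 hi).2
  rw [hP, Dvd, zpow_div_pow hq0] at h3
  have h4 := le_of_integral hq0 hni' h3
  have h5 : r ≤ j i := by
    by_contra hlt
    push Not at hlt
    have h6 : (D : ℤ) * (j i : ℤ) + D ≤ D * r := by
      have h7 : (j i : ℤ) + 1 ≤ r := by exact_mod_cast hlt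
      nlinarith [Int.natCast_nonneg D]
    push_cast at h4 hr
    linarith
  exact con_anti _ h5 (con_alg (Submodule.subset_span (hb i)))

/-- small defect -/
theorem gtc_of_upTo {Z : GVar W Γ} {γ : Γ} {D M : ℕ} (hMD : M < D) (h : GTCUpTo χ γ D M Z) :
    GTC χ γ Z := by
  rintro r U ⟨Δ, hΔ, hU, m, hm, hγΔ, hUx⟩
  refine h (D * r) r U ⟨Δ, hΔ, hU, m, hm, hγΔ, hUx.trans ?_⟩ ?_
  · rw [slopePart_eq, slopePart_eq]
    refine GP_mono fun β hβ => ?_
    unfold Dvd at hβ ⊢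
    have h1 : β ^ D / (χ (γ ^ m) : W.K) ^ ((D : ℤ) * r) =
        (β ^ 1 / (χ (γ ^ m) : W.K) ^ (r : ℤ)) ^ D := by
      rw [div_pow, pow_one, mul_comm (D : ℤ), zpow_mul, zpow_natCast]
    rw [h1]
    exact hβ.pow D
  · have : (M : ℤ) < D := by exact_mod_cast hMD
    linarith

/-- without defect -/
theorem upTo_of_gtc {Z : GVar W Γ} {γ : Γ} (hγi : IsIntegral ℤ (χ γ : W.K)) {D : ℕ} (hD : 0 < D)
    (h : GTC χ γ Z) : GTCUpTo χ γ D (D - 1) Z := by
  rintro x r U ⟨Δ, hΔ, hU, m, hm, hγΔ, hUx⟩ hr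
  refine h r U ⟨Δ, hΔ, hU, m, hm, hγΔ, hUx.trans ?_⟩
  rw [slopePart_eq, slopePart_eq]
  refine GP_mono fun β hβ => ?_
  unfold Dvd at hβ ⊢
  have hq0 : (χ (γ ^ m) : W.K) ≠ 0 := Units.ne_zero _
  have hx : (D : ℤ) * r ≤ x := by
    have h1 : ((D - 1 : ℕ) : ℤ) = (D : ℤ) - 1 := by
      rw [Nat.cast_sub hD]
      norm_num
    rw [h1] at hr
    linarith
  obtain ⟨y, hy⟩ := Int.eq_ofNat_of_zero_le (sub_nonneg.2 hx)
  have h2 : (β ^ 1 / (χ (γ ^ m) : W.K) ^ (r : ℤ)) ^ D =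
      (β ^ D / (χ (γ ^ m) : W.K) ^ x) * (χ (γ ^ m) : W.K) ^ y := by
    have h3 : x = (r : ℤ) * D + y := by linarith
    rw [h3, div_pow, pow_one, zpow_add₀ hq0, zpow_mul, zpow_natCast, zpow_natCast, zpow_natCast]
    have h4 : ((χ (γ ^ m) : W.K) ^ r) ^ D ≠ 0 := pow_ne_zero _ (pow_ne_zero _ hq0)
    have h5 : (χ (γ ^ m) : W.K) ^ y ≠ 0 := pow_ne_zero _ hq0
    field_simp
  have h6 : IsIntegral ℤ (χ (γ ^ m) : W.K) := by
    rw [map_pow, Units.val_pow_eq_pow_val]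
    exact hγi.pow m
  refine IsIntegral.of_pow hD ?_
  rw [h2]
  exact hβ.mul (h6.pow y)

theorem con_push {T Z : 𝒱.Obj} (f : T ⟶ Z) {a r : ℕ} (h : T.dim + r ≤ Z.dim + a) {x : W.H T}
    (hx : x ∈ coniveau W T a) : W.push f x ∈ coniveau W Z r := by
  have h1 := Submodule.apply_mem_span_image_of_mem_span (W.push f) hx
  refine Submodule.span_le.2 ?_ h1
  rintro _ ⟨_, ⟨T', g, j, hd, _, ⟨w, hw, rfl⟩, y, rfl⟩, rfl⟩
  rw [← W.push_comp]
  exact mem_con _ _ hw (by omega)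

theorem dim_nest (P : Polarized 𝒱) (n : ℕ) :
    (nest ops n fun _ => P).X.dim = (n + 1) * P.X.dim := by
  induction n with
  | zero => exact (one_mul P.X.dim).symm
  | succ n ih =>
    have h1 : (nest ops (n + 1) fun _ => P).X.dim = (P.X.prod (nest ops n fun _ => P).X).dim := rfl
    rw [h1, dim_prod, ih]
    ring

/-- The conjecture for a product implies it for the factor. -/
theorem gtc_conv_step {X Z Y : GVar W Γ} {n : ℕ} (hP : IsPowProd X n Z Y) {γ : Γ}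
    (hDX : HomEqNum W X.X) (h1 : (1 : W.H X.X) ≠ 0) (hY : GTC χ γ Y) : GTC χ γ Z := by
  obtain ⟨υ, hi1, hi2⟩ := hP
  rintro r U ⟨Δ, hΔ, hU, m, hm, hγΔ, hUx⟩
  obtain ⟨a, ha, ha0⟩ := exists_pt hDX h1
  have h2 : U.map (W.map (snd (power ops X.X n) Z.X)).toLinearMap ≤
      coniveau W ((power ops X.X n).prod Z.X) r := by
    refine hY r _ ⟨Δ, hΔ, ?_, m, hm, hγΔ, ?_⟩
    · rintro g hg _ ⟨u, hu, rfl⟩
      exact ⟨Z.act g u, hU g hg u hu, (hi2 g u).symm⟩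
    · rintro _ ⟨u, hu, rfl⟩
      refine GP_map (F := (Z.act (γ ^ m)).toLinearMap) (F' := (υ (γ ^ m)).toLinearMap)
        (φ := (W.map (snd (power ops X.X n) Z.X)).toLinearMap) (c := 1) (fun v => ?_)
        (P := Dvd W.K (χ (γ ^ m) : W.K) 1 r) (P' := Dvd W.K (χ (γ ^ m) : W.K) 1 r)
        (fun β hβ => ?_) (hUx hu)
      · rw [one_smul]
        exact hi2 (γ ^ m) v
      · rwa [one_mul]
  intro u hu
  have h3 : W.map (snd (power ops X.X n) Z.X) u ∈ coniveau W ((power ops X.X n).prod Z.X) r :=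
    h2 ⟨u, hu, rfl⟩
  have h4 : mono (prj ops n fun _ => (⟨X.X, 0⟩ : Polarized 𝒱)) (fun _ => a) ∈
      coniveau W (nest ops n fun _ => (⟨X.X, 0⟩ : Polarized 𝒱)).X (∑ _p : Fin (n + 1), X.X.dim) :=
    con_mono _ _ _ fun _ => con_alg (Submodule.subset_span ha)
  rw [Finset.sum_const, Finset.card_univ, Fintype.card_fin, smul_eq_mul] at h4
  have h5 := con_mul (con_map (fst (nest ops n fun _ => (⟨X.X, 0⟩ : Polarized 𝒱)).X Z.X) h4) h3
  have h6 := con_push (snd (nest ops n fun _ => (⟨X.X, 0⟩ : Polarized 𝒱)).X Z.X) (r := r) (by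
    rw [dim_prod, dim_nest]
    have h7 : (⟨X.X, 0⟩ : Polarized 𝒱).X.dim = X.X.dim := rfl
    rw [h7]
    omega) h5
  have h7 := W.push_snd (X := (nest ops n fun _ => (⟨X.X, 0⟩ : Polarized 𝒱)).X) (Y := Z.X)
    (mono (prj ops n fun _ => (⟨X.X, 0⟩ : Polarized 𝒱)) fun _ => a) u
  rw [tr_mono] at h7
  have h8 : W.tr X.X a ^ (n + 1) • u ∈ coniveau W Z.X r := by
    rw [← h7]
    exact h6
  have h9 := Submodule.smul_mem _ (W.tr X.X a ^ (n + 1))⁻¹ h8
  rwa [smul_smul, inv_mul_cancel₀ (pow_ne_zero _ ha0), one_smul] at h9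

/-- The conjecture for a tower implies it for the base. -/
theorem gtc_conv {ι : Type} {X : ι → GVar W Γ} {Z : GVar W Γ} (h : NodalFamily χ X Z) {γ : Γ}
    {A : GVar W Γ → ℕ → ℕ → Prop} {S : Set ι} {w : ℕ} {Y : GVar W Γ}
    (hY : PowTower X Z A S w Y) : GTC χ γ Y → GTC χ γ Z := by
  induction hY with
  | base => exact id
  | step i n w' _ _ _ hP ih =>
    intro hG
    obtain ⟨g, ⟨⟨δ, hδ, hδ0, -⟩, -⟩, -⟩ := h.node i
    refine ih (gtc_conv_step hP (h.irred i).1 (fun h' => hδ0 ?_) hG)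
    rw [← one_mul δ, h', zero_mul]

/-- **The main theorem.** -/
theorem final_NF [IsAlgClosed W.K] (χ : Γ →* W.Kˣ) (γ : Γ) (hγ : IsFrob χ γ)
    {ι : Type} {X : ι → GVar W Γ} {Z : GVar W Γ} (h : NodalFamily χ X Z) {D : ℕ} (hD : 0 < D)
    {S : Set ι} {w : ℕ} {Y : GVar W Γ} (hY : PowTower X Z (Admissible χ γ D) S w Y) :
    (∀ M, GTCUpTo χ γ D M Z → GTCUpTo χ γ D (M + w) Y ∧ (M + w < D → GTC χ γ Y)) ∧
    (w = 0 → (GTC χ γ Z ↔ GTC χ γ Y)) ∧
    (w < D → IsCellular χ Z → GTC χ γ Y) := by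
  have h1 := (gtc_tower h hγ.1 hD hY).2
  refine ⟨fun M hM => ⟨h1 M hM, fun hw => gtc_of_upTo hw (h1 M hM)⟩,
    fun hw => ⟨fun hZ => ?_, gtc_conv h hY⟩, fun hw hG => ?_⟩
  · have h2 := h1 _ (upTo_of_gtc hγ.1 hD hZ)
    refine gtc_of_upTo ?_ h2
    omega
  · exact gtc_of_upTo (by omega) (h1 0 (gtc_base hG.galois.cl_fix
      (Submodule.eq_top_iff'.2 hG.span) hγ.2 D))

end Pool.Agent.W5h58.NF
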