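import Pool.Agent.W5h58.NF.Lie

/-!
# All operators of the Lie algebra preserve the stable spaces
-/

set_option autoImplicit false
set_option linter.unusedSectionVars false

open Finset Function

namespace Pool.Agent.W5h58.NF

open Pool.Agent.TH125.Gal

universe u v w x y

variable {K : Type u} [Field K] [CharZero K] {V : Type v} [AddCommGroup V] [Module K V]
  {E : Type w} [AddCommGroup E] [Module K E] {S : Type} [Fintype S] [DecidableEq S]
  {G : Type x} [Group G] {T : Type y} [AddCommGroup T] [Module K T]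
  {i : T →ₗ[K] V} {p : V →ₗ[K] T} {B : T →ₗ[K] T →ₗ[K] K} {ρV : G →* (V →ₗ[K] V)}
  {ρ : G →* (T →ₗ[K] T)} {σ : G →* (E →ₗ[K] E)} {μ : G → K}

/-- All the operators of the form are in the Lie algebra. -/
theorem all_ops [Module.Finite K T] (hpi : ∀ t, p (i t) = t) (hi : ∀ g t, i (ρ g t) = ρV g (i t))
    (hp : ∀ g v, p (ρV g v) = ρ g (p v)) {s : ℤ} (hs : s = 1 ∨ s = -1)
    (hsy : ∀ x y, B x y = (s : K) * B y x) (hnd : ∀ x, (∀ y, B x y = 0) → x = 0)
    (hμ : ∀ g, μ g ≠ 0) (hB : ∀ g x y, B (ρ g x) (ρ g y) = μ g * B x y) (hSI : SI ρ) {g : G}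
    {δ : T} {c : K} (hδ : δ ≠ 0) (hc : c ≠ 0) (hg : ∀ x, ρV g x = x + (c * B δ (p x)) • i δ)
    (hμg : μ g = 1) (hσ : σ g = 1)
    (hinf : s = 1 → ∃ γ : G, ∀ m ≥ 1, ∃ x, ρ ((g * (γ * g * γ⁻¹)) ^ m) x ≠ x) (u v : T) :
    rk B v u - (s : K) • rk B u v ∈ LS S i p B ρV σ := by
  have hL : LieG B ρ (LS S i p B ρV σ) := lieG hpi hi hp hB
  have hiinj : Function.Injective i := fun a b h => by rw [← hpi a, h, hpi]
  rcases hs with rfl | rfl
  · -- symmetric
    have hsy' : ∀ x y, B x y = B y x := fun x y => by rw [hsy, Int.cast_one, one_mul]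
    obtain ⟨x, hx⟩ : ∃ x, B δ x ≠ 0 := by
      by_contra hcon
      push Not at hcon
      exact hδ (hnd δ hcon)
    have hgT : ∀ x, ρ g x = x + (c * B δ x) • δ := by
      intro x
      apply hiinj
      rw [hi, hg, hpi, map_add, map_smul]
    have h1 := hB g x x
    rw [hμg, one_mul, hgT] at h1
    simp only [map_add, map_smul, LinearMap.add_apply, LinearMap.smul_apply, smul_eq_mul] at h1
    rw [hsy' x δ] at h1
    have h2 : (c * B δ x * B δ x) * (2 + c * B δ δ) = 0 := by linear_combination h1
    have h3 : 2 + c * B δ δ = 0 :=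
      (mul_eq_zero.1 h2).resolve_left (mul_ne_zero (mul_ne_zero hc hx) hx)
    have hq : B δ δ ≠ 0 := by
      intro h
      rw [h, mul_zero, add_zero] at h3
      exact two_ne_zero h3
    have h4 : c = -(2 / B δ δ) := by
      field_simp
      linear_combination h3
    have hg' : ∀ x, ρV g x = x - (2 / B δ δ * B δ (p x)) • i δ := by
      intro x
      rw [hg, h4]
      module
    have hg'' : ∀ x, ρ g x = refl B δ x := by
      intro x
      rw [hgT, refl_apply, h4]
      module
    obtain ⟨γ, hγ⟩ := hinf rfl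
    have h5 := even_mem (S := S) (σ := σ) hpi hi hp hsy' hμ hB hq hg' hσ hγ
    have h6 : ∀ c : K, ρ γ δ ≠ c • δ := by
      intro c hc
      have hc0 : c ≠ 0 := by
        rintro rfl
        have h6 := hB γ δ δ
        rw [hc, zero_smul, map_zero] at h6
        exact mul_ne_zero (hμ γ) hq h6.symm
      obtain ⟨x, hx⟩ := hγ 1 le_rfl
      apply hx
      rw [pow_one, rho_mul_apply, conj_refl (ρ := ρ) hμ hB hg'' γ, hg'', hc, refl_smul hc0,
        refl_refl hq]
    have h7 := even_full hL hsy' hμ hB hq hg'' hSI h5 h6 u v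
    rw [wg] at h7
    rw [Int.cast_one, one_smul]
    exact h7
  · have hsy' : ∀ x y, B x y = -B y x := fun x y => by
      rw [hsy, Int.cast_neg, Int.cast_one, neg_one_mul]
    have h1 := odd_mem (S := S) (σ := σ) hpi hsy' hc hg hσ
    have h2 := odd_full hL hsy' hnd hμ hB hSI hδ h1 v u
    rw [ss] at h2
    rw [Int.cast_neg, Int.cast_one, neg_one_smul, sub_neg_eq_add]
    exact h2

/-- The operators in coordinates. -/
theorem exists_Xo {C : Type} [DecidableEq C] {n : ℕ} {f : C ⊕ Fin n → V} {t : Fin n → T}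
    (hft : ∀ a, f (Sum.inr a) = i (t a)) (hpi : ∀ t, p (i t) = t)
    (hfc : ∀ c, p (f (Sum.inl c)) = 0) {e : Fin n → ℤ}
    {s : ℤ} (he : ∀ a, e a * e a = 1) (hrev : ∀ a, e a.rev = s * e a)
    (hgram : ∀ a b, B (t a) (t b) = if b = a.rev then (e a : K) else 0)
    {U : Submodule K (MultilinearMap K (fun _ : S => V) E)} {Δ : Subgroup G} (hΔ : Δ.FiniteIndex)
    (hU : Stb ρV σ Δ U)
    (hops : ∀ u v : T, rk B v u - (s : K) • rk B u v ∈ LS S i p B ρV σ)
    (a b : Fin n) {h : MultilinearMap K (fun _ : S => V) E} (hh : h ∈ U) :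
    ∃ h' ∈ U, co f h' = Xo e a b (co f h) := by
  classical
  have h1 := (hops (t b) (t a.rev)).2 Δ hΔ U hU h hh
  refine ⟨((s * e a : ℤ) : K) • Dop (ext i p (rk B (t a.rev) (t b) -
    (s : K) • rk B (t b) (t a.rev))) h, U.smul_mem _ h1, ?_⟩
  funext r
  have hss : (s : K) * s * (e a * e a) = 1 := by
    have h2 := he a.rev
    rw [hrev] at h2
    have h3 : s * s * (e a * e a) = 1 := by linear_combination h2
    exact_mod_cast h3
  have hee : (e a : K) * e a = 1 := by exact_mod_cast he a
  have h2 : ∀ j, h (update (fun j => f (r j)) j (ext i p (rk B (t a.rev) (t b) -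
      (s : K) • rk B (t b) (t a.rev)) (f (r j)))) =
      ((s * e a : ℤ) : K) • (if r j = Sum.inr a then co f h (update r j (Sum.inr b)) else 0) -
      ((s * e b : ℤ) : K) • (if r j = Sum.inr b.rev then
        co f h (update r j (Sum.inr a.rev)) else 0) := by
    intro j
    have h4 : ∀ a, co f h (update r j (Sum.inr a)) =
        h (update (fun j => f (r j)) j (f (Sum.inr a))) := by
      intro a
      rw [co, comp_update]
    rcases hr : r j with c | d
    · rw [if_neg (by simp), if_neg (by simp), smul_zero, smul_zero, sub_zero]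
      refine h.map_coord_zero j ?_
      rw [update_self]
      change i ((rk B (t a.rev) (t b) - (s : K) • rk B (t b) (t a.rev)) (p (f (Sum.inl c)))) = 0
      rw [hfc, map_zero, map_zero]
    · have h5 : ext i p (rk B (t a.rev) (t b) - (s : K) • rk B (t b) (t a.rev))
          (f (Sum.inr d)) = (if d = a then ((s * e a : ℤ) : K) else 0) • f (Sum.inr b) -
            (if d = b.rev then ((s * e b : ℤ) : K) else 0) • f (Sum.inr a.rev) := by
        change i ((rk B (t a.rev) (t b) - (s : K) • rk B (t b) (t a.rev))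
          (p (f (Sum.inr d)))) = _
        rw [hft, hft, hft, hpi, LinearMap.sub_apply, LinearMap.smul_apply, rk_apply, rk_apply,
          hgram, hgram, Fin.rev_rev, hrev, map_sub, map_smul, map_smul, map_smul, smul_smul]
        congr 2
        by_cases hd : d = b.rev
        · rw [if_pos hd, if_pos hd]
          push_cast
          ring
        · rw [if_neg hd, if_neg hd, mul_zero]
      rw [h5, MultilinearMap.map_update_sub, MultilinearMap.map_update_smul,
        MultilinearMap.map_update_smul, h4, h4]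
      congr 1
      · by_cases hd : d = a
        · rw [if_pos hd, if_pos (by rw [hd])]
        · rw [if_neg hd, if_neg (fun h => hd (Sum.inr_injective h)), smul_zero, zero_smul]
      · by_cases hd : d = b.rev
        · rw [if_pos hd, if_pos (by rw [hd])]
        · rw [if_neg hd, if_neg (fun h => hd (Sum.inr_injective h)), smul_zero, zero_smul]
  rw [co, MultilinearMap.smul_apply, Dop_apply, Finset.sum_congr rfl fun j _ => h2 j,
    Finset.sum_sub_distrib, ← Finset.smul_sum, ← Finset.smul_sum, smul_sub, smul_smul, smul_smul]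
  change _ = (∑ j, if r j = Sum.inr a then co f h (update r j (Sum.inr b)) else 0) -
    (e a * e b) • (∑ j, if r j = Sum.inr b.rev then co f h (update r j (Sum.inr a.rev)) else 0)
  have e1 : ((s * e a : ℤ) : K) * ((s * e a : ℤ) : K) = 1 := by
    push_cast
    linear_combination hss
  have e2 : ((s * e a : ℤ) : K) * ((s * e b : ℤ) : K) = ((e a * e b : ℤ) : K) := by
    push_cast
    linear_combination (e a * e b : K) * hss - (s : K) * s * e a * e b * hee
  rw [e1, one_smul, e2, Int.cast_smul_eq_zsmul]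

end Pool.Agent.W5h58.NF
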