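import Pool.Agent.W5h58.NF.High

/-!
# Moving letters
-/

set_option autoImplicit false
set_option linter.unusedSectionVars false

open Finset Function

namespace Pool.Agent.W5h58.NF

section words

variable {C : Type} [DecidableEq C] {n : ℕ} {S : Type} [Fintype S] [DecidableEq S]

/-- the fixed letters -/
def pt (r : S → C ⊕ Fin n) (s : S) : Option C := Sum.elim some (fun _ => none) (r s)

theorem pt_none {r : S → C ⊕ Fin n} {s : S} : pt r s = none ↔ ∃ a, r s = Sum.inr a := by
  unfold pt
  rcases r s with c | a
  · simp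
  · simp

theorem pt_update {r : S → C ⊕ Fin n} {s : S} {b h : Fin n} (hs : r s = Sum.inr b) :
    pt (update r s (Sum.inr h)) = pt r := by
  funext j
  by_cases hj : j = s
  · subst hj
    unfold pt
    rw [update_self, hs]
    rfl
  · unfold pt
    rw [update_of_ne hj]

/-- the letters -/
def im (r : S → C ⊕ Fin n) : Finset (Fin n) := univ.filter fun a => ∃ j, r j = Sum.inr a

theorem mem_im {r : S → C ⊕ Fin n} {a : Fin n} : a ∈ im r ↔ ∃ j, r j = Sum.inr a := by
  rw [im, Finset.mem_filter]
  simp

theorem im_card {r : S → C ⊕ Fin n} (T : Finset S) (hT : ∀ a ∈ im r, ∃ j ∈ T, r j = Sum.inr a) :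
    (im r).card ≤ T.card := by
  classical
  rcases isEmpty_or_nonempty S with h0 | h0
  · have h1 : im r = ∅ := by
      rw [Finset.eq_empty_iff_forall_notMem]
      intro a ha
      obtain ⟨j, -⟩ := mem_im.1 ha
      exact h0.elim j
    rw [h1]
    simp
  choose! p hp using hT
  refine Finset.card_le_card_of_injOn p (fun a ha => (hp a ha).1) ?_
  intro a ha b hb hab
  have h1 := (hp a ha).2
  rw [hab, (hp b hb).2] at h1
  exact (Sum.inr_injective h1).symm

/-- an unused letter -/
theorem exists_unused {T : Finset (Fin n)} (h : 2 * T.card < n) :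
    ∃ a, a ∉ T ∧ a.rev ∉ T := by
  by_contra hcon
  push Not at hcon
  have h1 : (univ : Finset (Fin n)) ⊆ T ∪ T.image Fin.rev := by
    intro a _
    rw [Finset.mem_union]
    by_cases ha : a ∈ T
    · exact Or.inl ha
    · exact Or.inr (Finset.mem_image.2 ⟨a.rev, hcon a ha, Fin.rev_rev a⟩)
  have h2 := Finset.card_le_card h1
  have h3 := Finset.card_union_le T (T.image Fin.rev)
  have h4 := Finset.card_image_le (s := T) (f := Fin.rev)
  rw [Finset.card_univ, Fintype.card_fin] at h2
  omega

theorem fix_unique {a b : Fin n} (ha : a.rev = a) (hb : b.rev = b) : a = b := by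
  have h1 := congrArg Fin.val ha
  have h2 := congrArg Fin.val hb
  rw [Fin.val_rev] at h1 h2
  have h3 := a.2
  have h4 := b.2
  exact Fin.ext (by omega)

/-- an unused letter which is not self-dual -/
theorem exists_unused' {T : Finset (Fin n)} (h : 2 * T.card + 1 < n) :
    ∃ a, a ∉ T ∧ a.rev ∉ T ∧ a.rev ≠ a := by
  by_contra hcon
  push Not at hcon
  obtain ⟨a, ha, ha'⟩ := exists_unused (T := T) (by omega)
  have h0 := hcon a ha ha'
  have h1 : (univ : Finset (Fin n)) ⊆ insert a (T ∪ T.image Fin.rev) := by
    intro b _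
    rw [Finset.mem_insert, Finset.mem_union]
    by_cases hb : b ∈ T
    · exact Or.inr (Or.inl hb)
    · by_cases hb' : b.rev ∈ T
      · exact Or.inr (Or.inr (Finset.mem_image.2 ⟨b.rev, hb', Fin.rev_rev b⟩))
      · exact Or.inl (fix_unique (hcon b hb hb') h0)
  have h2 := Finset.card_le_card h1
  have h3 := Finset.card_union_le T (T.image Fin.rev)
  have h4 := Finset.card_image_le (s := T) (f := Fin.rev)
  have h5 := Finset.card_insert_le a (T ∪ T.image Fin.rev)
  rw [Finset.card_univ, Fintype.card_fin] at h2
  omega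

theorem im_update {r : S → C ⊕ Fin n} {s : S} {a : Fin n} :
    im (update r s (Sum.inr a)) = insert a (univ.filter fun b => ∃ j, j ≠ s ∧ r j = Sum.inr b) := by
  ext b
  rw [mem_im, Finset.mem_insert, Finset.mem_filter]
  constructor
  · rintro ⟨j, hj⟩
    by_cases hjs : j = s
    · subst hjs
      rw [update_self] at hj
      exact Or.inl (Sum.inr_injective hj).symm
    · rw [update_of_ne hjs] at hj
      exact Or.inr ⟨Finset.mem_univ _, j, hjs, hj⟩
  · rintro (h | ⟨-, j, hjs, hj⟩)
    · exact ⟨s, by rw [update_self, h]⟩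
    · exact ⟨j, by rw [update_of_ne hjs, hj]⟩

end words

section move

variable {K : Type*} [Field K] [CharZero K] {C : Type} [DecidableEq C] [Fintype C] {n : ℕ}
  {S : Type} [Fintype S] [DecidableEq S] {M : Type*} [AddCommGroup M] [Module K M]
  {e : Fin n → ℤ} {U : Submodule K ((S → C ⊕ Fin n) → M)}

/-- replacing one letter -/
theorem move_one {c : (S → C ⊕ Fin n) → M} {r : S → C ⊕ Fin n} {s : S} {b h : Fin n}
    (hs : r s = Sum.inr b) (h1 : ∀ j, j ≠ s → r j ≠ Sum.inr h)
    (h2 : ∀ j, update r s (Sum.inr h) j ≠ Sum.inr b.rev) :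
    Xo e h b c (update r s (Sum.inr h)) = c r := by
  rw [Xo, Eo_single (s := s) (update_self _ _ _) (fun j hj => by
    rw [update_of_ne hj]; exact h1 j hj), Eo_none h2, smul_zero, sub_zero, update_idem, ← hs,
    update_eq_self]

/-- **Moving the letters into a given set.** -/
theorem exists_move {ε : ℤ} (he : ∀ a, e a * e a = 1)
    (hrev : ∀ a, e a.rev = ε * e a) (hε : Room ε S n)
    (hX : ∀ a b, ∀ c ∈ U, Xo e a b c ∈ U) {A : Finset (Fin n)} (hA : Fintype.card S ≤ A.card)
    (hA' : ∀ a ∈ A, a.rev ∉ A) {c0 : (S → C ⊕ Fin n) → M} (hc0 : c0 ∈ U) {r0 : S → C ⊕ Fin n}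
    (hr0 : c0 r0 ≠ 0) (hd0 : DPF r0) :
    ∃ c ∈ U, ∃ r, c r ≠ 0 ∧ pt r = pt r0 ∧ (∀ s a, r s = Sum.inr a → a ∈ A) ∧
      ∀ s t a, r s = Sum.inr a → r t = Sum.inr a → s = t := by
  classical
  -- the room
  have hn : 2 * A.card ≤ n := by
    have h1 : Disjoint A (A.image Fin.rev) := by
      rw [Finset.disjoint_left]
      intro a ha ha'
      obtain ⟨b, hb, rfl⟩ := Finset.mem_image.1 ha'
      exact hA' b hb ha
    have h2 := Finset.card_union_of_disjoint h1
    have h3 := Finset.card_le_univ (A ∪ A.image Fin.rev)
    rw [Fintype.card_fin] at h3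
    rw [Finset.card_image_of_injective _ Fin.rev_injective] at h2
    omega
  have hself : ε = -1 → ∀ a : Fin n, a.rev ≠ a := by
    intro h a ha
    have h1 := hrev a
    rw [ha, h] at h1
    have h2 := he a
    have h3 : e a = 0 := by omega
    rw [h3] at h2
    omega
  -- the good words
  set P : (S → C ⊕ Fin n) → Prop := fun r => DPF r ∧ pt r = pt r0 ∧ ∃ c ∈ U, c r ≠ 0 with hP
  set Θ : (S → C ⊕ Fin n) → ℕ := fun r => (n + 1) * (im r).card + (A ∩ im r).card with hΘ
  obtain ⟨r, hr, hmax⟩ := Finset.exists_max_image (univ.filter P) Θ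
    ⟨r0, Finset.mem_filter.2 ⟨Finset.mem_univ _, hd0, rfl, c0, hc0, hr0⟩⟩
  obtain ⟨hd, hp, c, hc, hcr⟩ := (Finset.mem_filter.1 hr).2
  have hmax' : ∀ r', P r' → Θ r' ≤ Θ r := fun r' h => hmax r' (Finset.mem_filter.2
    ⟨Finset.mem_univ _, h⟩)
  -- the word is injective
  have hinj : ∀ s t a, r s = Sum.inr a → r t = Sum.inr a → s = t := by
    intro s t b hs ht
    by_contra hst
    have hcard : (im r).card + 1 ≤ Fintype.card S := by
      have h1 := im_card (r := r) (univ.erase s) (by
        intro a ha
        obtain ⟨j, hj⟩ := mem_im.1 ha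
        by_cases hjs : j = s
        · subst hjs
          rw [hs] at hj
          refine ⟨t, Finset.mem_erase.2 ⟨Ne.symm hst, Finset.mem_univ _⟩, ?_⟩
          rw [ht, hj]
        · exact ⟨j, Finset.mem_erase.2 ⟨hjs, Finset.mem_univ _⟩, hj⟩)
      rw [Finset.card_erase_of_mem (Finset.mem_univ _), Finset.card_univ] at h1
      have h5 : 0 < Fintype.card S := Fintype.card_pos_iff.2 ⟨s⟩
      omega
    obtain ⟨h, h1, h2, h3⟩ : ∃ h, h ∉ im r ∧ h.rev ∉ im r ∧ h.rev ≠ h := by
      rcases hε with hε | ⟨hε, hN⟩
      · obtain ⟨h, h1, h2⟩ := exists_unused (T := im r) (by omega)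
        exact ⟨h, h1, h2, hself hε h⟩
      · exact exists_unused' (by omega)
    have hb : b ∈ im r := mem_im.2 ⟨s, hs⟩
    have hhb : h ≠ b.rev := by
      rintro rfl
      rw [Fin.rev_rev] at h2
      exact h2 hb
    have hval : Xo e h b c (update r s (Sum.inr h)) = c r := by
      refine move_one hs (fun j _ hj => h1 (mem_im.2 ⟨j, hj⟩)) (fun j hj => ?_)
      by_cases hjs : j = s
      · subst hjs
        rw [update_self] at hj
        exact hhb (Sum.inr_injective hj)
      · rw [update_of_ne hjs] at hj
        exact hd s j b hs hj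
    have him : im (update r s (Sum.inr h)) = insert h (im r) := by
      rw [im_update]
      congr 1
      ext a
      rw [mem_im, Finset.mem_filter]
      constructor
      · rintro ⟨-, j, -, hj⟩
        exact ⟨j, hj⟩
      · rintro ⟨j, hj⟩
        refine ⟨Finset.mem_univ _, ?_⟩
        by_cases hjs : j = s
        · subst hjs
          rw [hs] at hj
          exact ⟨t, Ne.symm hst, by rw [ht, hj]⟩
        · exact ⟨j, hjs, hj⟩
    have hdp : DPF (update r s (Sum.inr h)) := by
      intro i j a hi hj
      have hia : a ∈ im (update r s (Sum.inr h)) := mem_im.2 ⟨i, hi⟩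
      have hja : a.rev ∈ im (update r s (Sum.inr h)) := mem_im.2 ⟨j, hj⟩
      rw [him, Finset.mem_insert] at hia hja
      rcases hia with rfl | hia
      · rcases hja with hja | hja
        · exact h3 hja
        · exact h2 hja
      · rcases hja with hja | hja
        · have h4 : a = h.rev := by rw [← hja, Fin.rev_rev]
          rw [h4] at hia
          exact h2 hia
        · obtain ⟨i', hi'⟩ := mem_im.1 hia
          obtain ⟨j', hj'⟩ := mem_im.1 hja
          exact hd i' j' a hi' hj'
    have h4 := hmax' (update r s (Sum.inr h)) ⟨hdp, by rw [pt_update hs, hp], _,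
      hX h b c hc, by rw [hval]; exact hcr⟩
    simp only [hΘ] at h4
    rw [him, Finset.card_insert_of_notMem h1] at h4
    have h5 : (A ∩ im r).card ≤ n := by
      refine (Finset.card_le_univ _).trans ?_
      rw [Fintype.card_fin]
    nlinarith
  refine ⟨c, hc, r, hcr, hp, ?_, hinj⟩
  intro s b hs
  by_contra hb
  -- a letter of `A` which is not used
  obtain ⟨a, haA, har⟩ : ∃ a ∈ A, a ∉ im r := by
    by_contra hcon
    push Not at hcon
    have h1 := im_card (r := r) univ (fun a ha => by
      obtain ⟨j, hj⟩ := mem_im.1 ha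
      exact ⟨j, Finset.mem_univ _, hj⟩)
    have h2 : insert b A ⊆ im r := by
      intro x hx
      rcases Finset.mem_insert.1 hx with rfl | hx
      · exact mem_im.2 ⟨s, hs⟩
      · exact hcon x hx
    have h3 := Finset.card_le_card h2
    rw [Finset.card_insert_of_notMem hb] at h3
    rw [Finset.card_univ] at h1
    omega
  -- the conclusion for a replacement
  have hfin : ∀ (s : S) (b : Fin n), r s = Sum.inr b → b ∉ A →
      (∀ j, j ≠ s → r j ≠ Sum.inr a.rev) → (∃ c ∈ U, c (update r s (Sum.inr a)) ≠ 0) → False := by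
    intro s b hs hb h1 h2
    have hdp : DPF (update r s (Sum.inr a)) := by
      intro i j x hi hj
      by_cases his : i = s
      · subst his
        rw [update_self] at hi
        have hx := Sum.inr_injective hi
        subst hx
        by_cases hjs : j = i
        · subst hjs
          rw [update_self] at hj
          have h3 := Sum.inr_injective hj
          exact hA' a haA (by rw [← h3]; exact haA)
        · rw [update_of_ne hjs] at hj
          exact h1 j hjs hj
      · rw [update_of_ne his] at hi
        by_cases hjs : j = s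
        · subst hjs
          rw [update_self] at hj
          have h3 := Sum.inr_injective hj
          have h4 : x = a.rev := by rw [h3, Fin.rev_rev]
          rw [h4] at hi
          exact h1 i his hi
        · rw [update_of_ne hjs] at hj
          exact hd i j x hi hj
    have h3 := hmax' (update r s (Sum.inr a)) ⟨hdp, by rw [pt_update hs, hp], h2⟩
    have him : im (update r s (Sum.inr a)) = insert a ((im r).erase b) := by
      rw [im_update]
      congr 1
      ext x
      rw [Finset.mem_erase, mem_im, Finset.mem_filter]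
      constructor
      · rintro ⟨-, j, hjs, hj⟩
        refine ⟨?_, j, hj⟩
        rintro rfl
        exact hjs (hinj j s _ hj hs)
      · rintro ⟨hxb, j, hj⟩
        refine ⟨Finset.mem_univ _, j, ?_, hj⟩
        rintro rfl
        rw [hs] at hj
        exact hxb (Sum.inr_injective hj).symm
    have hbi : b ∈ im r := mem_im.2 ⟨s, hs⟩
    have h4 : (im (update r s (Sum.inr a))).card = (im r).card := by
      rw [him, Finset.card_insert_of_notMem (fun h => har (Finset.mem_of_mem_erase h)),
        Finset.card_erase_of_mem hbi]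
      have := Finset.card_pos.2 ⟨b, hbi⟩
      omega
    have h5 : (A ∩ im (update r s (Sum.inr a))).card = (A ∩ im r).card + 1 := by
      have h6 : A ∩ im (update r s (Sum.inr a)) = insert a (A ∩ im r) := by
        ext x
        rw [him]
        simp only [Finset.mem_inter, Finset.mem_insert, Finset.mem_erase]
        constructor
        · rintro ⟨h1, rfl | ⟨-, h2⟩⟩
          · exact Or.inl rfl
          · exact Or.inr ⟨h1, h2⟩
        · rintro (rfl | ⟨h1, h2⟩)
          · exact ⟨haA, Or.inl rfl⟩
          · exact ⟨h1, Or.inr ⟨fun h => hb (by rw [← h]; exact h1), h2⟩⟩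
      rw [h6, Finset.card_insert_of_notMem fun h => har (Finset.mem_inter.1 h).2]
    simp only [hΘ] at h3
    rw [h4, h5] at h3
    omega
  by_cases hra : a.rev ∈ im r
  · obtain ⟨s0, hs0⟩ := mem_im.1 hra
    have hraA := hA' a haA
    have hone : ∀ j, j ≠ s0 → r j ≠ Sum.inr a.rev := fun j hj h => hj (hinj j s0 _ h hs0)
    have hna : ∀ j, r j ≠ Sum.inr a := fun j hj => har (mem_im.2 ⟨j, hj⟩)
    refine hfin s0 a.rev hs0 hraA hone ?_
    rcases hε with hε | ⟨hε, hN⟩
    · refine ⟨Xo e a a.rev c, hX _ _ c hc, ?_⟩
      have h1 : Eo a a.rev c (update r s0 (Sum.inr a)) = c r := by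
        rw [Eo_single (s := s0) (update_self _ _ _) (fun j hj => by
          rw [update_of_ne hj]; exact hna j), update_idem, ← hs0, update_eq_self]
      rw [Xo, Fin.rev_rev, h1, hrev, hε]
      have h2 : e a * (-1 * e a) = -1 := by linear_combination -he a
      rw [h2, neg_one_zsmul, sub_neg_eq_add, ← two_smul K]
      exact smul_ne_zero two_ne_zero hcr
    · have hcard : (im r).card ≤ Fintype.card S := by
        have h1 := im_card (r := r) univ (fun a ha => by
          obtain ⟨j, hj⟩ := mem_im.1 ha
          exact ⟨j, Finset.mem_univ _, hj⟩)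
        rwa [Finset.card_univ] at h1
      obtain ⟨h, h1, h2⟩ := exists_unused (T := im r) (by omega)
      have hha : h ≠ a := by
        rintro rfl
        exact h2 hra
      have hrha : h ≠ a.rev := by
        rintro rfl
        exact h1 hra
      have e1 : Xo e h a.rev c (update r s0 (Sum.inr h)) = c r := by
        refine move_one hs0 (fun j _ hj => h1 (mem_im.2 ⟨j, hj⟩)) (fun j hj => ?_)
        rw [Fin.rev_rev] at hj
        by_cases hjs : j = s0
        · subst hjs
          rw [update_self] at hj
          exact hha (Sum.inr_injective hj)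
        · rw [update_of_ne hjs] at hj
          exact hna j hj
      refine ⟨Xo e a h (Xo e h a.rev c), hX _ _ _ (hX _ _ c hc), ?_⟩
      have e2 := move_one (e := e) (c := Xo e h a.rev c) (r := update r s0 (Sum.inr h)) (s := s0)
        (b := h) (h := a) (update_self _ _ _) (fun j hj => by
          rw [update_of_ne hj]; exact hna j) (fun j hj => by
          rw [update_idem] at hj
          by_cases hjs : j = s0
          · subst hjs
            rw [update_self] at hj
            apply hrha
            rw [Sum.inr_injective hj, Fin.rev_rev]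
          · rw [update_of_ne hjs] at hj
            exact h2 (mem_im.2 ⟨j, hj⟩))
      rw [update_idem] at e2
      rw [e2, e1]
      exact hcr
  · refine hfin s b hs hb (fun j _ hj => hra (mem_im.2 ⟨j, hj⟩)) ⟨Xo e a b c, hX _ _ c hc, ?_⟩
    have e1 : Xo e a b c (update r s (Sum.inr a)) = c r := by
      refine move_one hs (fun j _ hj => har (mem_im.2 ⟨j, hj⟩)) (fun j hj => ?_)
      by_cases hjs : j = s
      · subst hjs
        rw [update_self] at hj
        apply hra
        rw [Sum.inr_injective hj, Fin.rev_rev]
        exact mem_im.2 ⟨j, hs⟩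
      · rw [update_of_ne hjs] at hj
        exact hd s j b hs hj
    rw [e1]
    exact hcr

theorem Eo_iter {b h : Fin n} (hbh : b ≠ h) (c : (S → C ⊕ Fin n) → M) (k : ℕ) :
    ∀ r : S → C ⊕ Fin n, (univ.filter fun j => r j = Sum.inr h).card = k →
      ((Eo h b)^[k] c) r = (k.factorial : ℤ) • c fun j => if r j = Sum.inr h then Sum.inr b else r j := by
  induction k with
  | zero =>
    intro r hr
    rw [Finset.card_eq_zero, Finset.filter_eq_empty_iff] at hr
    rw [Function.iterate_zero, id, Nat.factorial_zero, Nat.cast_one, one_smul]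
    congr 1
    funext j
    rw [if_neg (hr (Finset.mem_univ j))]
  | succ k ih =>
    intro r hr
    rw [Function.iterate_succ_apply', Eo]
    have h1 : ∀ j, (if r j = Sum.inr h then ((Eo h b)^[k] c) (update r j (Sum.inr b)) else 0) =
        if r j = Sum.inr h then
          (k.factorial : ℤ) • c (fun j => if r j = Sum.inr h then Sum.inr b else r j) else 0 := by
      intro j
      by_cases hj : r j = Sum.inr h
      · rw [if_pos hj, if_pos hj, ih]
        · congr 2
          funext i
          by_cases hi : i = j
          · subst hi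
            rw [update_self, if_pos hj, if_neg (fun h' => hbh (Sum.inr_injective h'))]
          · rw [update_of_ne hi]
        · have h2 : (univ.filter fun i => update r j (Sum.inr b) i = Sum.inr h) =
              (univ.filter fun i => r i = Sum.inr h).erase j := by
            ext i
            rw [Finset.mem_erase, Finset.mem_filter, Finset.mem_filter]
            by_cases hi : i = j
            · subst hi
              rw [update_self]
              simp [hbh]
            · rw [update_of_ne hi]
              simp [hi]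
          have h3 : j ∈ univ.filter fun i => r i = Sum.inr h :=
            Finset.mem_filter.2 ⟨Finset.mem_univ _, hj⟩
          rw [h2, Finset.card_erase_of_mem h3, hr, Nat.add_sub_cancel]
      · rw [if_neg hj, if_neg hj]
    rw [Finset.sum_congr rfl fun j _ => h1 j, ← Finset.sum_filter, Finset.sum_const, hr,
      Nat.factorial_succ, ← natCast_zsmul, smul_smul]
    push_cast
    rfl

/-- **Moving the letters into a Lagrangian set.** -/
theorem exists_move' (he : ∀ a, e a * e a = 1) (hrev : ∀ a, e a.rev = -1 * e a)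
    (hX : ∀ a b, ∀ c ∈ U, Xo e a b c ∈ U) {A : Finset (Fin n)}
    (hA : ∀ a, a ∈ A ∨ a.rev ∈ A) {c0 : (S → C ⊕ Fin n) → M} (hc0 : c0 ∈ U)
    {r0 : S → C ⊕ Fin n} (hr0 : c0 r0 ≠ 0) (hd0 : DPF r0) :
    ∃ c ∈ U, ∃ r, c r ≠ 0 ∧ pt r = pt r0 ∧ ∀ s a, r s = Sum.inr a → a ∈ A := by
  classical
  set P : (S → C ⊕ Fin n) → Prop := fun r => DPF r ∧ pt r = pt r0 ∧ ∃ c ∈ U, c r ≠ 0 with hP
  set Θ : (S → C ⊕ Fin n) → ℕ := fun r =>
    (univ.filter fun j => ∃ a, a ∉ A ∧ r j = Sum.inr a).card with hΘ
  obtain ⟨r, hr, hmin⟩ := Finset.exists_min_image (univ.filter P) Θ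
    ⟨r0, Finset.mem_filter.2 ⟨Finset.mem_univ _, hd0, rfl, c0, hc0, hr0⟩⟩
  obtain ⟨hd, hp, c, hc, hcr⟩ := (Finset.mem_filter.1 hr).2
  refine ⟨c, hc, r, hcr, hp, fun s b hs => ?_⟩
  by_contra hb
  have hbA : b.rev ∈ A := (hA b).resolve_left hb
  have hself : b ≠ b.rev := by
    intro h
    rw [← h] at hbA
    exact hb hbA
  have hE : ∀ c ∈ U, Eo b.rev b c ∈ U := by
    intro c hc
    have h1 : Xo e b.rev b c = (2 : K) • Eo b.rev b c := by
      funext r
      rw [Xo, Fin.rev_rev, hrev]
      have h2 : -1 * e b * e b = -1 := by linear_combination -he b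
      rw [h2, neg_one_zsmul, sub_neg_eq_add, Pi.smul_apply, two_smul]
    have h2 := hX b.rev b c hc
    rw [h1] at h2
    have h3 := U.smul_mem (2 : K)⁻¹ h2
    rwa [smul_smul, inv_mul_cancel₀ two_ne_zero, one_smul] at h3
  have hEk : ∀ k, (Eo b.rev b)^[k] c ∈ U := by
    intro k
    induction k with
    | zero => exact hc
    | succ k ih =>
      rw [Function.iterate_succ_apply']
      exact hE _ ih
  set r' : S → C ⊕ Fin n := fun j => if r j = Sum.inr b then Sum.inr b.rev else r j with hr'
  have hnoh : ∀ j, r j ≠ Sum.inr b.rev := fun j => hd s j b hs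
  have hback : (fun j => if r' j = Sum.inr b.rev then Sum.inr b else r' j) = r := by
    funext j
    rw [hr']
    beta_reduce
    by_cases hj : r j = Sum.inr b
    · rw [if_pos hj, if_pos rfl, hj]
    · rw [if_neg hj, if_neg (hnoh j)]
  have h1 := Eo_iter (b := b) (h := b.rev) hself c _ r' rfl
  rw [hback] at h1
  have hP' : P r' := by
    refine ⟨?_, ?_, (Eo b.rev b)^[(univ.filter fun j => r' j = Sum.inr b.rev).card] c,
      hEk _, ?_⟩
    · intro i j x hi hj
      rw [hr'] at hi hj
      beta_reduce at hi hj
      by_cases hib : r i = Sum.inr b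
      · rw [if_pos hib] at hi
        have hx := Sum.inr_injective hi
        subst hx
        rw [Fin.rev_rev] at hj
        by_cases hjb : r j = Sum.inr b
        · rw [if_pos hjb] at hj
          exact hself (Sum.inr_injective hj).symm
        · rw [if_neg hjb] at hj
          exact hjb hj
      · rw [if_neg hib] at hi
        by_cases hjb : r j = Sum.inr b
        · rw [if_pos hjb] at hj
          have hx := Fin.rev_injective (Sum.inr_injective hj)
          subst hx
          exact hib hi
        · rw [if_neg hjb] at hj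
          exact hd i j x hi hj
    · rw [← hp]
      funext j
      rw [hr', pt, pt]
      beta_reduce
      by_cases hj : r j = Sum.inr b
      · rw [if_pos hj, hj]
        rfl
      · rw [if_neg hj]
    · rw [h1, ← Int.cast_smul_eq_zsmul K]
      exact smul_ne_zero (by exact_mod_cast Nat.factorial_ne_zero _) hcr
  have h2 := hmin r' (Finset.mem_filter.2 ⟨Finset.mem_univ _, hP'⟩)
  have h3 : Θ r' < Θ r := by
    refine Finset.card_lt_card ?_
    rw [Finset.ssubset_iff_of_subset]
    · refine ⟨s, Finset.mem_filter.2 ⟨Finset.mem_univ _, b, hb, hs⟩, ?_⟩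
      rw [Finset.mem_filter]
      rintro ⟨-, a, ha, ha'⟩
      rw [hr'] at ha'
      beta_reduce at ha'
      rw [if_pos hs] at ha'
      rw [← Sum.inr_injective ha'] at ha
      exact ha hbA
    · intro j hj
      rw [Finset.mem_filter] at hj ⊢
      obtain ⟨-, a, ha, ha'⟩ := hj
      refine ⟨Finset.mem_univ _, ?_⟩
      rw [hr'] at ha'
      beta_reduce at ha'
      by_cases hjb : r j = Sum.inr b
      · exact ⟨b, hb, hjb⟩
      · rw [if_neg hjb] at ha'
        exact ⟨a, ha, ha'⟩
  omega

end move

end Pool.Agent.W5h58.NF
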