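import Pool.Agent.W5h58.NF.Ops
import Pool.Agent.W5h58.NF.Move

/-!
# Eigenvalues of the values of traceless maps
-/

set_option autoImplicit false
set_option linter.unusedSectionVars false

open Finset Function

namespace Pool.Agent.W5h58.NF

universe u v w

/-- an element of all valuation rings is integral -/
theorem integral_of_val {K : Type*} [Field K] {z : K} (h : ∀ O : ValuationSubring K, z ∈ O) :
    IsIntegral ℤ z := by
  have h1 := iInf_valuationSubring_superset (K := K) (s := ∅)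
  have h2 : z ∈ (⨅ V : {V : ValuationSubring K // (∅ : Set K) ⊆ V.toSubring}, V.1.toSubring) := by
    rw [Subring.mem_iInf]
    exact fun V => h V.1
  rw [h1] at h2
  have h3 : IsIntegral (Subring.closure (∅ : Set K)) z := h2
  have h4 : Algebra.IsIntegral ℤ (Subring.closure (∅ : Set K)) := ⟨fun x => by
    have h5 : (Subring.closure (∅ : Set K)) = ⊥ := Subring.closure_empty
    have h6 : (x : K) ∈ (⊥ : Subring K) := by rw [← h5]; exact x.2
    obtain ⟨m, hm⟩ := Subring.mem_bot.1 h6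
    have h7 : x = (m : Subring.closure (∅ : Set K)) := Subtype.ext (by rw [← hm]; norm_cast)
    rw [h7]
    have := isIntegral_algebraMap (R := ℤ) (A := Subring.closure (∅ : Set K)) (x := m)
    rwa [eq_intCast] at this⟩
  exact isIntegral_trans z h3

/-- divisibility of an eigenvalue by a rational power of `q` -/
def Dvd (K : Type*) [Field K] (q : K) (D : ℕ) (x : ℤ) (β : K) : Prop :=
  IsIntegral ℤ (β ^ D / q ^ x)

section gp

variable {K : Type u} [Field K] {V : Type v} [AddCommGroup V] [Module K V]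
  {V' : Type w} [AddCommGroup V'] [Module K V']

/-- the sum of the generalized eigenspaces for the eigenvalues with a given property -/
def GP (F : Module.End K V) (P : K → Prop) : Submodule K V :=
  ⨆ (β : K) (_ : P β), F.maxGenEigenspace β

theorem mem_GP {F : Module.End K V} {P : K → Prop} {β : K} (h : P β) {v : V}
    (hv : v ∈ F.maxGenEigenspace β) : v ∈ GP F P :=
  (le_iSup₂_of_le (f := fun (β : K) (_ : P β) => F.maxGenEigenspace β) β h le_rfl) hv

theorem GP_disj {F : Module.End K V} {P : K → Prop} {β : K} (h : ¬ P β) :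
    Disjoint (F.maxGenEigenspace β) (GP F P) := by
  refine ((Module.End.independent_maxGenEigenspace F) β).mono_right ?_
  refine iSup₂_le fun β' h' => ?_
  refine le_iSup₂_of_le (f := fun (j : K) (_ : j ≠ β) => F.maxGenEigenspace j) β' ?_ le_rfl
  rintro rfl
  exact h h'

theorem GP_mono {F : Module.End K V} {P P' : K → Prop} (h : ∀ β, P β → P' β) :
    GP F P ≤ GP F P' :=
  iSup₂_le fun β hβ => le_iSup₂_of_le (f := fun (β : K) (_ : P' β) => F.maxGenEigenspace β) β
    (h β hβ) le_rfl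

theorem GP_decomp [Module.Finite K V] {F : Module.End K V} {P : K → Prop}
    {U : Submodule K V} (hU : ∀ x ∈ U, F x ∈ U) (hUP : U ≤ GP F P) :
    U ≤ ⨆ (β : K) (_ : P β), U ⊓ F.maxGenEigenspace β := by
  intro x hx
  have h1 : x ∈ ⨆ μ, F.genEigenspace μ ⊤ := by
    have h2 := hUP hx
    have h3 : GP F P ≤ ⨆ μ, F.genEigenspace μ ⊤ := iSup₂_le fun β _ => le_iSup
      (fun μ => F.genEigenspace μ ⊤) β
    exact h3 h2
  have h2 : x ∈ U ⊓ ⨆ μ, F.genEigenspace μ ⊤ := ⟨hx, h1⟩
  rw [Submodule.inf_iSup_genEigenspace hU] at h2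
  have h3 : (⨆ μ, U ⊓ F.genEigenspace μ ⊤) ≤ ⨆ (β : K) (_ : P β), U ⊓ F.maxGenEigenspace β := by
    refine iSup_le fun μ => ?_
    by_cases hμ : P μ
    · exact le_iSup₂_of_le (f := fun (β : K) (_ : P β) => U ⊓ F.maxGenEigenspace β) μ hμ le_rfl
    · have h4 := (GP_disj (F := F) hμ).eq_bot
      have h5 : U ⊓ F.genEigenspace μ ⊤ ≤ ⊥ := by
        rw [← h4]
        exact le_inf inf_le_right (inf_le_left.trans hUP)
      exact h5.trans bot_le
  exact h3 h2

theorem gen_map' {F : Module.End K V} {F' : Module.End K V'} {φ : V →ₗ[K] V'} {c : K}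
    (h : ∀ v, F' (φ v) = c • φ (F v)) {β : K} {v : V} (hv : v ∈ F.maxGenEigenspace β) :
    φ v ∈ F'.maxGenEigenspace (c * β) := by
  rw [Module.End.mem_maxGenEigenspace] at hv ⊢
  obtain ⟨k, hk⟩ := hv
  refine ⟨k, ?_⟩
  have h1 : ∀ (k : ℕ) v, ((F' - (c * β) • (1 : Module.End K V')) ^ k) (φ v) =
      c ^ k • φ (((F - β • (1 : Module.End K V)) ^ k) v) := by
    intro k
    induction k with
    | zero => intro v; simp
    | succ k ih =>
      intro v
      rw [pow_succ, Module.End.mul_apply]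
      have h2 : (F' - (c * β) • (1 : Module.End K V')) (φ v) =
          c • φ ((F - β • (1 : Module.End K V)) v) := by
        rw [LinearMap.sub_apply, LinearMap.smul_apply, Module.End.one_apply, h, LinearMap.sub_apply,
          LinearMap.smul_apply, Module.End.one_apply, map_sub, map_smul, smul_sub, smul_smul]
      rw [h2, map_smul, ih, smul_smul, ← pow_succ', pow_succ (F - β • (1 : Module.End K V)),
        Module.End.mul_apply]
  rw [h1, hk, map_zero, smul_zero]

theorem GP_map {F : Module.End K V} {F' : Module.End K V'} {φ : V →ₗ[K] V'} {c : K}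
    (h : ∀ v, F' (φ v) = c • φ (F v)) {P P' : K → Prop} (hP : ∀ β, P β → P' (c * β)) {v : V}
    (hv : v ∈ GP F P) : φ v ∈ GP F' P' := by
  have h1 : GP F P ≤ (GP F' P').comap φ := by
    refine iSup₂_le fun β hβ v hv => ?_
    rw [Submodule.mem_comap]
    exact mem_GP (hP β hβ) (gen_map' h hv)
  exact h1 hv

end gp

section values

variable {K : Type u} [Field K] [IsAlgClosed K] [CharZero K] {V : Type v} [AddCommGroup V]
  [Module K V] [Module.Finite K V] {E : Type w} [AddCommGroup E] [Module K E] [Module.Finite K E]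
  {N : ℕ} {C : Type} [Fintype C] [DecidableEq C] {n : ℕ}

/-- **The eigenvalues of the values of traceless maps.** -/
theorem values {Φ : Module.End K (MultilinearMap K (fun _ : Fin N => V) E)}
    {ρ : Module.End K V} {σ : Module.End K E}
    (hΦ : ∀ h v, σ (h v) = (Φ h) fun j => ρ (v j)) (f : Module.Basis (C ⊕ Fin n) K V)
    {α : C ⊕ Fin n → K} (hα : ∀ j, f j ∈ ρ.maxGenEigenspace (α j))
    {e : Fin n → ℤ} {ε : ℤ} (he : ∀ a, e a * e a = 1)
    (hrev : ∀ a, e a.rev = ε * e a) (hε : Room ε (Fin N) n)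
    {U : Submodule K (MultilinearMap K (fun _ : Fin N => V) E)} (hUΦ : ∀ h ∈ U, Φ h ∈ U)
    {q : K} {D : ℕ} {x y : ℤ} {κ : K} (hUF : U ≤ GP Φ (Dvd K q D x)) {τ : Fin N → Option C}
    (hτ : ∀ h ∈ U, ∀ r, co f h r ≠ 0 → pt r = τ)
    (htr : ∀ h ∈ U, ∀ s t, s ≠ t → ∀ r, tro e s t (co f h) r = 0)
    (hX : ∀ a b, ∀ h ∈ U, ∃ h' ∈ U, co f h' = Xo e a b (co f h))
    (hσ : ∀ h ∈ U, ∀ r, σ (co f h r) ∈ Submodule.span K {z | ∃ h ∈ U, ∃ r, z = co f h r})
    (hsl : ∀ O : ValuationSubring K, ∃ A : Finset (Fin n), (N ≤ A.card ∧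
      (∀ a ∈ A, a.rev ∉ A) ∧ ∀ lam, Dvd K q D x lam → ∀ r : Fin N → C ⊕ Fin n, pt r = τ →
        (∀ s a, r s = Sum.inr a → a ∈ A) → (∀ s t a, r s = Sum.inr a → r t = Sum.inr a → s = t) →
          ((lam * ∏ s, α (r s)) / κ) ^ D / q ^ y ∈ O) ∨
      (ε = -1 ∧ (∀ a, a ∈ A ∨ a.rev ∈ A) ∧ ∀ lam, Dvd K q D x lam →
        ∀ r : Fin N → C ⊕ Fin n, pt r = τ → (∀ s a, r s = Sum.inr a → a ∈ A) →
          ((lam * ∏ s, α (r s)) / κ) ^ D / q ^ y ∈ O)) :
    Submodule.span K {z | ∃ h ∈ U, ∃ r, z = co f h r} ≤ GP σ fun β => Dvd K q D y (β / κ) := by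
  classical
  set Cv := Submodule.span K {z | ∃ h ∈ U, ∃ r, z = co f h r} with hCv
  have hCσ : ∀ z ∈ Cv, σ z ∈ Cv := by
    intro z hz
    induction hz using Submodule.span_induction with
    | mem z hz =>
      obtain ⟨h, hh, r, rfl⟩ := hz
      exact hσ h hh r
    | zero => rw [map_zero]; exact Cv.zero_mem
    | add x y _ _ hx hy => rw [map_add]; exact Cv.add_mem hx hy
    | smul a x _ hx => rw [map_smul]; exact Cv.smul_mem a hx
  -- the values for one valuation ring
  have key : ∀ O : ValuationSubring K,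
      Cv ≤ GP σ fun β => (β / κ) ^ D / q ^ y ∈ O := by
    intro O
    obtain ⟨A, hAO⟩ := hsl O
    set G := GP σ fun β => (β / κ) ^ D / q ^ y ∈ O with hG
    by_contra hcon
    obtain ⟨h0, hh0, r0, hr0⟩ : ∃ h ∈ U, ∃ r, co f h r ∉ G := by
      by_contra h1
      push Not at h1
      apply hcon
      refine Submodule.span_le.2 ?_
      rintro _ ⟨h, hh, r, rfl⟩
      exact h1 h hh r
    -- the space of coordinates
    let L : MultilinearMap K (fun _ : Fin N => V) E →ₗ[K] ((Fin N → C ⊕ Fin n) → E ⧸ G) :=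
      { toFun := fun h r => G.mkQ (co f h r)
        map_add' := fun h h' => by
          funext r
          change G.mkQ (h _ + h' _) = _
          rw [map_add]
          rfl
        map_smul' := fun c h => by
          funext r
          change G.mkQ (c • h _) = _
          rw [map_smul]
          rfl }
    have hL : ∀ h r, L h r = G.mkQ (co f h r) := fun h r => rfl
    have hmk : ∀ z : E, G.mkQ z = 0 ↔ z ∈ G := fun z => by
      rw [Submodule.mkQ_apply, Submodule.Quotient.mk_eq_zero]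
    have hE : ∀ (a b : Fin n) (c : (Fin N → C ⊕ Fin n) → E) r,
        Eo a b (fun r => G.mkQ (c r)) r = G.mkQ (Eo a b c r) := by
      intro a b c r
      rw [Eo, Eo, map_sum]
      refine Finset.sum_congr rfl fun j _ => ?_
      rw [apply_ite G.mkQ, map_zero]
    have hXL : ∀ a b, ∀ c ∈ U.map L, Xo e a b c ∈ U.map L := by
      rintro a b _ ⟨h, hh, rfl⟩
      obtain ⟨h', hh', hh''⟩ := hX a b h hh
      refine ⟨h', hh', ?_⟩
      funext r
      rw [hL, hh'', Xo, Xo, map_sub, map_zsmul, ← hE, ← hE]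
      rfl
    have hne : U.map L ≠ ⊥ := by
      intro h1
      have h2 : L h0 ∈ U.map L := ⟨h0, hh0, rfl⟩
      rw [h1, Submodule.mem_bot] at h2
      have h3 := congrFun h2 r0
      rw [hL] at h3
      exact hr0 ((hmk _).1 h3)
    obtain ⟨c1, hc1, r1, hr1, hd1⟩ := exists_dpf he hrev hε hne (by
      rintro _ ⟨h, hh, rfl⟩ s t hst r
      have h1 := congrArg G.mkQ (htr h hh s t hst r)
      rw [map_zero, tro, map_sum] at h1
      rw [tro, ← h1]
      refine Finset.sum_congr rfl fun a _ => ?_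
      rw [map_zsmul]
      rfl) hXL
    have hp1 : pt r1 = τ := by
      obtain ⟨h1, hh1, rfl⟩ := hc1
      refine hτ h1 hh1 r1 fun h2 => hr1 ?_
      rw [hL, h2, map_zero]
    obtain ⟨c2, hc2, r2, hr2, hO⟩ : ∃ c2 ∈ U.map L, ∃ r2, c2 r2 ≠ 0 ∧
        ∀ lam, Dvd K q D x lam → ((lam * ∏ s, α (r2 s)) / κ) ^ D / q ^ y ∈ O := by
      rcases hAO with ⟨hA, hA', hO⟩ | ⟨hε1, hA, hO⟩
      · obtain ⟨c2, hc2, r2, hr2, hp2, hA2, hi2⟩ := exists_move he hrev hε hXL (A := A)
          (by rw [Fintype.card_fin]; exact hA) hA' hc1 hr1 hd1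
        exact ⟨c2, hc2, r2, hr2, fun lam hlam => hO lam hlam r2 (hp2.trans hp1) hA2 hi2⟩
      · subst hε1
        obtain ⟨c2, hc2, r2, hr2, hp2, hA2⟩ := exists_move' he hrev hXL hA hc1 hr1 hd1
        exact ⟨c2, hc2, r2, hr2, fun lam hlam => hO lam hlam r2 (hp2.trans hp1) hA2⟩
    obtain ⟨h2, hh2, rfl⟩ := hc2
    apply hr2
    rw [hL, hmk]
    -- decompose
    have h3 := GP_decomp hUΦ hUF hh2
    let ev : MultilinearMap K (fun _ : Fin N => V) E →ₗ[K] E :=
      { toFun := fun h => co f h r2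
        map_add' := fun h h' => rfl
        map_smul' := fun c h => rfl }
    have h4 : (⨆ (β : K) (_ : Dvd K q D x β), U ⊓ Φ.maxGenEigenspace β) ≤ G.comap ev := by
      refine iSup₂_le fun lam hlam h hh => ?_
      rw [Submodule.mem_comap]
      change co f h r2 ∈ G
      have h5 := gen_eval hΦ hh.2 (v := fun j => f (r2 j)) (α := fun j => α (r2 j))
        fun j => hα (r2 j)
      exact mem_GP (P := fun β => (β / κ) ^ D / q ^ y ∈ O)
        (hO lam hlam) h5
    exact h4 h3
  intro z hz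
  have h1 : z ∈ ⨆ μ, σ.genEigenspace μ ⊤ := by
    have h2 := Module.End.iSup_maxGenEigenspace_eq_top σ
    have h3 : z ∈ (⊤ : Submodule K E) := Submodule.mem_top
    rw [← h2] at h3
    exact h3
  have h2 : z ∈ Cv ⊓ ⨆ μ, σ.genEigenspace μ ⊤ := ⟨hz, h1⟩
  rw [Submodule.inf_iSup_genEigenspace hCσ] at h2
  have h3 : (⨆ μ, Cv ⊓ σ.genEigenspace μ ⊤) ≤ GP σ fun β => Dvd K q D y (β / κ) := by
    refine iSup_le fun μ => ?_
    rintro w ⟨hw, hw'⟩
    by_cases hw0 : w = 0
    · rw [hw0]
      exact Submodule.zero_mem _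
    refine mem_GP (P := fun β => Dvd K q D y (β / κ)) ?_ hw'
    refine integral_of_val fun O => ?_
    by_contra hcon
    have h4 := (GP_disj (F := σ) (P := fun β => (β / κ) ^ D / q ^ y ∈ O) (β := μ) hcon).eq_bot
    apply hw0
    rw [← Submodule.mem_bot K, ← h4]
    exact ⟨hw', key O hw⟩
  exact h3 h2

end values

end Pool.Agent.W5h58.NF
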