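import Pool.Agent.W5h58.NF.Big
import Pool.Agent.W5h58.NF.Eig

/-!
# Contraction and insertion on the spaces of multilinear maps
-/

set_option autoImplicit false
set_option linter.unusedSectionVars false

open Finset Function

namespace Pool.Agent.W5h58.NF

open Pool.Agent.TH125.Gal

universe u v w x y

section lin

/-- An operator without nilpotent part at zero. -/
theorem ker_range {K : Type*} [Field K] {M : Type*} [AddCommGroup M] [Module K M]
    {U : Submodule K M} [Module.Finite K U] (k : M →ₗ[K] M) (hk : ∀ x ∈ U, k x ∈ U)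
    (h2 : ∀ x ∈ U, k (k x) = 0 → k x = 0) {x : M} (hx : x ∈ U) :
    ∃ x0 ∈ U, ∃ x1 ∈ U, k x0 = 0 ∧ x = x0 + k x1 := by
  set R : Submodule K M := U.map k with hR
  have hRU : R ≤ U := by
    rintro _ ⟨y, hy, rfl⟩
    exact hk y hy
  have hfin : Module.Finite K R := Module.Finite.map U k
  let kR : R →ₗ[K] R := k.restrict fun y hy => ⟨y, hRU hy, rfl⟩
  have hinj : Function.Injective kR := by
    rw [injective_iff_map_eq_zero]
    rintro ⟨_, y, hy, rfl⟩ h
    have h3 : k (k y) = 0 := congrArg Subtype.val h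
    exact Subtype.ext (h2 y hy h3)
  have hsurj := LinearMap.injective_iff_surjective.1 hinj
  obtain ⟨⟨_, y, hy, rfl⟩, hz⟩ := hsurj ⟨k x, x, hx, rfl⟩
  have h3 : k (k y) = k x := congrArg Subtype.val hz
  refine ⟨x - k y, U.sub_mem hx (hk y hy), y, hy, ?_, (sub_add_cancel _ _).symm⟩
  rw [map_sub, h3, sub_self]

variable {K : Type u} [Field K] [CharZero K] {T : Type y} [AddCommGroup T] [Module K T]
  {B : T →ₗ[K] T →ₗ[K] K} {n : ℕ} {t : Module.Basis (Fin n) K T} {e : Fin n → ℤ} {ε : ℤ}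

theorem expand_t (he : ∀ a, e a * e a = 1)
    (hgram : ∀ a b, B (t a) (t b) = if b = a.rev then (e a : K) else 0) (z : T) :
    z = ∑ b, ((e b : K) * B z (t b.rev)) • t b := by
  conv_lhs => rw [← t.sum_repr z]
  refine Finset.sum_congr rfl fun b _ => ?_
  congr 1
  have h1 : B z (t b.rev) = t.repr z b * e b := by
    conv_lhs => rw [← t.sum_repr z]
    rw [map_sum, LinearMap.sum_apply, Finset.sum_eq_single b]
    · rw [map_smul, LinearMap.smul_apply, hgram, if_pos rfl, smul_eq_mul]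
    · intro a _ hab
      rw [map_smul, LinearMap.smul_apply, hgram, if_neg, smul_zero]
      intro h
      exact hab (Fin.rev_injective h.symm)
    · intro h
      exact absurd (Finset.mem_univ _) h
  have h2 : (e b : K) * e b = 1 := by exact_mod_cast he b
  rw [h1]
  linear_combination -(t.repr z b) * h2

/-- **The Casimir element is semi-invariant.** -/
theorem casimir (he : ∀ a, e a * e a = 1) (hrev : ∀ a, e a.rev = ε * e a) (hε : ε * ε = 1)
    (hgram : ∀ a b, B (t a) (t b) = if b = a.rev then (e a : K) else 0)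
    (hsy : ∀ x y, B x y = (ε : K) * B y x) {μ : K} {g gi : T →ₗ[K] T}
    (hg : ∀ x y, B (g x) (g y) = μ * B x y) (hgi : ∀ x, g (gi x) = x)
    {E : Type w} [AddCommGroup E] [Module K E] (m : T →ₗ[K] T →ₗ[K] E) :
    ∑ a, e a • m (g (t a)) (g (t a.rev)) = μ • ∑ a, e a • m (t a) (t a.rev) := by
  have hε' : (ε : K) * ε = 1 := by exact_mod_cast hε
  have h1 : ∀ b : Fin n, ∑ a, ((e a : K) * B (g (t a)) (t b.rev)) • g (t a.rev) = μ • t b.rev := by
    intro b
    have h2 : ∀ a, (e a : K) * B (g (t a)) (t b.rev) =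
        μ * ((e a.rev : K) * B (gi (t b.rev)) (t a.rev.rev)) := by
      intro a
      have h3 := hg (t a) (gi (t b.rev))
      rw [hgi] at h3
      rw [h3, hsy (t a) (gi (t b.rev)), Fin.rev_rev, hrev]
      push_cast
      ring
    have h3 : ∑ a, ((e a : K) * B (g (t a)) (t b.rev)) • g (t a.rev) =
        μ • g (∑ a : Fin n, ((e a.rev : K) * B (gi (t b.rev)) (t a.rev.rev)) • t a.rev) := by
      rw [map_sum, Finset.smul_sum]
      refine Finset.sum_congr rfl fun a _ => ?_
      rw [h2, map_smul, mul_smul]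
    have h4 : ∑ a : Fin n, ((e a.rev : K) * B (gi (t b.rev)) (t a.rev.rev)) • t a.rev =
        gi (t b.rev) := by
      have h5 := Equiv.sum_comp (Fin.revPerm (n := n)) (fun a : Fin n =>
        ((e a : K) * B (gi (t b.rev)) (t a.rev)) • t a)
      exact h5.trans (expand_t he hgram _).symm
    rw [h3, h4, hgi]
  calc ∑ a, e a • m (g (t a)) (g (t a.rev))
      = ∑ a, ∑ b, (e b : K) • m (t b) (((e a : K) * B (g (t a)) (t b.rev)) • g (t a.rev)) := by
        refine Finset.sum_congr rfl fun a _ => ?_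
        conv_lhs => rw [expand_t he hgram (g (t a))]
        rw [map_sum, LinearMap.sum_apply, Finset.smul_sum]
        refine Finset.sum_congr rfl fun b _ => ?_
        rw [map_smul, LinearMap.smul_apply, map_smul, smul_smul, ← Int.cast_smul_eq_zsmul K,
          smul_smul]
        congr 1
        ring
    _ = ∑ b, (e b : K) • m (t b) (∑ a, ((e a : K) * B (g (t a)) (t b.rev)) • g (t a.rev)) := by
        rw [Finset.sum_comm]
        refine Finset.sum_congr rfl fun b _ => ?_
        rw [map_sum, Finset.smul_sum]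
    _ = _ := by
        rw [Finset.smul_sum]
        refine Finset.sum_congr rfl fun b _ => ?_
        rw [h1, map_smul, ← Int.cast_smul_eq_zsmul K, smul_comm]

end lin

section ops

variable {K : Type u} [Field K] [CharZero K] {V : Type v} [AddCommGroup V] [Module K V]
  {E : Type w} [AddCommGroup E] [Module K E] {S : Type} [Fintype S] [DecidableEq S]
  {G : Type x} [Group G] {T : Type y} [AddCommGroup T] [Module K T]
  {i : T →ₗ[K] V} {p : V →ₗ[K] T} {B : T →ₗ[K] T →ₗ[K] K} {ρV : G →* (V →ₗ[K] V)}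
  {ρ : G →* (T →ₗ[K] T)} {σ : G →* (E →ₗ[K] E)} {μ : G → K}
  {C : Type} [Fintype C] [DecidableEq C] {n : ℕ} {t : Module.Basis (Fin n) K T}
  {f : Module.Basis (C ⊕ Fin n) K V} {e : Fin n → ℤ} {ε : ℤ}

/-- equivariance up to a factor of contractions with insertion of a form -/
theorem gact_Kop (hμ : ∀ g, μ g ≠ 0) (hi : ∀ g t, i (ρ g t) = ρV g (i t))
    (hB : ∀ g x y, B (ρ g x) (ρ g y) = μ g * B x y)
    (he : ∀ a, e a * e a = 1) (hrev : ∀ a, e a.rev = ε * e a) (hε : ε * ε = 1)
    (hgram : ∀ a b, B (t a) (t b) = if b = a.rev then (e a : K) else 0)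
    (hsy : ∀ x y, B x y = (ε : K) * B y x) (hft : ∀ a, f (Sum.inr a) = i (t a))
    {θ : V →ₗ[K] V →ₗ[K] K} {s s' : S} (hss : s ≠ s') {g : G} {ν : K}
    (hθ : ∀ y z, θ (ρV g⁻¹ y) (ρV g⁻¹ z) = (ν * μ g⁻¹) * θ y z)
    (h : MultilinearMap K (fun _ : S => V) E) :
    gact S ρV σ g (Kop e (fun a => f (Sum.inr a)) θ s s' hss h) =
      ν • Kop e (fun a => f (Sum.inr a)) θ s s' hss (gact S ρV σ g h) := by
  have h1 := act_Kop (e := e) (x := fun a => f (Sum.inr a)) (θ := θ) hss (a := ρV g⁻¹)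
    (b := σ g) (μ := μ g⁻¹) (ν := ν * μ g⁻¹) hθ (fun m => by
      have h2 := casimir (g := ρ g⁻¹) (gi := ρ g) he hrev hε hgram hsy (hB g⁻¹) (fun x => by
        have := rho_inv ρ g⁻¹ x
        rwa [inv_inv] at this) (m.compl₁₂ i i)
      simp only [LinearMap.compl₁₂_apply, hi] at h2
      simp only [hft]
      exact h2) h
  have h2 : μ g⁻¹ • gact S ρV σ g (Kop e (fun a => f (Sum.inr a)) θ s s' hss h) =
      μ g⁻¹ • (ν • Kop e (fun a => f (Sum.inr a)) θ s s' hss (gact S ρV σ g h)) := by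
    rw [smul_smul, mul_comm (μ g⁻¹)]
    exact h1
  exact smul_right_injective _ (hμ g⁻¹) h2

/-- the form on the whole space -/
noncomputable def thB (p : V →ₗ[K] T) (B : T →ₗ[K] T →ₗ[K] K) : V →ₗ[K] V →ₗ[K] K :=
  B.compl₁₂ p p

/-- contraction with insertion of the form, all pairs of positions -/
noncomputable def Kall (e : Fin n → ℤ) (f : C ⊕ Fin n → V) (θ : V →ₗ[K] V →ₗ[K] K) :
    Module.End K (MultilinearMap K (fun _ : S => V) E) :=
  ∑ q : S × S, if h : q.1 ≠ q.2 then Kop e (fun a => f (Sum.inr a)) θ q.1 q.2 h else 0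

theorem Kall_apply (e : Fin n → ℤ) (f : C ⊕ Fin n → V) (θ : V →ₗ[K] V →ₗ[K] K)
    (h : MultilinearMap K (fun _ : S => V) E) : Kall e f θ h =
      ∑ q : S × S, if hq : q.1 ≠ q.2 then Kop e (fun a => f (Sum.inr a)) θ q.1 q.2 hq h
        else 0 := by
  rw [Kall, LinearMap.sum_apply]
  refine Finset.sum_congr rfl fun q _ => ?_
  split_ifs <;> rfl

theorem thB_f (hpi : ∀ t, p (i t) = t) (hft : ∀ a, f (Sum.inr a) = i (t a))
    (hfc : ∀ c, p (f (Sum.inl c)) = 0)
    (hgram : ∀ a b, B (t a) (t b) = if b = a.rev then (e a : K) else 0) (j j' : C ⊕ Fin n) :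
    thB p B (f j) (f j') = ((bt e j j' : ℤ) : K) := by
  rw [thB, LinearMap.compl₁₂_apply]
  rcases j with c | a <;> rcases j' with c' | b
  · rw [hfc, map_zero, LinearMap.zero_apply, bt, Int.cast_zero]
    intro a b h
    cases h
  · rw [hfc, map_zero, LinearMap.zero_apply, bt, Int.cast_zero]
    intro a b h
    cases h
  · rw [hfc, map_zero, bt, Int.cast_zero]
    intro a b h h'
    cases h'
  · rw [hft, hft, hpi, hpi, hgram, bt]
    split_ifs
    · rfl
    · rw [Int.cast_zero]

theorem co_Kall (hpi : ∀ t, p (i t) = t) (hft : ∀ a, f (Sum.inr a) = i (t a))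
    (hfc : ∀ c, p (f (Sum.inl c)) = 0)
    (hgram : ∀ a b, B (t a) (t b) = if b = a.rev then (e a : K) else 0)
    (h : MultilinearMap K (fun _ : S => V) E) :
    co f (Kall e f (thB p B) h) = Ko e (co f h) := by
  funext r
  rw [Kall_apply, co, _root_.sum_apply, Ko]
  refine Finset.sum_congr rfl fun q _ => ?_
  by_cases hq : q.1 ≠ q.2
  · rw [dif_pos hq, if_pos hq]
    have h1 := co_Kop (e := e) (f := f) (θ := thB p B) hq h r
    rw [co] at h1
    rw [h1, thB_f hpi hft hfc hgram, Int.cast_smul_eq_zsmul]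
  · rw [dif_neg hq, if_neg hq]
    rfl

theorem gact_Kall (hμ : ∀ g, μ g ≠ 0) (hi : ∀ g t, i (ρ g t) = ρV g (i t))
    (hp : ∀ g v, p (ρV g v) = ρ g (p v))
    (hB : ∀ g x y, B (ρ g x) (ρ g y) = μ g * B x y)
    (he : ∀ a, e a * e a = 1) (hrev : ∀ a, e a.rev = ε * e a) (hε : ε * ε = 1)
    (hgram : ∀ a b, B (t a) (t b) = if b = a.rev then (e a : K) else 0)
    (hsy : ∀ x y, B x y = (ε : K) * B y x) (hft : ∀ a, f (Sum.inr a) = i (t a)) (g : G)
    (h : MultilinearMap K (fun _ : S => V) E) :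
    gact S ρV σ g (Kall e f (thB p B) h) = Kall e f (thB p B) (gact S ρV σ g h) := by
  rw [Kall_apply, Kall_apply, map_sum]
  refine Finset.sum_congr rfl fun q _ => ?_
  by_cases hq : q.1 ≠ q.2
  · rw [dif_pos hq, dif_pos hq]
    have h1 := gact_Kop (σ := σ) (θ := thB p B) hμ hi hB he hrev hε hgram hsy hft hq (g := g)
      (ν := 1) (fun y z => by
        rw [thB, LinearMap.compl₁₂_apply, LinearMap.compl₁₂_apply, hp, hp, hB, one_mul]) h
    rw [h1, one_smul]
  · rw [dif_neg hq, dif_neg hq, map_zero]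

theorem co_inj {h h' : MultilinearMap K (fun _ : S => V) E} (hh : co f h = co f h') : h = h' :=
  Module.Basis.ext_multilinear (fun _ => f) fun r => congrFun hh r

/-- all values are combinations of the coordinates -/
theorem val_mem {P : Submodule K E} {h : MultilinearMap K (fun _ : S => V) E}
    (hh : ∀ r, co f h r ∈ P) (v : S → V) : h v ∈ P := by
  have h1 : P.mkQ.compMultilinearMap h = 0 := by
    refine Module.Basis.ext_multilinear (fun _ => f) fun r => ?_
    exact (Submodule.Quotient.mk_eq_zero P).2 (hh r)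
  have h2 : P.mkQ (h v) = 0 := DFunLike.congr_fun h1 v
  exact (Submodule.Quotient.mk_eq_zero P).1 h2

end ops

end Pool.Agent.W5h58.NF
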