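import Pool.Agent.W5h58.NF.Ind

/-!
# The induction on the number of transcendental positions: the theorem
-/

set_option autoImplicit false
set_option linter.unusedSectionVars false

open Finset Function

namespace Pool.Agent.W5h58.NF

open Pool.Agent.TH125.Gal

universe u v w x y

variable {K : Type u} [Field K] [IsAlgClosed K] [CharZero K] {V : Type v} [AddCommGroup V]
  [Module K V] [Module.Finite K V] {E : Type w} [AddCommGroup E] [Module K E] [Module.Finite K E]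
  {G : Type x} [Group G] {T : Type y} [AddCommGroup T] [Module K T] {C : Type} [Fintype C]
  [DecidableEq C] {n : ℕ} {dt : Dat K V E G T C n} {N : ℕ}

/-- good spaces of maps -/
def Good (dt : Dat K V E G T C n) (Δ : Subgroup G) (γ : G) (q : K) (D : ℕ) (x : ℤ)
    (τ : Fin N → Option C) (U : Submodule K (MultilinearMap K (fun _ : Fin N => V) E)) : Prop :=
  Stb dt.ρV dt.σ Δ U ∧ U ≤ GP (gact (Fin N) dt.ρV dt.σ γ) (Dvd K q D x) ∧ U ≤ Ty K E dt.f τ

theorem good_sSup {Δ : Subgroup G} {γ : G} {q : K} {D : ℕ} {x : ℤ} {τ : Fin N → Option C} :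
    Good dt Δ γ q D x τ (sSup {U | Good dt Δ γ q D x τ U}) :=
  ⟨stb_sSup fun _ h => h.1, sSup_le fun _ h => h.2.1, sSup_le fun _ h => h.2.2⟩

theorem le_good {Δ : Subgroup G} {γ : G} {q : K} {D : ℕ} {x : ℤ} {τ : Fin N → Option C}
    {U : Submodule K (MultilinearMap K (fun _ : Fin N => V) E)} (h : Good dt Δ γ q D x τ U) :
    U ≤ sSup {U | Good dt Δ γ q D x τ U} := le_sSup (Set.mem_setOf_eq ▸ h)

theorem kb_gact {s s' : Fin N} (hss : s ≠ s') (g : G)
    (h : MultilinearMap K (fun _ : Fin N => V) E) :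
    gact (Fin N) dt.ρV dt.σ g (dt.kb hss h) = dt.kb hss (gact (Fin N) dt.ρV dt.σ g h) := by
  have h1 := gact_Kop (σ := dt.σ) (θ := thB dt.p dt.B) dt.hμ dt.hi dt.hB dt.he dt.hrev dt.hε
    dt.hgram dt.hsy dt.hft hss (g := g) (ν := 1) (fun y z => by
      rw [thB, LinearMap.compl₁₂_apply, LinearMap.compl₁₂_apply, dt.hp, dt.hp, dt.hB, one_mul]) h
  rw [one_smul] at h1
  exact h1

theorem mu_inv (hμ1 : ∀ g, dt.μ g⁻¹ = (dt.μ g)⁻¹) {c1 : C} {g : G}
    (hφ : ∀ v, dt.f.coord (Sum.inl c1) (dt.ρV g⁻¹ v) =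
      dt.μ g⁻¹ * dt.f.coord (Sum.inl c1) v) {s s' : Fin N} (hss : s ≠ s')
    (h : MultilinearMap K (fun _ : Fin N => V) E) :
    gact (Fin N) dt.ρV dt.σ g (dt.k1 c1 hss h) =
      (dt.μ g)⁻¹ • dt.k1 c1 hss (gact (Fin N) dt.ρV dt.σ g h) := by
  refine gact_Kop (σ := dt.σ) dt.hμ dt.hi dt.hB dt.he dt.hrev dt.hε
    dt.hgram dt.hsy dt.hft hss (g := g) (ν := (dt.μ g)⁻¹) (fun y z => ?_) h
  rw [LinearMap.BilinForm.linMulLin_apply, LinearMap.BilinForm.linMulLin_apply, hφ, hφ, hμ1]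
  ring

theorem kb_good {Δ : Subgroup G} {γ : G} {q : K} {D : ℕ} {x : ℤ} {τ : Fin N → Option C}
    {U : Submodule K (MultilinearMap K (fun _ : Fin N => V) E)} (hU : Good dt Δ γ q D x τ U)
    {s s' : Fin N} (hss : s ≠ s') : Good dt Δ γ q D x τ (U.map (dt.kb hss)) := by
  refine ⟨stb_map (ν := fun _ => 1) hU.1 fun g _ h => ?_, ?_, ?_⟩
  · rw [kb_gact, one_smul]
  · rintro _ ⟨h, hh, rfl⟩
    refine GP_map (φ := dt.kb hss) (c := 1) (fun v => ?_) (P := Dvd K q D x)
      (P' := Dvd K q D x) (fun β hβ => ?_) (hU.2.1 hh)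
    · rw [kb_gact, one_smul]
    · rwa [one_mul]
  · rintro _ ⟨h, hh, rfl⟩
    exact kb_ty hss (hU.2.2 hh)

theorem k1_good {Δ : Subgroup G} {γ : G} (hγ : γ ∈ Δ) {q : K} (hq : q ≠ 0) {D d : ℕ} {x : ℤ}
    {τ : Fin N → Option C} {c1 : C} (hμ1 : ∀ g, dt.μ g⁻¹ = (dt.μ g)⁻¹)
    (hμγ : dt.μ γ = q ^ d) (hφ : ∀ g ∈ Δ, ∀ v, dt.f.coord (Sum.inl c1) (dt.ρV g v) =
      dt.μ g * dt.f.coord (Sum.inl c1) v)
    {U : Submodule K (MultilinearMap K (fun _ : Fin N => V) E)} (hU : Good dt Δ γ q D x τ U)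
    {s s' : Fin N} (hss : s ≠ s') :
    Good dt Δ γ q D (x - D * d) (ty1 c1 s s' τ) (U.map (dt.k1 c1 hss)) := by
  refine ⟨stb_map (ν := fun g => (dt.μ g)⁻¹) hU.1 fun g hg h => ?_, ?_, ?_⟩
  · exact mu_inv hμ1 (hφ _ (Δ.inv_mem hg)) hss h
  · rintro _ ⟨h, hh, rfl⟩
    refine GP_map (φ := dt.k1 c1 hss) (c := (dt.μ γ)⁻¹) (fun v => ?_) (P := Dvd K q D x)
      (P' := Dvd K q D (x - D * d)) (fun β hβ => ?_) (hU.2.1 hh)
    · exact mu_inv hμ1 (hφ _ (Δ.inv_mem hγ)) hss v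
    · unfold Dvd at hβ ⊢
      have h1 : ((dt.μ γ)⁻¹ * β) ^ D / q ^ (x - D * d) = β ^ D / q ^ x := by
        rw [hμγ, mul_pow, zpow_sub₀ hq,
          show ((D : ℤ) * (d : ℤ)) = ((d * D : ℕ) : ℤ) by push_cast; ring, zpow_natCast, inv_pow,
          ← pow_mul]
        have h2 : q ^ x ≠ 0 := zpow_ne_zero _ hq
        have h3 : q ^ (d * D) ≠ 0 := pow_ne_zero _ hq
        field_simp
      rw [h1]
      exact hβ
  · rintro _ ⟨h, hh, rfl⟩
    exact k1_ty hss (hU.2.2 hh)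

/-- **The theorem on spaces of multilinear maps.** -/
theorem Dat.core (dt : Dat K V E G T C n) {Δ : Subgroup G} (hΔ : Δ.FiniteIndex) {γ : G}
    (hγ : γ ∈ Δ) {q : K} (hq : q ≠ 0) (hqi : IsIntegral ℤ q) {D w d M c : ℕ} {cod : C → ℕ} {c1 : C}
    (hμ1 : ∀ g, dt.μ g⁻¹ = (dt.μ g)⁻¹) (hμγ : dt.μ γ = q ^ d)
    (hφ : ∀ g ∈ Δ, ∀ v, dt.f.coord (Sum.inl c1) (dt.ρV g v) =
      dt.μ g * dt.f.coord (Sum.inl c1) v)
    (hops : ∀ u v : T, rk dt.B v u - (dt.ε : K) • rk dt.B u v ∈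
      LS (Fin N) dt.i dt.p dt.B dt.ρV dt.σ)
    (hroom : Room dt.ε (Fin N) n) {α : C ⊕ Fin n → K}
    (hα : ∀ j, dt.f j ∈ Module.End.maxGenEigenspace (dt.ρV γ) (α j))
    (hαC : ∀ c, α (Sum.inl c) * q ^ cod c = q ^ d)
    (hαT : ∀ a, α (Sum.inr a) * α (Sum.inr a.rev) = q ^ d)
    (hint : ∀ a, IsIntegral ℤ (α (Sum.inr a) / q ^ c))
    (hsl : SlLetters n N dt.ε q D w c fun a => α (Sum.inr a))
    {F : ℕ → Submodule K (MultilinearMap K (fun _ : Fin N => V) E)} (hFa : Antitone F)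
    {NZ : ℕ → Submodule K E} (hNZ0 : ∀ z, z ∈ NZ 0)
    (hF1 : ∀ (τ : Fin N → Option C) (h : MultilinearMap K (fun _ : Fin N => V) E) (r : ℕ),
      h ∈ Ty K E dt.f τ → (∀ u, co dt.f h u ∈ NZ r) → h ∈ F (csum c cod τ + r))
    (hF2 : ∀ (τ : Fin N → Option C) (h : MultilinearMap K (fun _ : Fin N => V) E) (r : ℕ)
      (s s' : Fin N) (hss : s ≠ s'), h ∈ Ty K E dt.f τ → τ s = none → τ s' = none →
        dt.k1 c1 hss h ∈ F r → dt.kb hss h ∈ F (d + r))
    (hF0 : ∀ h, h ∈ F 0)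
    (hGTC : ∀ Cv : Submodule K E, (∀ g ∈ Δ, ∀ z ∈ Cv, dt.σ g z ∈ Cv) → ∀ y : ℤ,
      Cv ≤ GP (dt.σ γ) (fun β => Dvd K q D y (β / q ^ (d * N))) → ∀ r : ℕ,
        (M : ℤ) < y - D * r + D → Cv ≤ NZ r) (m : ℕ) :
    ∀ τ : Fin N → Option C, (univ.filter fun j => τ j = none).card = m →
      ∀ (x : ℤ) (U : Submodule K (MultilinearMap K (fun _ : Fin N => V) E)),
        Good dt Δ γ q D x τ U → ∀ r : ℕ, (M + w : ℤ) < x - D * r + D → U ≤ F r := by
  induction m using Nat.strong_induction_on with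
  | _ m ih =>
    intro τ hτ x U0 hU0 r hr
    set U := sSup {U | Good dt Δ γ q D x τ U} with hUdef
    have hU : Good dt Δ γ q D x τ U := good_sSup
    refine (le_good hU0).trans ?_
    change U ≤ F r
    -- stability under the operators
    have hkbU : ∀ (s s' : Fin N) (hss : s ≠ s'), ∀ h ∈ U, dt.kb hss h ∈ U := by
      intro s s' hss h hh
      exact (le_good (kb_good hU hss)) ⟨h, hh, rfl⟩
    set k := Kall (S := Fin N) (E := E) dt.e dt.f (thB dt.p dt.B) with hk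
    have hkall : ∀ h, k h = ∑ q : Fin N × Fin N, if hq : q.1 ≠ q.2 then dt.kb hq h else 0 :=
      fun h => Kall_apply _ _ _ _
    have hkU : ∀ h ∈ U, k h ∈ U := by
      intro h hh
      rw [hkall]
      refine Submodule.sum_mem _ fun q _ => ?_
      split_ifs with hq
      · exact hkbU _ _ hq h hh
      · exact U.zero_mem
    have hcok : ∀ h, co dt.f (k h) = Ko dt.e (co dt.f h) :=
      fun h => co_Kall dt.hpi dt.hft dt.hfc dt.hgram h
    have hco0 : co dt.f (0 : MultilinearMap K (fun _ : Fin N => V) E) = 0 := rfl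
    have hpos : ∀ h ∈ U, k (k h) = 0 → k h = 0 := by
      intro h _ h2
      refine co_inj (f := dt.f) ?_
      have h3 := congrArg (co dt.f) h2
      rw [hcok, hcok, hco0] at h3
      rw [hcok, hco0]
      exact Ko_sq (K := K) dt.e (Sum.inl c1) h3
    -- the traceless part
    have hzero : ∀ h ∈ U, k h = 0 → h ∈ F r := by
      set Uk := U ⊓ LinearMap.ker k with hUk
      have hst : Stb dt.ρV dt.σ Δ Uk := by
        rintro g hg h ⟨hh, hh'⟩
        refine ⟨hU.1 g hg h hh, ?_⟩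
        rw [SetLike.mem_coe, LinearMap.mem_ker] at hh' ⊢
        have h1 := gact_Kall (S := Fin N) (σ := dt.σ) dt.hμ dt.hi dt.hp dt.hB dt.he dt.hrev dt.hε
          dt.hgram dt.hsy dt.hft g h
        rw [← hk] at h1
        rw [← h1, hh', map_zero]
      have hUkU : Uk ≤ U := inf_le_left
      set Cv := Submodule.span K {z | ∃ h ∈ Uk, ∃ u, z = co dt.f h u} with hCv
      have hval : ∀ h ∈ Uk, ∀ v, h v ∈ Cv := fun h hh v =>
        val_mem (f := dt.f) (P := Cv) (fun u => Submodule.subset_span ⟨h, hh, u, rfl⟩) v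
      have hστ : ∀ g ∈ Δ, ∀ h ∈ Uk, ∀ u, dt.σ g (co dt.f h u) ∈ Cv := by
        intro g hg h hh u
        have h1 := hval _ (hst g hg h hh) (fun j => dt.ρV g (dt.f (u j)))
        rw [gact_apply] at h1
        have h2 : (fun j => dt.ρV g⁻¹ (dt.ρV g (dt.f (u j)))) = fun j => dt.f (u j) := by
          funext j
          rw [← Module.End.mul_apply, ← map_mul, inv_mul_cancel, map_one]
          rfl
        rw [h2] at h1
        exact h1
      have hCst : ∀ g ∈ Δ, ∀ z ∈ Cv, dt.σ g z ∈ Cv := by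
        intro g hg z hz
        induction hz using Submodule.span_induction with
        | mem z hz =>
          obtain ⟨h, hh, u, rfl⟩ := hz
          exact hστ g hg h hh u
        | zero => rw [map_zero]; exact Cv.zero_mem
        | add x y _ _ hx hy => rw [map_add]; exact Cv.add_mem hx hy
        | smul a x _ hx => rw [map_smul]; exact Cv.smul_mem a hx
      have hvals := values (Φ := gact (Fin N) dt.ρV dt.σ γ) (ρ := dt.ρV γ) (σ := dt.σ γ)
        (fun h v => by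
          rw [gact_apply]
          congr 2
          funext j
          rw [← Module.End.mul_apply, ← map_mul, inv_mul_cancel, map_one]
          rfl) dt.f hα dt.he dt.hrev hroom (U := Uk) (hst γ hγ) (q := q) (D := D) (x := x)
        (y := x - D * csum c cod τ - w) (κ := q ^ (d * N)) (hUkU.trans hU.2.1) (τ := τ)
        (fun h hh => hU.2.2 (hUkU hh))
        (fun h hh => Ko_ker (K := K) dt.e (Sum.inl c1) (by
          rw [← hcok, (LinearMap.mem_ker.1 hh.2), hco0]))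
        (fun a b h hh => exists_Xo (t := dt.t) dt.hft dt.hpi dt.hfc dt.he dt.hrev dt.hgram hΔ hst
          hops a b hh)
        (hστ γ hγ) (slopes hq hqi hαC hαT hint hsl x τ)
      intro h hh hkh
      have hhk : h ∈ Uk := ⟨hh, hkh⟩
      by_cases hrτ : csum c cod τ ≤ r
      · obtain ⟨r', rfl⟩ := Nat.exists_eq_add_of_le hrτ
        refine hF1 τ h r' (hU.2.2 hh) fun u => ?_
        refine hGTC Cv hCst _ hvals r' ?_ (Submodule.subset_span ⟨h, hhk, u, rfl⟩)
        push_cast at hr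
        linarith
      · refine hFa (show r ≤ csum c cod τ + 0 by omega) ?_
        exact hF1 τ h 0 (hU.2.2 hh) fun u => hNZ0 _
    -- the image
    have himg : ∀ h ∈ U, k h ∈ F r := by
      intro h hh
      rw [hkall]
      refine Submodule.sum_mem _ fun q _ => ?_
      split_ifs with hss
      · by_cases hn : τ q.1 = none ∧ τ q.2 = none
        · have hg1 := k1_good (D := D) (d := d) hγ hq hμ1 hμγ hφ hU hss
          by_cases hrd : d ≤ r
          · obtain ⟨r', rfl⟩ := Nat.exists_eq_add_of_le hrd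
            refine hF2 τ h r' _ _ hss (hU.2.2 hh) hn.1 hn.2 ?_
            refine ih _ ?_ _ rfl _ _ hg1 r' ?_ ⟨h, hh, rfl⟩
            · rw [← hτ]
              exact card_ty1 hn.1
            · push_cast at hr ⊢
              linarith
          · refine hFa (show r ≤ d + 0 by omega) ?_
            exact hF2 τ h 0 _ _ hss (hU.2.2 hh) hn.1 hn.2 (hF0 _)
        · have h1 : dt.kb hss h = 0 := k_zero hss (hU.2.2 hh) hn
          rw [h1]
          exact Submodule.zero_mem _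
      · exact Submodule.zero_mem _
    intro h hh
    obtain ⟨h0, hh0, h1, hh1, hk0, rfl⟩ := ker_range k hkU hpos hh
    exact Submodule.add_mem _ (hzero h0 hh0 hk0) (himg h1 hh1)

end Pool.Agent.W5h58.NF
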