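import Pool.Agent.W5h58.NF.NGeo
import Pool.Agent.W5h58.NF.CoreT

/-!
# The classes given by multilinear maps
-/

set_option autoImplicit false
set_option linter.unusedSectionVars false

open CategoryTheory AlgebraicGeometry Finset Function

universe u v w

namespace Pool.Agent.W5h58.NF

open Pool.Agent.H914 Pool.Agent.H914.VarClass Pool.Agent.H914.VarClass.Obj
  Pool.Agent.H914.WeilCohomology Pool.Agent.H281R3.HT Pool.Agent.W552 Pool.Agent.TH125.Gal

variable {k : Type u} [Field k] {𝒱 : VarClass k} {ops : CycleOps 𝒱}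
  {W : WeilCohomology.{u, v} ops}

section sign

variable {X Y : 𝒱.Obj} {s : SB W X} {N : ℕ} {π : Fin N → (Y ⟶ X)}

theorem sign (hmid : transcendental W X ≤ W.gr X X.dim) {c1 : Fin s.NC}
    (hc1 : (s.bC c1 : W.H X) = 1) (τ : Fin N → Option (Fin s.NC)) {s1 s2 : Fin N}
    (hss : s1 ≠ s2) : ∃ ε : ℤ, ∀ u : Fin N → Fin s.NC ⊕ Fin s.NT,
      (∀ j, j ≠ s1 → j ≠ s2 → pt u j = τ j) → u s1 = Sum.inl c1 → u s2 = Sum.inl c1 →
      ∀ a a' : Fin s.NT,
        mono π (fun p => s.e (update (update u s1 (Sum.inr a)) s2 (Sum.inr a') p)) =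
          (ε : W.K) • (W.map (π s1) (s.bT a : W.H X) * W.map (π s2) (s.bT a' : W.H X) *
            mono π (fun p => s.e (u p))) := by
  classical
  set rest := (List.finRange N).filter fun p => p ≠ s1 ∧ p ≠ s2 with hrest
  have hmr : ∀ p, p ∈ rest ↔ p ≠ s1 ∧ p ≠ s2 := by
    intro p
    rw [hrest, List.mem_filter]
    simp
  have hnd : (s1 :: s2 :: rest).Nodup := by
    rw [List.nodup_cons, List.nodup_cons]
    refine ⟨?_, ?_, (List.nodup_finRange N).filter _⟩
    · rw [List.mem_cons, hmr]
      rintro (h | h)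
      · exact hss h
      · exact h.1 rfl
    · rw [hmr]
      intro h
      exact h.2 rfl
  have hperm : (s1 :: s2 :: rest).Perm (List.finRange N) := by
    refine (List.perm_ext_iff_of_nodup hnd (List.nodup_finRange N)).2 fun p => ?_
    rw [List.mem_cons, List.mem_cons, hmr]
    simp only [List.mem_finRange, iff_true]
    by_cases h1 : p = s1
    · exact Or.inl h1
    · by_cases h2 : p = s2
      · exact Or.inr (Or.inl h2)
      · exact Or.inr (Or.inr ⟨h1, h2⟩)
  set D0 : Fin N → ℕ := fun p => (τ p).elim X.dim fun i => 2 * s.jC i with hD0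
  obtain ⟨ε1, h1, h1'⟩ := perm_sign (K := W.K) (A := W.H Y)
    (fun p => if p = s1 ∨ p = s2 then X.dim else D0 p) hperm hnd
  obtain ⟨ε2, h2, h2'⟩ := perm_sign (K := W.K) (A := W.H Y)
    (fun p => if p = s1 ∨ p = s2 then 0 else D0 p) hperm hnd
  refine ⟨ε1 * ε2, fun u hu hu1 hu2 a a' => ?_⟩
  set u' := update (update u s1 (Sum.inr a)) s2 (Sum.inr a') with hu'
  have hdg : ∀ p, p ≠ s1 → p ≠ s2 → s.dg (u p) = D0 p := by
    intro p hp hp'
    rw [hD0]
    beta_reduce
    rw [← hu p hp hp', SB.dg, pt]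
    rcases u p with c | a
    · rfl
    · rfl
  have hu1' : u' s1 = Sum.inr a := by rw [hu', update_of_ne hss, update_self]
  have hu2' : u' s2 = Sum.inr a' := by rw [hu', update_self]
  have huo : ∀ p, p ≠ s1 → p ≠ s2 → u' p = u p := by
    intro p hp hp'
    rw [hu', update_of_ne hp', update_of_ne hp]
  have e1 : mono π (fun p => s.e (u' p)) =
      (ε1 : W.K) • (((s1 :: s2 :: rest).map fun p => W.map (π p) (s.e (u' p))).prod) := by
    rw [mono, List.ofFn_eq_map]
    refine h1' (fun p => W.map (π p) (s.e (u' p))) fun p q _ => ?_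
    have h3 : ∀ p, s.dg (u' p) = if p = s1 ∨ p = s2 then X.dim else D0 p := by
      intro p
      by_cases hp : p = s1
      · subst hp
        rw [if_pos (Or.inl rfl), hu1']
        rfl
      · by_cases hp' : p = s2
        · subst hp'
          rw [if_pos (Or.inr rfl), hu2']
          rfl
        · rw [if_neg (by tauto), huo p hp hp', hdg p hp hp']
    beta_reduce
    rw [← h3, ← h3]
    exact W.comm (W.map_mem _ (s.e_gr hmid _)) (W.map_mem _ (s.e_gr hmid _))
  have e2 : mono π (fun p => s.e (u p)) =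
      (ε2 : W.K) • (((s1 :: s2 :: rest).map fun p => W.map (π p) (s.e (u p))).prod) := by
    rw [mono, List.ofFn_eq_map]
    refine h2' (fun p => W.map (π p) (s.e (u p))) fun p q _ => ?_
    have h3 : ∀ p, W.map (π p) (s.e (u p)) ∈
        W.gr Y (if p = s1 ∨ p = s2 then 0 else D0 p) := by
      intro p
      by_cases hp : p = s1
      · subst hp
        rw [if_pos (Or.inl rfl), hu1, s.e_inl, hc1]
        exact W.map_mem _ (W.one_mem X)
      · by_cases hp' : p = s2
        · subst hp'
          rw [if_pos (Or.inr rfl), hu2, s.e_inl, hc1]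
          exact W.map_mem _ (W.one_mem X)
        · rw [if_neg (by tauto), ← hdg p hp hp']
          exact W.map_mem _ (s.e_gr hmid _)
    exact W.comm (h3 p) (h3 q)
  have e3 : (rest.map fun p => W.map (π p) (s.e (u' p))) =
      rest.map fun p => W.map (π p) (s.e (u p)) := by
    refine List.map_congr_left fun p hp => ?_
    rw [huo p ((hmr p).1 hp).1 ((hmr p).1 hp).2]
  have h4 : (ε2 : W.K) * ε2 = 1 := by exact_mod_cast h2
  rw [e1, e2]
  simp only [List.map_cons, List.prod_cons]
  rw [e3, hu1', hu2', hu1, hu2, s.e_inl, s.e_inr, s.e_inr, hc1, map_one, map_one, one_mul, one_mul,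
    mul_smul_comm, smul_smul, mul_assoc]
  congr 1
  push_cast
  linear_combination -(ε1 : W.K) * h4

end sign

section cls

variable {P : Polarized 𝒱} {n : ℕ} {Z : 𝒱.Obj} {s : SB W P.X}
  {b : Module.Basis (Fin (n + 1) → Fin s.NC ⊕ Fin s.NT) W.K (W.H (nest ops n fun _ => P).X)}

/-- the class of a multilinear map -/
noncomputable def clsL (Z : 𝒱.Obj)
    (b : Module.Basis (Fin (n + 1) → Fin s.NC ⊕ Fin s.NT) W.K (W.H (nest ops n fun _ => P).X)) :
    MultilinearMap W.K (fun _ : Fin (n + 1) => W.H P.X) (W.H Z) →ₗ[W.K]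
      W.H ((nest ops n fun _ => P).X.prod Z) where
  toFun h := ∑ u, W.map (fst _ Z) (b u) * W.map (snd _ Z) (co s.es h u)
  map_add' h h' := by
    rw [← Finset.sum_add_distrib]
    refine Finset.sum_congr rfl fun u _ => ?_
    rw [← mul_add, ← map_add]
    rfl
  map_smul' x h := by
    rw [RingHom.id_apply, Finset.smul_sum]
    refine Finset.sum_congr rfl fun u _ => ?_
    rw [← mul_smul_comm, ← map_smul]
    rfl

theorem clsL_apply (h : MultilinearMap W.K (fun _ : Fin (n + 1) => W.H P.X) (W.H Z)) :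
    clsL Z b h = ∑ u, W.map (fst _ Z) (b u) * W.map (snd _ Z) (co s.es h u) := rfl

variable (hb : ∀ r, b r = mono (prj ops n fun _ => P) fun p => s.e (r p))

include hb in
theorem cls_hml (c : W.H ((nest ops n fun _ => P).X.prod Z)) : clsL Z b (hml s.e b c) = c := by
  conv_rhs => rw [expand b c]
  rw [clsL_apply]
  refine Finset.sum_congr rfl fun u _ => ?_
  rw [coord_eq hb]
  rfl

include hb in
theorem cls_mem {τ : Fin (n + 1) → Option (Fin s.NC)}
    {h : MultilinearMap W.K (fun _ : Fin (n + 1) => W.H P.X) (W.H Z)} {r : ℕ}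
    {c : ℕ} (hT : transcendental W P.X ≤ coniveau W P.X c)
    (hh : h ∈ Ty W.K (W.H Z) s.es τ) (hc : ∀ u, co s.es h u ∈ coniveau W Z r) :
    clsL Z b h ∈ coniveau W ((nest ops n fun _ => P).X.prod Z) (csum c s.jC τ + r) := by
  rw [clsL_apply]
  refine Submodule.sum_mem _ fun u _ => ?_
  by_cases hu : co s.es h u = 0
  · rw [hu, map_zero, mul_zero]
    exact Submodule.zero_mem _
  · have h1 := hh u hu
    refine con_mul (con_map _ ?_) (con_map _ (hc u))
    rw [hb]
    refine con_mono _ _ _ fun p => ?_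
    rw [← h1, pt]
    rcases u p with c' | a
    · rw [s.e_inl]
      exact con_alg (Submodule.subset_span (s.alg c'))
    · rw [s.e_inr]
      exact hT (s.bT a).2

variable {Γ : Type w} [Group Γ]
  {dt : Dat W.K (W.H P.X) (W.H Z) Γ (transcendental W P.X) (Fin s.NC) s.NT}

include hb in
theorem cls_kb (hmid : transcendental W P.X ≤ W.gr P.X P.X.dim) (hf : ⇑dt.f = s.es)
    (hgram : ∀ a b, bil W P.X (s.uT a) (s.uT b) = if b = a.rev then (dt.e a : W.K) else 0)
    {c1 : Fin s.NC} (hc1 : (s.bC c1 : W.H P.X) = 1) (τ : Fin (n + 1) → Option (Fin s.NC))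
    {s1 s2 : Fin (n + 1)} (hss : s1 ≠ s2) (hτ1 : τ s1 = none) (hτ2 : τ s2 = none) :
    ∃ ε : ℤ, ∀ h ∈ Ty W.K (W.H Z) s.es τ,
      clsL Z b (dt.kb hss h) = (ε : W.K) • (W.map (fst _ Z)
        (W.map (Obj.lift (prj ops n (fun _ => P) s1) (prj ops n (fun _ => P) s2)) (dQ s)) *
          clsL Z b (dt.k1 c1 hss h)) := by
  classical
  obtain ⟨ε, hε⟩ := sign (s := s) (π := prj ops n fun _ => P) hmid hc1 τ hss
  refine ⟨ε, fun h hh => ?_⟩
  set j0 : Fin s.NC ⊕ Fin s.NT := Sum.inl c1 with hj0
  have hk1 : ∀ u, co s.es (dt.k1 c1 hss h) u =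
      if u s1 = j0 ∧ u s2 = j0 then tro dt.e s1 s2 (co s.es h) u else 0 := by
    intro u
    rw [← hf, Dat.k1, co_Kop hss, LinearMap.BilinForm.linMulLin_apply]
    simp only [Module.Basis.coord_apply, Module.Basis.repr_self, Finsupp.single_apply]
    by_cases h1 : u s1 = j0
    · by_cases h2 : u s2 = j0
      · rw [if_pos h1, if_pos h2, if_pos ⟨h1, h2⟩, one_mul, one_smul]
      · rw [if_neg h2, mul_zero, zero_smul, if_neg (fun h => h2 h.2)]
    · rw [if_neg h1, zero_mul, zero_smul, if_neg (fun h => h1 h.1)]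
  have hkb : ∀ u, co s.es (dt.kb hss h) u =
      bt dt.e (u s1) (u s2) • tro dt.e s1 s2 (co s.es h) u := by
    intro u
    rw [← hf, Dat.kb, co_Kop hss, thB_f dt.hpi dt.hft dt.hfc dt.hgram, Int.cast_smul_eq_zsmul]
  -- the pull-back of the class of the diagonal
  have hdQ : W.map (Obj.lift (prj ops n (fun _ => P) s1) (prj ops n (fun _ => P) s2)) (dQ s) =
      ∑ a, dt.e a • (W.map (prj ops n (fun _ => P) s1) (s.bT a : W.H P.X) *
        W.map (prj ops n (fun _ => P) s2) (s.bT a.rev : W.H P.X)) := by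
    rw [dQ, map_sum]
    have h2 := Fintype.sum_equiv (finTwoArrowEquiv (Fin s.NT))
      (fun a : Fin 2 → Fin s.NT => W.map (Obj.lift (prj ops n (fun _ => P) s1)
        (prj ops n (fun _ => P) s2)) (bil W P.X (s.uT (a 0)) (s.uT (a 1)) •
        (W.map (fst P.X P.X) (s.bT (a 0) : W.H P.X) * W.map (snd P.X P.X)
          (s.bT (a 1) : W.H P.X))))
      (fun a => W.map (Obj.lift (prj ops n (fun _ => P) s1)
        (prj ops n (fun _ => P) s2)) (bil W P.X (s.uT a.1) (s.uT a.2) •
        (W.map (fst P.X P.X) (s.bT a.1 : W.H P.X) * W.map (snd P.X P.X)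
          (s.bT a.2 : W.H P.X)))) (fun a => rfl)
    rw [h2, Fintype.sum_prod_type]
    refine Finset.sum_congr rfl fun a _ => ?_
    rw [Finset.sum_eq_single a.rev]
    · rw [hgram, if_pos rfl, map_smul, map_mul, ← W.map_comp, ← W.map_comp, Obj.lift_fst,
        Obj.lift_snd, Int.cast_smul_eq_zsmul]
    · intro a' _ ha'
      beta_reduce
      rw [hgram, if_neg ha', zero_smul, map_zero]
    · intro h
      exact absurd (Finset.mem_univ _) h
  rw [clsL_apply, clsL_apply, Finset.mul_sum, Finset.smul_sum, sum_two hss j0]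
  refine Finset.sum_congr rfl fun u _ => ?_
  rw [hk1]
  by_cases hu : u s1 = j0 ∧ u s2 = j0
  · rw [if_pos hu, if_pos hu]
    by_cases ht : tro dt.e s1 s2 (co s.es h) u = 0
    · rw [ht, map_zero, mul_zero, mul_zero, smul_zero]
      refine Finset.sum_eq_zero fun j _ => Finset.sum_eq_zero fun j' _ => ?_
      rw [hkb, tro_update hss, ht, smul_zero, map_zero, mul_zero]
    · have hty : ∀ j, j ≠ s1 → j ≠ s2 → pt u j = τ j := by
        obtain ⟨a, -, ha⟩ := Finset.exists_ne_zero_of_sum_ne_zero ht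
        have h3 : co s.es h (update (update u s1 (Sum.inr a)) s2 (Sum.inr a.rev)) ≠ 0 := by
          intro h4
          rw [h4, smul_zero] at ha
          exact ha rfl
        have h4 := hh _ h3
        intro j hj hj'
        rw [← h4, pt, pt, update_of_ne hj', update_of_ne hj]
      have e1 : ∀ j j', W.map (fst _ Z) (b (update (update u s1 j) s2 j')) *
          W.map (snd _ Z) (co s.es (dt.kb hss h) (update (update u s1 j) s2 j')) =
          bt dt.e j j' • (W.map (fst _ Z) (b (update (update u s1 j) s2 j')) *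
            W.map (snd _ Z) (tro dt.e s1 s2 (co s.es h) u)) := by
        intro j j'
        rw [hkb, tro_update hss, update_self, update_of_ne hss, update_self, map_zsmul,
          mul_smul_comm]
      rw [Finset.sum_congr rfl fun j _ => Finset.sum_congr rfl fun j' _ => e1 j j', sum_bt, hdQ,
        map_sum, Finset.sum_mul, Finset.smul_sum]
      refine Finset.sum_congr rfl fun a _ => ?_
      rw [hb, hε u hty hu.1 hu.2, hb, map_smul, map_zsmul, map_mul, smul_mul_assoc,
        smul_mul_assoc, smul_comm, mul_assoc]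
  · rw [if_neg hu, if_neg hu, map_zero, mul_zero, mul_zero, smul_zero]

end cls

end Pool.Agent.W5h58.NF
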