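import Mathlib

/-!
# Traceless tensors: a highest weight vector has a coordinate without dual pairs of letters
-/

set_option autoImplicit false

open Finset Function

namespace Pool.Agent.W5h58.NF

section words

variable {C : Type} [DecidableEq C] {n : ℕ} {S : Type} [Fintype S] [DecidableEq S]
  {M : Type*} [AddCommGroup M]

/-- The operator which replaces a letter `b` by the letter `a`, on coordinates. -/
def Eo (a b : Fin n) (c : (S → C ⊕ Fin n) → M) (r : S → C ⊕ Fin n) : M :=
  ∑ j, if r j = Sum.inr a then c (update r j (Sum.inr b)) else 0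

/-- The operators of the symplectic or orthogonal Lie algebra. -/
def Xo (e : Fin n → ℤ) (a b : Fin n) (c : (S → C ⊕ Fin n) → M) (r : S → C ⊕ Fin n) : M :=
  Eo a b c r - (e a * e b) • Eo b.rev a.rev c r

/-- contraction -/
def tro (e : Fin n → ℤ) (s t : S) (c : (S → C ⊕ Fin n) → M) (r : S → C ⊕ Fin n) : M :=
  ∑ a, e a • c (update (update r s (Sum.inr a)) t (Sum.inr a.rev))

/-- replacing two letters -/
def Fo (a b u v : Fin n) (f : (S → C ⊕ Fin n) → M) (r : S → C ⊕ Fin n) : M :=
  ∑ j, ∑ i, if i ≠ j ∧ r j = Sum.inr a ∧ r i = Sum.inr u then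
    f (update (update r j (Sum.inr b)) i (Sum.inr v)) else 0

/-- no dual pairs of letters -/
def DPF (r : S → C ⊕ Fin n) : Prop := ∀ s t a, r s = Sum.inr a → r t ≠ Sum.inr a.rev

/-- the number of letters `b` -/
def nl (b : Fin n) (r : S → C ⊕ Fin n) : ℕ := (univ.filter fun j => r j = Sum.inr b).card

theorem Eo_Eo (p q u v : Fin n) (f : (S → C ⊕ Fin n) → M) (r : S → C ⊕ Fin n) :
    Eo p q (Eo u v f) r = (if q = u then Eo p v f r else 0) + Fo p q u v f r := by
  have h1 : ∀ j, (if r j = Sum.inr p then Eo u v f (update r j (Sum.inr q)) else 0) =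
      (if r j = Sum.inr p then (if q = u then f (update r j (Sum.inr v)) else 0) else 0) +
      ∑ i, if i ≠ j ∧ r j = Sum.inr p ∧ r i = Sum.inr u then
        f (update (update r j (Sum.inr q)) i (Sum.inr v)) else 0 := by
    intro j
    by_cases hj : r j = Sum.inr p
    · rw [if_pos hj, if_pos hj, Eo, ← Finset.add_sum_erase _ _ (Finset.mem_univ j), update_self,
        update_idem]
      congr 1
      · by_cases hq : q = u
        · rw [if_pos hq, if_pos (by rw [hq])]
        · rw [if_neg hq, if_neg (fun h => hq (Sum.inr_injective h))]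
      · rw [← Finset.add_sum_erase univ (fun i => if i ≠ j ∧ r j = Sum.inr p ∧ r i = Sum.inr u then
          f (update (update r j (Sum.inr q)) i (Sum.inr v)) else 0) (Finset.mem_univ j),
          if_neg (fun h => h.1 rfl), zero_add]
        refine Finset.sum_congr rfl fun i hi => ?_
        have hij := Finset.ne_of_mem_erase hi
        rw [update_of_ne hij]
        by_cases hu : r i = Sum.inr u
        · rw [if_pos hu, if_pos ⟨hij, hj, hu⟩]
        · rw [if_neg hu, if_neg (fun h => hu h.2.2)]
    · rw [if_neg hj, if_neg hj, zero_add]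
      symm
      refine Finset.sum_eq_zero fun i _ => if_neg fun h => hj h.2.1
  rw [Eo, Finset.sum_congr rfl fun j _ => h1 j, Finset.sum_add_distrib]
  congr 1
  by_cases hq : q = u
  · rw [if_pos hq, Eo]
    exact Finset.sum_congr rfl fun j _ => by rw [if_pos hq]
  · rw [if_neg hq]
    exact Finset.sum_eq_zero fun j _ => by rw [if_neg hq, ite_self]

theorem Fo_swap (p q u v : Fin n) (f : (S → C ⊕ Fin n) → M) (r : S → C ⊕ Fin n) :
    Fo p q u v f r = Fo u v p q f r := by
  rw [Fo, Finset.sum_comm, Fo]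
  refine Finset.sum_congr rfl fun i _ => Finset.sum_congr rfl fun j _ => ?_
  by_cases h : i ≠ j ∧ r j = Sum.inr p ∧ r i = Sum.inr u
  · rw [if_pos h, if_pos ⟨h.1.symm, h.2.2, h.2.1⟩, update_comm h.1]
  · rw [if_neg h, if_neg (fun h' => h ⟨h'.1.symm, h'.2.2, h'.2.1⟩)]

theorem Eo_self (b : Fin n) (f : (S → C ⊕ Fin n) → ℚ) (r : S → C ⊕ Fin n) :
    Eo b b f r = nl b r * f r := by
  rw [Eo, nl, Finset.card_filter]
  push_cast
  rw [Finset.sum_mul]
  refine Finset.sum_congr rfl fun j _ => ?_
  by_cases h : r j = Sum.inr b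
  · rw [if_pos h, if_pos h, one_mul, ← h, update_eq_self]
  · rw [if_neg h, if_neg h, zero_mul]

/-- the number of pairs of different positions with the letters `a` and `rev a` -/
def np (a : Fin n) (r : S → C ⊕ Fin n) : ℕ :=
  (univ.filter fun p : S × S => p.2 ≠ p.1 ∧ r p.1 = Sum.inr a ∧ r p.2 = Sum.inr a.rev).card

theorem Fo_self (a : Fin n) (f : (S → C ⊕ Fin n) → ℚ) (r : S → C ⊕ Fin n) :
    Fo a a a.rev a.rev f r = np a r * f r := by
  rw [Fo, np, Finset.card_filter, Fintype.sum_prod_type]
  push_cast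
  rw [Finset.sum_mul]
  refine Finset.sum_congr rfl fun j _ => ?_
  rw [Finset.sum_mul]
  refine Finset.sum_congr rfl fun i _ => ?_
  by_cases h : i ≠ j ∧ r j = Sum.inr a ∧ r i = Sum.inr a.rev
  · rw [if_pos h, if_pos h, one_mul]
    congr 1
    rw [← h.2.1, update_eq_self, ← h.2.2, update_eq_self]
  · rw [if_neg h, if_neg h, zero_mul]

theorem Fo_traceless {e : Fin n → ℤ} {f : (S → C ⊕ Fin n) → ℚ}
    (hf : ∀ s t, s ≠ t → ∀ r, tro e s t f r = 0) (b : Fin n) (r : S → C ⊕ Fin n) :
    ∑ a, (e a : ℚ) * Fo b a b.rev a.rev f r = 0 := by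
  have h1 : ∀ a, (e a : ℚ) * Fo b a b.rev a.rev f r = ∑ j, ∑ i,
      if i ≠ j ∧ r j = Sum.inr b ∧ r i = Sum.inr b.rev then
        (e a : ℚ) * f (update (update r j (Sum.inr a)) i (Sum.inr a.rev)) else 0 := by
    intro a
    rw [Fo, Finset.mul_sum]
    refine Finset.sum_congr rfl fun j _ => ?_
    rw [Finset.mul_sum]
    refine Finset.sum_congr rfl fun i _ => ?_
    rw [mul_ite, mul_zero]
  rw [Finset.sum_congr rfl fun a _ => h1 a, Finset.sum_comm]
  refine Finset.sum_eq_zero fun j _ => ?_
  rw [Finset.sum_comm]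
  refine Finset.sum_eq_zero fun i _ => ?_
  by_cases h : i ≠ j ∧ r j = Sum.inr b ∧ r i = Sum.inr b.rev
  · simp only [if_pos h]
    have h2 := hf j i h.1.symm r
    rw [tro] at h2
    rw [← h2]
    refine Finset.sum_congr rfl fun a _ => ?_
    rw [zsmul_eq_mul]
  · simp only [if_neg h]
    exact Finset.sum_const_zero

/-- exchanging a letter at one position -/
theorem sum_exch [Fintype C] {A : Type*} [AddCommMonoid A] (j : S) (a b : C ⊕ Fin n)
    (g : (S → C ⊕ Fin n) → (S → C ⊕ Fin n) → A) :
    ∑ r : S → C ⊕ Fin n, (if r j = a then g (update r j b) r else 0) =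
      ∑ r : S → C ⊕ Fin n, (if r j = b then g r (update r j a) else 0) := by
  rw [← Finset.sum_filter, ← Finset.sum_filter]
  refine Finset.sum_bij' (fun r _ => update r j b) (fun r _ => update r j a) ?_ ?_ ?_ ?_ ?_
  · intro r _
    rw [Finset.mem_filter]
    exact ⟨Finset.mem_univ _, update_self _ _ _⟩
  · intro r _
    rw [Finset.mem_filter]
    exact ⟨Finset.mem_univ _, update_self _ _ _⟩
  · intro r hr
    rw [Finset.mem_filter] at hr
    rw [update_idem, ← hr.2, update_eq_self]
  · intro r hr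
    rw [Finset.mem_filter] at hr
    rw [update_idem, ← hr.2, update_eq_self]
  · intro r hr
    rw [Finset.mem_filter] at hr
    rw [update_idem, ← hr.2, update_eq_self]

/-- the inner product -/
def ip [Fintype C] (f g : (S → C ⊕ Fin n) → ℚ) : ℚ := ∑ r, f r * g r

variable [Fintype C]

theorem ip_Eo (a b : Fin n) (f g : (S → C ⊕ Fin n) → ℚ) : ip (Eo a b f) g = ip f (Eo b a g) := by
  unfold ip Eo
  simp only [Finset.sum_mul, Finset.mul_sum]
  rw [Finset.sum_comm]
  conv_rhs => rw [Finset.sum_comm]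
  refine Finset.sum_congr rfl fun j _ => ?_
  have h1 := sum_exch j (Sum.inr a : C ⊕ Fin n) (Sum.inr b) (fun r r' => f r * g r')
  calc _ = ∑ r : S → C ⊕ Fin n, (if r j = Sum.inr a then
        f (update r j (Sum.inr b)) * g r else 0) := by
        refine Finset.sum_congr rfl fun r _ => ?_
        rw [ite_mul, zero_mul]
    _ = _ := h1
    _ = _ := by
        refine Finset.sum_congr rfl fun r _ => ?_
        rw [mul_ite, mul_zero]

theorem ip_add_right (f g h : (S → C ⊕ Fin n) → ℚ) :
    ip f (fun r => g r + h r) = ip f g + ip f h := by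
  unfold ip
  rw [← Finset.sum_add_distrib]
  exact Finset.sum_congr rfl fun r _ => mul_add _ _ _

/-- **The identity.** -/
theorem main_identity {e : Fin n → ℤ} {ε : ℤ} (he : ∀ a, e a * e a = 1)
    (hrev : ∀ a, e a.rev = ε * e a) {f : (S → C ⊕ Fin n) → ℚ}
    (hf : ∀ s t, s ≠ t → ∀ r, tro e s t f r = 0)
    (hX : ∀ a b, a < b → ∀ r, Xo e a b f r = 0) :
    ∑ p : Fin n × Fin n, (if p.1 < p.2 then ip (Eo p.1 p.2 f) (Eo p.1 p.2 f) else 0) =
      (ε : ℚ) * ∑ b : Fin n, (if b.rev < b then ∑ r, (nl b r : ℚ) * (f r * f r) else 0) -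
        2⁻¹ * ∑ a : Fin n, ∑ r, (np a r : ℚ) * (f r * f r) := by
  have heq : ∀ a, (e a : ℚ) * e a = 1 := fun a => by exact_mod_cast he a
  have hrevq : ∀ a, (e a.rev : ℚ) = ε * e a := fun a => by exact_mod_cast hrev a
  have hεε : ∀ _a : Fin n, (ε : ℚ) * ε = 1 := by
    intro a
    have h1 := heq a.rev
    rw [hrevq] at h1
    linear_combination h1 - (ε : ℚ) * ε * (heq a)
  set G : Fin n → Fin n → ℚ := fun b a => ip f (Fo b a b.rev a.rev f) with hG
  set w : Fin n × Fin n → ℚ := fun p => (e p.1 : ℚ) * e p.2 * G p.2 p.1 with hw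
  have hGrev : ∀ a b, G b.rev a.rev = G b a := by
    intro a b
    simp only [hG, Fin.rev_rev]
    congr 1
    funext r
    exact Fo_swap _ _ _ _ _ _
  have hwrev : ∀ p : Fin n × Fin n, w (p.1.rev, p.2.rev) = w p := by
    intro p
    simp only [hw, hGrev, hrevq]
    linear_combination ((e p.1 : ℚ) * e p.2 * G p.2 p.1) * hεε p.1
  -- the total sum
  have htot : ∑ p, w p = 0 := by
    rw [Fintype.sum_prod_type, Finset.sum_comm]
    refine Finset.sum_eq_zero fun b _ => ?_
    have h1 : ∀ a, w (a, b) = e b * ∑ r, f r * ((e a : ℚ) * Fo b a b.rev a.rev f r) := by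
      intro a
      simp only [hw, hG, ip, Finset.mul_sum]
      refine Finset.sum_congr rfl fun r _ => ?_
      ring
    rw [Finset.sum_congr rfl fun a _ => h1 a, ← Finset.mul_sum, Finset.sum_comm]
    have h2 : ∀ r : S → C ⊕ Fin n, ∑ a, f r * ((e a : ℚ) * Fo b a b.rev a.rev f r) = 0 := by
      intro r
      rw [← Finset.mul_sum, Fo_traceless hf, mul_zero]
    rw [Finset.sum_eq_zero fun r _ => h2 r, mul_zero]
  have hsym : ∑ p : Fin n × Fin n, (if p.2 < p.1 then w p else 0) =
      ∑ p : Fin n × Fin n, (if p.1 < p.2 then w p else 0) := by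
    refine Fintype.sum_equiv (Equiv.prodCongr Fin.revPerm Fin.revPerm) _ _ fun p => ?_
    have h1 : (Equiv.prodCongr Fin.revPerm Fin.revPerm) p = (p.1.rev, p.2.rev) := rfl
    rw [h1]
    by_cases h : p.2 < p.1
    · rw [if_pos h, if_pos (Fin.rev_lt_rev.2 h), hwrev]
    · rw [if_neg h, if_neg (fun h' => h (Fin.rev_lt_rev.1 h'))]
  have hdiag : ∑ p : Fin n × Fin n, (if p.1 = p.2 then w p else 0) =
      ∑ a : Fin n, ∑ r, (np a r : ℚ) * (f r * f r) := by
    rw [Fintype.sum_prod_type]
    refine Finset.sum_congr rfl fun a _ => ?_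
    rw [Finset.sum_ite_eq]
    simp only [Finset.mem_univ, if_true, hw, hG, heq, one_mul, ip, Fo_self]
    refine Finset.sum_congr rfl fun r _ => ?_
    ring
  have hsplit : ∑ p, w p = ∑ p : Fin n × Fin n, (if p.1 < p.2 then w p else 0) +
      ∑ p : Fin n × Fin n, (if p.1 = p.2 then w p else 0) +
      ∑ p : Fin n × Fin n, (if p.2 < p.1 then w p else 0) := by
    rw [← Finset.sum_add_distrib, ← Finset.sum_add_distrib]
    refine Finset.sum_congr rfl fun p _ => ?_
    rcases lt_trichotomy p.1 p.2 with h | h | h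
    · rw [if_pos h, if_neg h.ne, if_neg h.le.not_gt, add_zero, add_zero]
    · rw [if_neg h.not_lt, if_pos h, if_neg h.not_gt, zero_add, add_zero]
    · rw [if_neg h.le.not_gt, if_neg h.ne', if_pos h, zero_add, zero_add]
  have hhalf : ∑ p : Fin n × Fin n, (if p.1 < p.2 then w p else 0) =
      - (2⁻¹ * ∑ a : Fin n, ∑ r, (np a r : ℚ) * (f r * f r)) := by
    rw [hsym, hdiag, htot] at hsplit
    linarith
  -- the terms
  have hterm : ∀ p : Fin n × Fin n, (if p.1 < p.2 then ip (Eo p.1 p.2 f) (Eo p.1 p.2 f) else 0) =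
      (if p.1 < p.2 then w p else 0) +
        (if p.1 = p.2.rev then (if p.2.rev < p.2 then
          (ε : ℚ) * ∑ r, (nl p.2 r : ℚ) * (f r * f r) else 0) else 0) := by
    rintro ⟨a, b⟩
    by_cases hab : a < b
    · rw [if_pos hab, if_pos hab]
      have h1 : Eo a b f = fun r => ((e a : ℚ) * e b) * Eo b.rev a.rev f r := by
        funext r
        have h2 := hX a b hab r
        rw [Xo, sub_eq_zero, zsmul_eq_mul] at h2
        rw [h2]
        push_cast
        ring
      have h3 : ip (Eo a b f) (Eo a b f) = ((e a : ℚ) * e b) * ip (Eo a b f)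
          (Eo b.rev a.rev f) := by
        conv_lhs => rw [show ip (Eo a b f) (Eo a b f) = ip (Eo a b f) (fun r =>
          ((e a : ℚ) * e b) * Eo b.rev a.rev f r) from by rw [← h1]]
        rw [ip, ip, Finset.mul_sum]
        refine Finset.sum_congr rfl fun r _ => ?_
        ring
      have h4 : Eo b a (Eo b.rev a.rev f) = fun r =>
          (if a = b.rev then Eo b a.rev f r else 0) + Fo b a b.rev a.rev f r := by
        funext r
        exact Eo_Eo _ _ _ _ _ _
      rw [h3, ip_Eo, h4, ip_add_right]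
      simp only [hw, hG]
      rw [mul_add, add_comm]
      congr 1
      by_cases h5 : a = b.rev
      · simp only [if_pos h5]
        rw [if_pos (by rw [← h5]; exact hab)]
        have h6 : a.rev = b := by rw [h5, Fin.rev_rev]
        rw [h6, h5, hrevq]
        have h7 : (ε : ℚ) * e b * e b = ε := by
          rw [mul_assoc, heq, mul_one]
        rw [h7, ip]
        congr 1
        refine Finset.sum_congr rfl fun r _ => ?_
        rw [Eo_self]
        ring
      · simp only [if_neg h5]
        simp [ip]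
    · rw [if_neg hab, if_neg hab, zero_add]
      by_cases h5 : a = b.rev
      · simp only [if_pos h5]
        rw [if_neg (by rw [← h5]; exact hab)]
      · simp only [if_neg h5]
  rw [Finset.sum_congr rfl fun p _ => hterm p, Finset.sum_add_distrib, hhalf, add_comm,
    ← sub_eq_add_neg]
  congr 1
  rw [Fintype.sum_prod_type, Finset.sum_comm, Finset.mul_sum]
  refine Finset.sum_congr rfl fun b _ => ?_
  simp only []
  rw [Finset.sum_ite_eq' Finset.univ b.rev]
  simp only [Finset.mem_univ, if_true, mul_ite, mul_zero]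

end words

end Pool.Agent.W5h58.NF
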