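import Pool.Agent.W5h58.NF.Core

/-!
# Existence of coordinates without dual pairs, and moving letters
-/

set_option autoImplicit false
set_option linter.unusedSectionVars false

open Finset Function

namespace Pool.Agent.W5h58.NF

section words

variable {C : Type} [DecidableEq C] {n : ℕ} {S : Type} [Fintype S] [DecidableEq S]
  {M : Type*} [AddCommGroup M]

theorem Eo_single {a b : Fin n} {c : (S → C ⊕ Fin n) → M} {r : S → C ⊕ Fin n} {s : S}
    (h1 : r s = Sum.inr a) (h2 : ∀ j, j ≠ s → r j ≠ Sum.inr a) :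
    Eo a b c r = c (update r s (Sum.inr b)) := by
  rw [Eo, Finset.sum_eq_single s, if_pos h1]
  · intro j _ hj
    rw [if_neg (h2 j hj)]
  · intro h
    exact absurd (Finset.mem_univ _) h

theorem Eo_none {a b : Fin n} {c : (S → C ⊕ Fin n) → M} {r : S → C ⊕ Fin n}
    (h : ∀ j, r j ≠ Sum.inr a) : Eo a b c r = 0 :=
  Finset.sum_eq_zero fun j _ => if_neg (h j)

variable [Fintype C]

theorem ip_self_nonneg (f : (S → C ⊕ Fin n) → ℚ) : 0 ≤ ip f f :=
  Finset.sum_nonneg fun _ _ => mul_self_nonneg _

/-- the lower bound -/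
theorem lower {a b : Fin n} (hab : a ≠ b) (f : (S → C ⊕ Fin n) → ℚ) :
    ∑ r, (if nl a r = 0 then (nl b r : ℚ) * (f r * f r) else 0) ≤
      ip (Eo a b f) (Eo a b f) := by
  have h1 : ∑ r : S → C ⊕ Fin n, ∑ j, (if r j = Sum.inr a then
      (if ∀ i, i ≠ j → r i ≠ Sum.inr a then
        f (update r j (Sum.inr b)) * f (update r j (Sum.inr b)) else 0) else 0) ≤
      ip (Eo a b f) (Eo a b f) := by
    refine Finset.sum_le_sum fun r _ => ?_
    by_cases h : ∃ j, r j = Sum.inr a ∧ ∀ i, i ≠ j → r i ≠ Sum.inr a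
    · obtain ⟨j, hj, hj'⟩ := h
      rw [Finset.sum_eq_single j, if_pos hj, if_pos hj', Eo_single hj hj']
      · intro i _ hij
        rw [if_neg (hj' i hij)]
      · intro h
        exact absurd (Finset.mem_univ _) h
    · rw [Finset.sum_eq_zero]
      · exact mul_self_nonneg _
      · intro j _
        by_cases hj : r j = Sum.inr a
        · rw [if_pos hj, if_neg (fun h' => h ⟨j, hj, h'⟩)]
        · rw [if_neg hj]
  refine le_trans (le_of_eq ?_) h1
  rw [Finset.sum_comm]
  have h2 : ∀ j, ∑ r : S → C ⊕ Fin n, (if r j = Sum.inr a then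
      (if ∀ i, i ≠ j → r i ≠ Sum.inr a then
        f (update r j (Sum.inr b)) * f (update r j (Sum.inr b)) else 0) else 0) =
      ∑ r : S → C ⊕ Fin n, (if r j = Sum.inr b then (if nl a r = 0 then f r * f r else 0)
        else 0) := by
    intro j
    have h3 := sum_exch j (Sum.inr a : C ⊕ Fin n) (Sum.inr b) (fun r' r =>
      if ∀ i, i ≠ j → r i ≠ Sum.inr a then f r' * f r' else 0)
    refine h3.trans (Finset.sum_congr rfl fun r _ => ?_)
    by_cases hj : r j = Sum.inr b
    · rw [if_pos hj, if_pos hj]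
      have h4 : (∀ i, i ≠ j → update r j (Sum.inr a) i ≠ Sum.inr a) ↔ nl a r = 0 := by
        rw [nl, Finset.card_eq_zero, Finset.filter_eq_empty_iff]
        constructor
        · intro h i _
          by_cases hi : i = j
          · subst hi
            rw [hj]
            exact fun h' => hab (Sum.inr_injective h').symm
          · have := h i hi
            rwa [update_of_ne hi] at this
        · intro h i hi
          rw [update_of_ne hi]
          exact h (Finset.mem_univ i)
      by_cases h5 : nl a r = 0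
      · rw [if_pos h5, if_pos (h4.2 h5)]
      · rw [if_neg h5, if_neg (fun h => h5 (h4.1 h))]
    · rw [if_neg hj, if_neg hj]
  rw [Finset.sum_congr rfl fun j _ => h2 j, Finset.sum_comm]
  refine Finset.sum_congr rfl fun r _ => ?_
  by_cases h5 : nl a r = 0
  · simp only [if_pos h5]
    rw [nl, Finset.card_filter]
    push_cast
    rw [Finset.sum_mul]
    refine Finset.sum_congr rfl fun j _ => ?_
    rw [ite_mul, one_mul, zero_mul]
  · simp only [if_neg h5, ite_self, Finset.sum_const_zero]

/-- the condition on the number of positions -/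
def Room (ε : ℤ) (S : Type) [Fintype S] (n : ℕ) : Prop :=
  ε = -1 ∨ (ε = 1 ∧ 2 * Fintype.card S < n)

theorem nl_pos {a : Fin n} {r : S → C ⊕ Fin n} : nl a r ≠ 0 ↔ ∃ j, r j = Sum.inr a := by
  rw [nl, Finset.card_ne_zero]
  constructor
  · rintro ⟨j, hj⟩
    exact ⟨j, (Finset.mem_filter.1 hj).2⟩
  · rintro ⟨j, hj⟩
    exact ⟨j, Finset.mem_filter.2 ⟨Finset.mem_univ _, hj⟩⟩

/-- a missing smaller letter -/
theorem exists_missing (hN : 2 * Fintype.card S < n) {r : S → C ⊕ Fin n} {j : S} {b : Fin n}
    (hj : r j = Sum.inr b) (hb : b.rev ≤ b) : ∃ a, a < b ∧ nl a r = 0 := by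
  by_contra hcon
  push Not at hcon
  have h1 : ∀ a : Fin b.val, ∃ i, r i = Sum.inr (⟨a.val, a.2.trans b.2⟩ : Fin n) := by
    intro a
    exact nl_pos.1 (hcon ⟨a.val, a.2.trans b.2⟩ a.2)
  choose p hp using h1
  have hinj : Function.Injective p := by
    intro a a' h
    have h2 := hp a
    rw [h, hp a'] at h2
    have h3 := Sum.inr_injective h2
    exact (Fin.ext (Fin.mk.inj h3)).symm
  have hj' : ∀ a, p a ∈ univ.erase j := by
    intro a
    rw [Finset.mem_erase]
    refine ⟨fun h => ?_, Finset.mem_univ _⟩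
    have h2 := hp a
    rw [h, hj] at h2
    have h3 := congrArg Fin.val (Sum.inr_injective h2)
    have := a.2
    simp only at h3
    omega
  have h4 := Finset.card_le_card_of_injOn p (fun a _ => hj' a)
    (Set.injOn_of_injective hinj) (s := (univ : Finset (Fin b.val)))
  rw [Finset.card_univ, Fintype.card_fin, Finset.card_erase_of_mem (Finset.mem_univ _),
    Finset.card_univ] at h4
  have h5 : 0 < Fintype.card S := Fintype.card_pos_iff.2 ⟨j⟩
  have h6 : b.rev.val ≤ b.val := hb
  rw [Fin.val_rev] at h6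
  omega

/-- **Coordinates of a vector of highest weight.** -/
theorem dpf_of {e : Fin n → ℤ} {ε : ℤ} (he : ∀ a, e a * e a = 1)
    (hrev : ∀ a, e a.rev = ε * e a) (hε : Room ε S n) {f : (S → C ⊕ Fin n) → ℚ}
    (hf : ∀ s t, s ≠ t → ∀ r, tro e s t f r = 0)
    (hX : ∀ a b, a < b → ∀ r, Xo e a b f r = 0) {r : S → C ⊕ Fin n} (hr : f r ≠ 0) : DPF r := by
  have hid := main_identity he hrev hf hX
  have hff : ∀ r, 0 ≤ f r * f r := fun r => mul_self_nonneg _
  -- the key inequality
  have key : ∀ r, f r ≠ 0 → (∀ a, np a r = 0) ∧ ∀ b : Fin n, b.rev = b → nl b r = 0 := by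
    rcases hε with hε | ⟨hε, hN⟩
    · subst hε
      have h0 : 0 ≤ ∑ p : Fin n × Fin n,
          (if p.1 < p.2 then ip (Eo p.1 p.2 f) (Eo p.1 p.2 f) else 0) := by
        refine Finset.sum_nonneg fun p _ => ?_
        split_ifs
        · exact ip_self_nonneg _
        · exact le_rfl
      rw [hid] at h0
      have h1 : 0 ≤ ∑ b : Fin n, (if b.rev < b then ∑ r, (nl b r : ℚ) * (f r * f r) else 0) := by
        refine Finset.sum_nonneg fun b _ => ?_
        split_ifs
        · exact Finset.sum_nonneg fun r _ => mul_nonneg (Nat.cast_nonneg _) (hff r)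
        · exact le_rfl
      have h2 : ∑ a : Fin n, ∑ r, (np a r : ℚ) * (f r * f r) ≤ 0 := by
        push_cast at h0
        linarith
      have h3 : ∀ a ∈ (univ : Finset (Fin n)), 0 ≤ ∑ r, (np a r : ℚ) * (f r * f r) := fun a _ =>
        Finset.sum_nonneg fun r _ => mul_nonneg (Nat.cast_nonneg _) (hff r)
      have h4 := (Finset.sum_eq_zero_iff_of_nonneg h3).1 (le_antisymm h2 (Finset.sum_nonneg h3))
      intro r hr
      constructor
      · intro a
        have h5 := (Finset.sum_eq_zero_iff_of_nonneg fun r _ =>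
          mul_nonneg (Nat.cast_nonneg _) (hff r)).1 (h4 a (Finset.mem_univ a)) r
            (Finset.mem_univ r)
        have h6 := (mul_eq_zero.1 h5).resolve_right (mul_ne_zero hr hr)
        exact_mod_cast h6
      · intro b hb
        exfalso
        have h5 := hrev b
        rw [hb] at h5
        have h6 := he b
        have h7 : e b = 0 := by omega
        rw [h7] at h6
        omega
    · subst hε
      have hl : ∀ r : S → C ⊕ Fin n, ∑ b : Fin n, (if b.rev ≤ b then (nl b r : ℚ) else 0) ≤
          ∑ p : Fin n × Fin n, (if p.1 < p.2 then (if nl p.1 r = 0 then (nl p.2 r : ℚ) else 0)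
            else 0) := by
        intro r
        rw [Fintype.sum_prod_type, Finset.sum_comm]
        refine Finset.sum_le_sum fun b _ => ?_
        have hnn : ∀ a ∈ (univ : Finset (Fin n)), (0 : ℚ) ≤
            (if (a, b).1 < (a, b).2 then (if nl (a, b).1 r = 0 then (nl (a, b).2 r : ℚ) else 0)
              else 0) := by
          intro a _
          split_ifs
          · exact Nat.cast_nonneg _
          · exact le_rfl
          · exact le_rfl
        by_cases hb : b.rev ≤ b
        · rw [if_pos hb]
          by_cases hn : nl b r = 0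
          · rw [hn]
            push_cast
            exact Finset.sum_nonneg hnn
          · obtain ⟨j, hj⟩ := nl_pos.1 hn
            obtain ⟨a, hab, ha⟩ := exists_missing hN hj hb
            have h1 := Finset.single_le_sum hnn (Finset.mem_univ a)
            simp only [if_pos hab, if_pos ha] at h1
            exact h1
        · rw [if_neg hb]
          exact Finset.sum_nonneg hnn
      have h1 : ∑ r, (∑ p : Fin n × Fin n, (if p.1 < p.2 then
          (if nl p.1 r = 0 then (nl p.2 r : ℚ) else 0) else 0)) * (f r * f r) ≤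
          ∑ p : Fin n × Fin n, (if p.1 < p.2 then ip (Eo p.1 p.2 f) (Eo p.1 p.2 f) else 0) := by
        simp only [Finset.sum_mul]
        rw [Finset.sum_comm]
        refine Finset.sum_le_sum fun p _ => ?_
        by_cases hp : p.1 < p.2
        · simp only [if_pos hp]
          refine le_trans (le_of_eq ?_) (lower hp.ne f)
          refine Finset.sum_congr rfl fun r _ => ?_
          rw [ite_mul, zero_mul]
        · simp only [if_neg hp, zero_mul, Finset.sum_const_zero]
          exact le_rfl
      have h2 : ∑ r : S → C ⊕ Fin n, (∑ b : Fin n, (if b.rev ≤ b then (nl b r : ℚ) else 0)) *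
          (f r * f r) ≤ ∑ r, (∑ p : Fin n × Fin n, (if p.1 < p.2 then
          (if nl p.1 r = 0 then (nl p.2 r : ℚ) else 0) else 0)) * (f r * f r) :=
        Finset.sum_le_sum fun r _ => mul_le_mul_of_nonneg_right (hl r) (hff r)
      have h3 := h2.trans h1
      rw [hid] at h3
      have h4 : ∑ r : S → C ⊕ Fin n, (∑ b : Fin n, (if b.rev = b then (nl b r : ℚ) else 0) +
          2⁻¹ * ∑ a : Fin n, (np a r : ℚ)) * (f r * f r) ≤ 0 := by
        have e1 : ∀ r : S → C ⊕ Fin n, (∑ b : Fin n, (if b.rev = b then (nl b r : ℚ) else 0) +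
            2⁻¹ * ∑ a : Fin n, (np a r : ℚ)) * (f r * f r) =
            (∑ b : Fin n, (if b.rev ≤ b then (nl b r : ℚ) else 0)) * (f r * f r) -
            ∑ b : Fin n, (if b.rev < b then (nl b r : ℚ) * (f r * f r) else 0) +
            2⁻¹ * ∑ a : Fin n, (np a r : ℚ) * (f r * f r) := by
          intro r
          have e2 : ∑ b : Fin n, (if b.rev ≤ b then (nl b r : ℚ) else 0) =
              ∑ b : Fin n, (if b.rev = b then (nl b r : ℚ) else 0) +
              ∑ b : Fin n, (if b.rev < b then (nl b r : ℚ) else 0) := by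
            rw [← Finset.sum_add_distrib]
            refine Finset.sum_congr rfl fun b _ => ?_
            rcases lt_trichotomy b.rev b with h | h | h
            · rw [if_pos h.le, if_neg h.ne, if_pos h, zero_add]
            · rw [if_pos h.le, if_pos h, if_neg h.not_lt, add_zero]
            · rw [if_neg h.not_ge, if_neg h.ne', if_neg h.not_gt, add_zero]
          have e3 : ∑ b : Fin n, (if b.rev < b then (nl b r : ℚ) * (f r * f r) else 0) =
              (∑ b : Fin n, (if b.rev < b then (nl b r : ℚ) else 0)) * (f r * f r) := by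
            rw [Finset.sum_mul]
            refine Finset.sum_congr rfl fun b _ => ?_
            rw [ite_mul, zero_mul]
          rw [e3, e2, ← Finset.sum_mul]
          ring
        rw [Finset.sum_congr rfl fun r _ => e1 r, Finset.sum_add_distrib, Finset.sum_sub_distrib]
        have e4 : ∑ r : S → C ⊕ Fin n, ∑ b : Fin n,
            (if b.rev < b then (nl b r : ℚ) * (f r * f r) else 0) =
            ∑ b : Fin n, (if b.rev < b then ∑ r, (nl b r : ℚ) * (f r * f r) else 0) := by
          rw [Finset.sum_comm]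
          refine Finset.sum_congr rfl fun b _ => ?_
          by_cases hb : b.rev < b
          · simp only [if_pos hb]
          · simp only [if_neg hb, Finset.sum_const_zero]
        have e5 : ∑ r : S → C ⊕ Fin n, 2⁻¹ * ∑ a : Fin n, (np a r : ℚ) * (f r * f r) =
            2⁻¹ * ∑ a : Fin n, ∑ r, (np a r : ℚ) * (f r * f r) := by
          rw [← Finset.mul_sum, Finset.sum_comm]
        rw [e4, e5]
        push_cast at h3
        linarith
      have hT0 : ∀ r : S → C ⊕ Fin n, 0 ≤ ∑ b : Fin n, (if b.rev = b then (nl b r : ℚ) else 0) := by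
        intro r
        refine Finset.sum_nonneg fun b _ => ?_
        split_ifs
        · exact Nat.cast_nonneg _
        · exact le_rfl
      have hP0 : ∀ r : S → C ⊕ Fin n, (0 : ℚ) ≤ ∑ a : Fin n, (np a r : ℚ) := fun r =>
        Finset.sum_nonneg fun a _ => Nat.cast_nonneg _
      have h5 : ∀ r ∈ (univ : Finset (S → C ⊕ Fin n)),
          0 ≤ (∑ b : Fin n, (if b.rev = b then (nl b r : ℚ) else 0) +
          2⁻¹ * ∑ a : Fin n, (np a r : ℚ)) * (f r * f r) := by
        intro r _
        refine mul_nonneg ?_ (hff r)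
        have := hT0 r
        have := hP0 r
        positivity
      have h6 := (Finset.sum_eq_zero_iff_of_nonneg h5).1 (le_antisymm h4 (Finset.sum_nonneg h5))
      intro r hr
      have h7 := (mul_eq_zero.1 (h6 r (Finset.mem_univ r))).resolve_right (mul_ne_zero hr hr)
      have h8 : ∑ b : Fin n, (if b.rev = b then (nl b r : ℚ) else 0) = 0 := by
        have := hT0 r
        have := hP0 r
        linarith
      have h9 : ∑ a : Fin n, (np a r : ℚ) = 0 := by linarith
      constructor
      · intro a
        have := (Finset.sum_eq_zero_iff_of_nonneg fun a _ => Nat.cast_nonneg (np a r)).1 h9 a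
          (Finset.mem_univ a)
        exact_mod_cast this
      · intro b hb
        have h10 := (Finset.sum_eq_zero_iff_of_nonneg (fun b _ => by
          split_ifs
          · exact Nat.cast_nonneg _
          · exact le_rfl)).1 h8 b (Finset.mem_univ b)
        rw [if_pos hb] at h10
        exact_mod_cast h10
  intro s t a hs ht
  obtain ⟨h1, h2⟩ := key r hr
  by_cases hst : s = t
  · subst hst
    rw [hs] at ht
    have h3 := Sum.inr_injective ht
    have h4 := h2 a h3.symm
    exact nl_pos.2 ⟨s, hs⟩ h4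
  · have h3 := h1 a
    rw [np, Finset.card_eq_zero, Finset.filter_eq_empty_iff] at h3
    exact h3 (Finset.mem_univ (s, t)) ⟨Ne.symm hst, hs, ht⟩

end words

/-- additive functionals with values in `ℚ` -/
theorem exists_addHom {K M : Type*} [Field K] [CharZero K] [AddCommGroup M] [Module K M] {x : M}
    (hx : x ≠ 0) : ∃ ψ : M →+ ℚ, ψ x ≠ 0 := by
  have : Module ℚ M := Module.compHom M (algebraMap ℚ K)
  by_contra hcon
  push Not at hcon
  apply hx
  refine (Module.forall_dual_apply_eq_zero_iff ℚ x).1 fun φ => ?_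
  exact hcon φ.toAddMonoidHom

section exist

variable {K : Type*} [Field K] [CharZero K] {C : Type} [DecidableEq C] [Fintype C] {n : ℕ}
  {S : Type} [Fintype S] [DecidableEq S] {M : Type*} [AddCommGroup M] [Module K M]

/-- the height -/
def idx (r : S → C ⊕ Fin n) : ℕ := ∑ j, Sum.elim (fun _ => 0) (fun a : Fin n => a.val) (r j)

theorem idx_update {r : S → C ⊕ Fin n} {s : S} {a b : Fin n} (hs : r s = Sum.inr a) (hab : a < b) :
    idx r < idx (update r s (Sum.inr b)) := by
  rw [idx, idx, ← Finset.add_sum_erase _ _ (Finset.mem_univ s),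
    ← Finset.add_sum_erase _ _ (Finset.mem_univ s), update_self, hs]
  have h1 : ∑ j ∈ univ.erase s, Sum.elim (fun _ => 0) (fun a : Fin n => a.val)
      (update r s (Sum.inr b) j) = ∑ j ∈ univ.erase s,
        Sum.elim (fun _ => 0) (fun a : Fin n => a.val) (r j) := by
    refine Finset.sum_congr rfl fun j hj => ?_
    rw [update_of_ne (Finset.ne_of_mem_erase hj)]
  rw [h1]
  have h2 : a.val < b.val := hab
  simp only [Sum.elim_inr]
  omega

theorem Eo_supp {a b : Fin n} (hab : a < b) {c : (S → C ⊕ Fin n) → M} {r : S → C ⊕ Fin n}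
    (h : Eo a b c r ≠ 0) : ∃ r', c r' ≠ 0 ∧ idx r < idx r' := by
  obtain ⟨j, -, hj⟩ := Finset.exists_ne_zero_of_sum_ne_zero h
  by_cases h1 : r j = Sum.inr a
  · rw [if_pos h1] at hj
    exact ⟨_, hj, idx_update h1 hab⟩
  · rw [if_neg h1] at hj
    exact absurd rfl hj

theorem Xo_supp {e : Fin n → ℤ} {a b : Fin n} (hab : a < b) {c : (S → C ⊕ Fin n) → M}
    {r : S → C ⊕ Fin n} (h : Xo e a b c r ≠ 0) : ∃ r', c r' ≠ 0 ∧ idx r < idx r' := by
  by_cases h1 : Eo a b c r = 0
  · rw [Xo, h1, zero_sub] at h
    refine Eo_supp (Fin.rev_lt_rev.2 hab) (fun h2 => h ?_)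
    rw [h2, smul_zero, neg_zero]
  · exact Eo_supp hab h1

/-- **Existence of a coordinate without dual pairs.** -/
theorem exists_dpf {e : Fin n → ℤ} {ε : ℤ} (he : ∀ a, e a * e a = 1)
    (hrev : ∀ a, e a.rev = ε * e a) (hε : Room ε S n)
    {U : Submodule K ((S → C ⊕ Fin n) → M)} (hU : U ≠ ⊥)
    (htr : ∀ c ∈ U, ∀ s t, s ≠ t → ∀ r, tro e s t c r = 0)
    (hX : ∀ a b, ∀ c ∈ U, Xo e a b c ∈ U) :
    ∃ c ∈ U, ∃ r, c r ≠ 0 ∧ DPF r := by
  classical
  obtain ⟨c0, hc0, hc0'⟩ := Submodule.exists_mem_ne_zero_of_ne_bot hU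
  have hex : ∃ N : ℕ, ∃ c ∈ U, c ≠ 0 ∧ ∀ r, c r ≠ 0 → idx r ≤ N :=
    ⟨univ.sup idx, c0, hc0, hc0', fun r _ => Finset.le_sup (f := idx) (Finset.mem_univ r)⟩
  obtain ⟨c, hc, hc0, hcN⟩ := Nat.find_spec hex
  have hkill : ∀ a b, a < b → ∀ r, Xo e a b c r = 0 := by
    intro a b hab r
    by_contra hne
    obtain ⟨r', hr', hlt⟩ := Xo_supp hab hne
    have h1 := hcN r' hr'
    have h2 : Nat.find hex - 1 < Nat.find hex := by omega
    refine Nat.find_min hex h2 ⟨Xo e a b c, hX a b c hc, fun h => hne (congrFun h r),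
      fun r1 hr1 => ?_⟩
    obtain ⟨r2, hr2, hlt2⟩ := Xo_supp hab hr1
    have h3 := hcN r2 hr2
    omega
  obtain ⟨r, hr⟩ : ∃ r, c r ≠ 0 := by
    by_contra hcon
    push Not at hcon
    exact hc0 (funext hcon)
  obtain ⟨ψ, hψ⟩ := exists_addHom (K := K) hr
  refine ⟨c, hc, r, hr, dpf_of he hrev hε (f := fun r => ψ (c r)) ?_ ?_ hψ⟩
  · intro s t hst r
    have h1 := congrArg ψ (htr c hc s t hst r)
    rw [map_zero, tro, map_sum] at h1
    rw [tro, ← h1]
    exact Finset.sum_congr rfl fun a _ => (map_zsmul ψ _ _).symm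
  · intro a b hab r
    have h1 := congrArg ψ (hkill a b hab r)
    rw [map_zero, Xo, map_sub, map_zsmul] at h1
    have h2 : ∀ a b : Fin n, ψ (Eo a b c r) = Eo a b (fun r => ψ (c r)) r := by
      intro a b
      rw [Eo, Eo, map_sum]
      refine Finset.sum_congr rfl fun j _ => ?_
      rw [apply_ite ψ, map_zero]
    rw [h2, h2] at h1
    exact h1

end exist

end Pool.Agent.W5h58.NF
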