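import Pool.Agent.W5h58.NF.Cas

/-!
# The induction on the number of transcendental positions
-/

set_option autoImplicit false
set_option linter.unusedSectionVars false

open Finset Function

namespace Pool.Agent.W5h58.NF

open Pool.Agent.TH125.Gal

universe u v w x y

section types

variable {K : Type u} [Field K] {V : Type v} [AddCommGroup V] [Module K V]
  {E : Type w} [AddCommGroup E] [Module K E] {S : Type} [Fintype S] [DecidableEq S]
  {C : Type} [DecidableEq C] {n : ℕ}

/-- the maps of a given type -/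
def Ty (K : Type u) [Field K] {V : Type v} [AddCommGroup V] [Module K V] (E : Type w)
    [AddCommGroup E] [Module K E] (f : C ⊕ Fin n → V) (τ : S → Option C) :
    Submodule K (MultilinearMap K (fun _ : S => V) E) where
  carrier := {h | ∀ r, co f h r ≠ 0 → pt r = τ}
  zero_mem' := fun r h => absurd rfl h
  add_mem' := by
    intro h h' hh hh' r hr
    by_cases h1 : co f h r = 0
    · refine hh' r fun h2 => hr ?_
      change co f h r + co f h' r = 0
      rw [h1, h2, add_zero]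
    · exact hh r h1
  smul_mem' := by
    intro c h hh r hr
    refine hh r fun h2 => hr ?_
    change c • co f h r = 0
    rw [h2, smul_zero]

theorem mem_Ty {f : C ⊕ Fin n → V} {τ : S → Option C} {h : MultilinearMap K (fun _ : S => V) E} :
    h ∈ Ty K E f τ ↔ ∀ r, co f h r ≠ 0 → pt r = τ := Iff.rfl

/-- the sum of the codimensions -/
def csum (c : ℕ) (cod : C → ℕ) (τ : S → Option C) : ℕ := ∑ s, (τ s).elim c cod

end types

section slopes

variable {K : Type u} [Field K] {N : ℕ} {C : Type} [DecidableEq C] {n : ℕ}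

/-- the product over the letters of a word -/
theorem prod_letters {A : Finset (Fin n)} (g : Fin n → K) {r : Fin N → C ⊕ Fin n}
    (hA : ∀ s a, r s = Sum.inr a → a ∈ A) :
    ∏ s, (Sum.elim (fun _ => 1) g (r s) : K) = ∏ a ∈ A, g a ^ nl a r := by
  have h1 : ∀ s, (Sum.elim (fun _ => 1) g (r s) : K) =
      ∏ a ∈ A, if r s = Sum.inr a then g a else 1 := by
    intro s
    rcases hs : r s with c | b
    · rw [Finset.prod_eq_one]
      · rfl
      · intro a _
        rw [if_neg (by simp)]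
    · have h2 : ∀ a, (if (Sum.inr b : C ⊕ Fin n) = Sum.inr a then g a else 1) =
          if b = a then g a else 1 := by
        intro a
        by_cases hab : b = a
        · rw [if_pos hab, if_pos (by rw [hab])]
        · rw [if_neg hab, if_neg (fun h => hab (Sum.inr_injective h))]
      rw [Finset.prod_congr rfl fun a _ => h2 a, Finset.prod_ite_eq, if_pos (hA s b hs)]
      rfl
  rw [Finset.prod_congr rfl fun s _ => h1 s, Finset.prod_comm]
  refine Finset.prod_congr rfl fun a _ => ?_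
  rw [nl, Finset.prod_ite, Finset.prod_const, Finset.prod_const_one, mul_one]

theorem mem_of_integral {z : K} (hz : IsIntegral ℤ z) (O : ValuationSubring K) : z ∈ O := by
  have h1 : IsIntegral O z := hz.tower_top
  obtain ⟨y, hy⟩ := IsIntegrallyClosed.isIntegral_iff.1 h1
  rw [← hy]
  exact y.2

/-- the dual product -/
theorem prod_dual {q : K} (hq : q ≠ 0) {d c : ℕ} {cod : C → ℕ} {α : C ⊕ Fin n → K}
    (hαC : ∀ c, α (Sum.inl c) * q ^ cod c = q ^ d)
    (hαT : ∀ a, α (Sum.inr a) * α (Sum.inr a.rev) = q ^ d) {τ : Fin N → Option C}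
    {A : Finset (Fin n)} {r : Fin N → C ⊕ Fin n} (hr : pt r = τ)
    (hrA : ∀ s a, r s = Sum.inr a → a ∈ A) :
    (∏ s, α (r s)) * (q ^ csum c cod τ * ∏ a ∈ A, (α (Sum.inr a.rev) / q ^ c) ^ nl a r) =
      q ^ (d * N) := by
  rw [← prod_letters (fun a => α (Sum.inr a.rev) / q ^ c) hrA, csum,
    ← Finset.prod_pow_eq_pow_sum,
    ← Finset.prod_mul_distrib, ← Finset.prod_mul_distrib, mul_comm d N, pow_mul,
    pow_right_comm]
  have h2 : ∀ s ∈ (univ : Finset (Fin N)), α (r s) * (q ^ ((τ s).elim c cod) *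
      Sum.elim (fun _ => 1) (fun a : Fin n => α (Sum.inr a.rev) / q ^ c) (r s)) = q ^ d := by
    intro s _
    rw [← hr]
    rcases hs : r s with c' | a
    · have h3 : pt r s = some c' := by rw [pt, hs]; rfl
      rw [h3]
      change α (Sum.inl c') * (q ^ cod c' * 1) = _
      rw [mul_one, hαC]
    · have h3 : pt r s = none := by rw [pt, hs]; rfl
      rw [h3]
      change α (Sum.inr a) * (q ^ c * (α (Sum.inr a.rev) / q ^ c)) = _
      rw [mul_div_cancel₀ _ (pow_ne_zero _ hq), hαT]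
  rw [Finset.prod_congr rfl h2, Finset.prod_const, Finset.card_univ, Fintype.card_fin,
    pow_right_comm]

/-- the eigenvalues -/
theorem slope_eq {q : K} (hq : q ≠ 0) {D w d c : ℕ} {cod : C → ℕ} {τ : Fin N → Option C}
    {Λ P lam : K} (h1 : Λ * (q ^ csum c cod τ * P) = q ^ (d * N)) (x : ℤ) :
    ((lam * Λ) / q ^ (d * N)) ^ D / q ^ (x - D * csum c cod τ - w) =
      (lam ^ D / q ^ x) * (q ^ w / P ^ D) := by
  rw [← h1]
  have h6 : Λ ≠ 0 := by
    intro h
    rw [h, zero_mul] at h1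
    exact pow_ne_zero _ hq h1.symm
  have hP : P ≠ 0 := by
    intro h
    rw [h, mul_zero, mul_zero] at h1
    exact pow_ne_zero _ hq h1.symm
  have h7 : q ^ (x - D * csum c cod τ - w) = q ^ x / ((q ^ csum c cod τ) ^ D * q ^ w) := by
    rw [zpow_sub₀ hq, zpow_sub₀ hq, ← pow_mul, mul_comm (csum c cod τ) D]
    rw [show ((D : ℤ) * (csum c cod τ : ℤ)) = ((D * csum c cod τ : ℕ) : ℤ) by push_cast; ring,
      zpow_natCast, zpow_natCast, div_div]
  rw [h7]
  have hqx : q ^ x ≠ 0 := zpow_ne_zero _ hq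
  have hqc : q ^ csum c cod τ ≠ 0 := pow_ne_zero _ hq
  have hqw : q ^ w ≠ 0 := pow_ne_zero _ hq
  have h8 : (lam * Λ) / (Λ * (q ^ csum c cod τ * P)) = lam / (q ^ csum c cod τ * P) := by
    field_simp
  rw [h8, div_pow, mul_pow]
  generalize q ^ x = X at *
  generalize q ^ csum c cod τ = Y at *
  field_simp

/-- the letters with small slopes -/
def SlLetters (n N : ℕ) (ε : ℤ) (q : K) (D w c : ℕ) (α : Fin n → K) : Prop :=
  ∀ O : ValuationSubring K, ∃ A : Finset (Fin n), (N ≤ A.card ∧ (∀ a ∈ A, a.rev ∉ A) ∧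
    q ^ w / (∏ a ∈ A, α a.rev / q ^ c) ^ D ∈ O) ∨
    (ε = -1 ∧ (∀ a, a ∈ A ∨ a.rev ∈ A) ∧ ∀ a ∈ A, (α a.rev / q ^ c)⁻¹ ∈ O)

/-- **The slopes of the values.** -/
theorem slopes {q : K} (hq : q ≠ 0) (hqi : IsIntegral ℤ q) {D w d c : ℕ} {ε : ℤ} {cod : C → ℕ}
    {α : C ⊕ Fin n → K}
    (hαC : ∀ c, α (Sum.inl c) * q ^ cod c = q ^ d)
    (hαT : ∀ a, α (Sum.inr a) * α (Sum.inr a.rev) = q ^ d)
    (hint : ∀ a, IsIntegral ℤ (α (Sum.inr a) / q ^ c))
    (hsl : SlLetters n N ε q D w c fun a => α (Sum.inr a)) (x : ℤ) (τ : Fin N → Option C)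
    (O : ValuationSubring K) : ∃ A : Finset (Fin n), (N ≤ A.card ∧
      (∀ a ∈ A, a.rev ∉ A) ∧ ∀ lam, Dvd K q D x lam → ∀ r : Fin N → C ⊕ Fin n, pt r = τ →
        (∀ s a, r s = Sum.inr a → a ∈ A) → (∀ s t a, r s = Sum.inr a → r t = Sum.inr a → s = t) →
          ((lam * ∏ s, α (r s)) / q ^ (d * N)) ^ D / q ^ (x - D * csum c cod τ - w) ∈ O) ∨
      (ε = -1 ∧ (∀ a, a ∈ A ∨ a.rev ∈ A) ∧ ∀ lam, Dvd K q D x lam →
        ∀ r : Fin N → C ⊕ Fin n, pt r = τ → (∀ s a, r s = Sum.inr a → a ∈ A) →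
          ((lam * ∏ s, α (r s)) / q ^ (d * N)) ^ D / q ^ (x - D * csum c cod τ - w) ∈ O) := by
  obtain ⟨A, hA⟩ := hsl O
  have hα0 : ∀ a, α (Sum.inr a) / q ^ c ≠ 0 := fun a h => by
    have h1 := hαT a
    rcases div_eq_zero_iff.1 h with h2 | h2
    · rw [h2, zero_mul] at h1
      exact pow_ne_zero _ hq h1.symm
    · exact pow_ne_zero _ hq h2
  refine ⟨A, ?_⟩
  rcases hA with ⟨hA, hA', hO⟩ | ⟨hε, hA, hO⟩
  · left
    refine ⟨hA, hA', fun lam hlam r hr hrA hri => ?_⟩
    rw [slope_eq hq (prod_dual hq hαC hαT hr hrA)]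
    have h4 : lam ^ D / q ^ x ∈ O := mem_of_integral hlam O
    refine O.mul_mem _ _ h4 ?_
    set P := ∏ a ∈ A, (α (Sum.inr a.rev) / q ^ c) ^ nl a r with hP
    set P' := ∏ a ∈ A, (α (Sum.inr a.rev) / q ^ c) ^ (1 - nl a r) with hP'
    have hP0 : P ≠ 0 := Finset.prod_ne_zero_iff.2 fun a _ => pow_ne_zero _ (hα0 _)
    have hP0' : P' ≠ 0 := Finset.prod_ne_zero_iff.2 fun a _ => pow_ne_zero _ (hα0 _)
    have h2 : ∏ a ∈ A, α (Sum.inr a.rev) / q ^ c = P * P' := by
      rw [hP, hP', ← Finset.prod_mul_distrib]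
      refine Finset.prod_congr rfl fun a _ => ?_
      have h3 : nl a r ≤ 1 := by
        rw [nl, Finset.card_le_one]
        intro s hs t ht
        rw [Finset.mem_filter] at hs ht
        exact hri s t a hs.2 ht.2
      rw [← pow_add, Nat.add_sub_cancel' h3, pow_one]
    have h3 : P' ∈ O := by
      refine O.toSubring.prod_mem fun a _ => ?_
      exact O.pow_mem (mem_of_integral (hint _) O) _
    have h5 : q ^ w / P ^ D = q ^ w / (P * P') ^ D * P' ^ D := by
      rw [mul_pow]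
      field_simp
    rw [h5, ← h2]
    exact O.mul_mem _ _ hO (O.pow_mem h3 _)
  · right
    refine ⟨hε, hA, fun lam hlam r hr hrA => ?_⟩
    rw [slope_eq hq (prod_dual hq hαC hαT hr hrA)]
    have h4 : lam ^ D / q ^ x ∈ O := mem_of_integral hlam O
    refine O.mul_mem _ _ h4 ?_
    rw [div_eq_mul_inv, ← inv_pow, ← Finset.prod_inv_distrib]
    refine O.mul_mem _ _ (O.pow_mem (mem_of_integral hqi O) _) (O.pow_mem
      (O.toSubring.prod_mem fun a ha => ?_) _)
    rw [← inv_pow]
    exact O.pow_mem (hO a ha) _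

end slopes

section core

/-- The data. -/
structure Dat (K : Type u) [Field K] (V : Type v) [AddCommGroup V] [Module K V] (E : Type w)
    [AddCommGroup E] [Module K E] (G : Type x) [Group G] (T : Type y) [AddCommGroup T] [Module K T]
    (C : Type) (n : ℕ) where
  /-- the inclusion -/
  i : T →ₗ[K] V
  /-- the projection -/
  p : V →ₗ[K] T
  /-- the form -/
  B : T →ₗ[K] T →ₗ[K] K
  /-- the action -/
  ρV : G →* (V →ₗ[K] V)
  /-- the action -/
  ρ : G →* (T →ₗ[K] T)
  /-- the action -/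
  σ : G →* (E →ₗ[K] E)
  /-- the multiplier -/
  μ : G → K
  /-- the basis -/
  t : Module.Basis (Fin n) K T
  /-- the basis -/
  f : Module.Basis (C ⊕ Fin n) K V
  /-- the signs -/
  e : Fin n → ℤ
  /-- the sign -/
  ε : ℤ
  hpi : ∀ t, p (i t) = t
  hi : ∀ g t, i (ρ g t) = ρV g (i t)
  hp : ∀ g v, p (ρV g v) = ρ g (p v)
  hμ : ∀ g, μ g ≠ 0
  hB : ∀ g x y, B (ρ g x) (ρ g y) = μ g * B x y
  he : ∀ a, e a * e a = 1
  hrev : ∀ a, e a.rev = ε * e a
  hε : ε * ε = 1
  hgram : ∀ a b, B (t a) (t b) = if b = a.rev then (e a : K) else 0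
  hsy : ∀ x y, B x y = (ε : K) * B y x
  hft : ∀ a, f (Sum.inr a) = i (t a)
  hfc : ∀ c, p (f (Sum.inl c)) = 0

variable {K : Type u} [Field K] [CharZero K] {V : Type v} [AddCommGroup V] [Module K V]
  {E : Type w} [AddCommGroup E] [Module K E] {G : Type x} [Group G] {T : Type y}
  [AddCommGroup T] [Module K T] {C : Type} [Fintype C] [DecidableEq C] {n : ℕ}
  (dt : Dat K V E G T C n) {N : ℕ}

/-- contraction with insertion of the form -/
noncomputable def Dat.kb {s s' : Fin N} (h : s ≠ s') :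
    Module.End K (MultilinearMap K (fun _ : Fin N => V) E) :=
  Kop dt.e (fun a => dt.f (Sum.inr a)) (thB dt.p dt.B) s s' h

/-- contraction with insertion of a letter -/
noncomputable def Dat.k1 (c1 : C) {s s' : Fin N} (h : s ≠ s') :
    Module.End K (MultilinearMap K (fun _ : Fin N => V) E) :=
  Kop dt.e (fun a => dt.f (Sum.inr a)) (LinearMap.BilinForm.linMulLin (dt.f.coord (Sum.inl c1))
    (dt.f.coord (Sum.inl c1))) s s' h

variable {dt}

theorem stb_sSup {ρV : G →* (V →ₗ[K] V)} {σ : G →* (E →ₗ[K] E)} {Δ : Subgroup G}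
    {A : Set (Submodule K (MultilinearMap K (fun _ : Fin N => V) E))}
    (h : ∀ U ∈ A, Stb ρV σ Δ U) : Stb ρV σ Δ (sSup A) := by
  intro g hg
  have h1 : sSup A ≤ (sSup A).comap (gact (Fin N) ρV σ g) :=
    sSup_le fun U hU h' hh' => (le_sSup hU) (h U hU g hg h' hh')
  exact fun h' hh' => h1 hh'

theorem stb_map {ρV : G →* (V →ₗ[K] V)} {σ : G →* (E →ₗ[K] E)} {Δ : Subgroup G}
    {U : Submodule K (MultilinearMap K (fun _ : Fin N => V) E)} (hU : Stb ρV σ Δ U)
    {k : Module.End K (MultilinearMap K (fun _ : Fin N => V) E)} {ν : G → K}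
    (hk : ∀ g ∈ Δ, ∀ h, gact (Fin N) ρV σ g (k h) = ν g • k (gact (Fin N) ρV σ g h)) :
    Stb ρV σ Δ (U.map k) := by
  rintro g hg _ ⟨h, hh, rfl⟩
  rw [hk g hg]
  exact Submodule.smul_mem _ _ ⟨_, hU g hg h hh, rfl⟩

/-- the type after contraction -/
theorem co_k {θ : V →ₗ[K] V →ₗ[K] K} {s s' : Fin N} (hss : s ≠ s') {τ : Fin N → Option C}
    {h : MultilinearMap K (fun _ : Fin N => V) E} (hh : h ∈ Ty K E dt.f τ)
    {r : Fin N → C ⊕ Fin n}
    (hr : co dt.f (Kop dt.e (fun a => dt.f (Sum.inr a)) θ s s' hss h) r ≠ 0) :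
    θ (dt.f (r s)) (dt.f (r s')) ≠ 0 ∧ τ s = none ∧ τ s' = none ∧
      ∀ j, j ≠ s → j ≠ s' → pt r j = τ j := by
  rw [co_Kop hss] at hr
  obtain ⟨h1, h2⟩ := smul_ne_zero_iff.1 hr
  refine ⟨h1, ?_⟩
  obtain ⟨a, -, ha⟩ := Finset.exists_ne_zero_of_sum_ne_zero h2
  have h3 : co dt.f h (update (update r s (Sum.inr a)) s' (Sum.inr a.rev)) ≠ 0 := by
    intro h4
    rw [h4, smul_zero] at ha
    exact ha rfl
  have h4 := hh _ h3
  refine ⟨?_, ?_, fun j hj hj' => ?_⟩
  · rw [← h4, pt, update_of_ne hss, update_self]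
    rfl
  · rw [← h4, pt, update_self]
    rfl
  · rw [← h4, pt, pt, update_of_ne hj', update_of_ne hj]

theorem k_zero {θ : V →ₗ[K] V →ₗ[K] K} {s s' : Fin N} (hss : s ≠ s') {τ : Fin N → Option C}
    {h : MultilinearMap K (fun _ : Fin N => V) E} (hh : h ∈ Ty K E dt.f τ)
    (hτ : ¬ (τ s = none ∧ τ s' = none)) :
    Kop dt.e (fun a => dt.f (Sum.inr a)) θ s s' hss h = 0 := by
  refine co_inj (f := dt.f) ?_
  funext r
  by_contra hr
  obtain ⟨-, h1, h2, -⟩ := co_k hss hh hr
  exact hτ ⟨h1, h2⟩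

theorem kb_ty {s s' : Fin N} (hss : s ≠ s') {τ : Fin N → Option C}
    {h : MultilinearMap K (fun _ : Fin N => V) E} (hh : h ∈ Ty K E dt.f τ) :
    dt.kb hss h ∈ Ty K E dt.f τ := by
  intro r hr
  obtain ⟨h1, h2, h3, h4⟩ := co_k hss hh hr
  rw [thB_f dt.hpi dt.hft dt.hfc dt.hgram] at h1
  funext j
  by_cases hj : j = s
  · subst hj
    rw [h2, pt_none]
    rcases hc : r j with c | a
    · exfalso
      apply h1
      rw [hc, bt, Int.cast_zero]
      intro a b h
      cases h
    · exact ⟨a, rfl⟩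
  · by_cases hj' : j = s'
    · subst hj'
      rw [h3, pt_none]
      rcases hc : r j with c | a
      · exfalso
        apply h1
        rw [hc, bt, Int.cast_zero]
        intro a b h h'
        cases h'
      · exact ⟨a, rfl⟩
    · exact h4 j hj hj'

/-- the type after the insertion of a letter -/
def ty1 (c1 : C) (s s' : Fin N) (τ : Fin N → Option C) : Fin N → Option C :=
  update (update τ s (some c1)) s' (some c1)

theorem k1_ty {c1 : C} {s s' : Fin N} (hss : s ≠ s') {τ : Fin N → Option C}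
    {h : MultilinearMap K (fun _ : Fin N => V) E} (hh : h ∈ Ty K E dt.f τ) :
    dt.k1 c1 hss h ∈ Ty K E dt.f (ty1 c1 s s' τ) := by
  intro r hr
  obtain ⟨h1, h2, h3, h4⟩ := co_k hss hh hr
  rw [LinearMap.BilinForm.linMulLin_apply] at h1
  have h5 : ∀ j : C ⊕ Fin n, dt.f.coord (Sum.inl c1) (dt.f j) ≠ 0 → j = Sum.inl c1 := by
    intro j hj
    rw [Module.Basis.coord_apply, Module.Basis.repr_self] at hj
    by_contra hne
    rw [Finsupp.single_eq_of_ne (Ne.symm hne)] at hj
    exact hj rfl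
  have h6 := h5 _ (left_ne_zero_of_mul h1)
  have h7 := h5 _ (right_ne_zero_of_mul h1)
  funext j
  unfold ty1
  by_cases hj' : j = s'
  · subst hj'
    rw [update_self, pt, h7]
    rfl
  · rw [update_of_ne hj']
    by_cases hj : j = s
    · subst hj
      rw [update_self, pt, h6]
      rfl
    · rw [update_of_ne hj]
      exact h4 j hj hj'

theorem card_ty1 {c1 : C} {s s' : Fin N} {τ : Fin N → Option C} (hs : τ s = none) :
    (univ.filter fun j => ty1 c1 s s' τ j = none).card < (univ.filter fun j => τ j = none).card := by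
  refine Finset.card_lt_card ?_
  rw [Finset.ssubset_iff_of_subset]
  · refine ⟨s, by simp [hs], ?_⟩
    simp only [Finset.mem_filter, Finset.mem_univ, true_and]
    unfold ty1
    by_cases hss : s = s'
    · subst hss
      rw [update_self]
      simp
    · rw [update_of_ne hss, update_self]
      simp
  · intro j hj
    simp only [Finset.mem_filter, Finset.mem_univ, true_and] at hj ⊢
    unfold ty1 at hj
    by_cases hj' : j = s'
    · subst hj'
      rw [update_self] at hj
      cases hj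
    · rw [update_of_ne hj'] at hj
      by_cases hjs : j = s
      · subst hjs
        rw [update_self] at hj
        cases hj
      · rwa [update_of_ne hjs] at hj

end core

end Pool.Agent.W5h58.NF
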