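import Pool.Agent.W5h58.NF.High

/-!
# The operator `K` (contraction and insertion) in coordinates: positivity
-/

set_option autoImplicit false
set_option linter.unusedSectionVars false

open Finset Function

namespace Pool.Agent.W5h58.NF

section words

variable {C : Type} [DecidableEq C] {n : ℕ} {S : Type} [Fintype S] [DecidableEq S]
  {M : Type*} [AddCommGroup M]

/-- the Gram matrix -/
def bt (e : Fin n → ℤ) : C ⊕ Fin n → C ⊕ Fin n → ℤ
  | Sum.inr a, Sum.inr b => if b = a.rev then e a else 0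
  | _, _ => 0

/-- contraction and insertion -/
def Ko (e : Fin n → ℤ) (c : (S → C ⊕ Fin n) → M) (r : S → C ⊕ Fin n) : M :=
  ∑ p : S × S, if p.1 ≠ p.2 then bt e (r p.1) (r p.2) • tro e p.1 p.2 c r else 0

theorem tro_update {e : Fin n → ℤ} {s t : S} (hst : s ≠ t) (c : (S → C ⊕ Fin n) → M)
    (r : S → C ⊕ Fin n) (j j' : C ⊕ Fin n) :
    tro e s t c (update (update r s j) t j') = tro e s t c r := by
  unfold tro
  refine Finset.sum_congr rfl fun a _ => ?_
  congr 2
  rw [update_comm hst.symm, update_idem, update_idem]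

variable [Fintype C]

theorem sum_one {A : Type*} [AddCommMonoid A] (s : S) (j0 : C ⊕ Fin n)
    (g : (S → C ⊕ Fin n) → A) :
    ∑ r, g r = ∑ r : S → C ⊕ Fin n, if r s = j0 then ∑ j, g (update r s j) else 0 := by
  have h1 : ∀ r : S → C ⊕ Fin n, (if r s = j0 then ∑ j, g (update r s j) else 0) =
      ∑ j, if r s = j0 then g (update r s j) else 0 := by
    intro r
    by_cases h : r s = j0
    · simp only [if_pos h]
    · simp only [if_neg h, Finset.sum_const_zero]
  rw [Finset.sum_congr rfl fun r _ => h1 r, Finset.sum_comm]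
  have h2 : ∀ j : C ⊕ Fin n, ∑ r : S → C ⊕ Fin n, (if r s = j0 then g (update r s j) else 0) =
      ∑ r : S → C ⊕ Fin n, (if r s = j then g r else 0) := by
    intro j
    exact sum_exch s j0 j (fun r' _ => g r')
  rw [Finset.sum_congr rfl fun j _ => h2 j, Finset.sum_comm]
  refine Finset.sum_congr rfl fun r _ => ?_
  rw [Finset.sum_ite_eq]
  simp

theorem sum_two {A : Type*} [AddCommMonoid A] {s t : S} (hst : s ≠ t) (j0 : C ⊕ Fin n)
    (g : (S → C ⊕ Fin n) → A) :
    ∑ r, g r = ∑ r : S → C ⊕ Fin n, if r s = j0 ∧ r t = j0 then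
      ∑ j, ∑ j', g (update (update r s j) t j') else 0 := by
  rw [sum_one t j0, sum_one s j0]
  refine Finset.sum_congr rfl fun r _ => ?_
  by_cases hs : r s = j0
  · rw [if_pos hs]
    by_cases ht : r t = j0
    · rw [if_pos ⟨hs, ht⟩]
      refine Finset.sum_congr rfl fun j _ => ?_
      rw [update_of_ne hst.symm, if_pos ht]
    · rw [if_neg (fun h => ht h.2)]
      refine Finset.sum_eq_zero fun j _ => ?_
      rw [update_of_ne hst.symm, if_neg ht]
  · rw [if_neg hs, if_neg (fun h => hs h.1)]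

/-- summation against the Gram matrix -/
theorem sum_bt {A : Type*} [AddCommGroup A] (e : Fin n → ℤ) (g : C ⊕ Fin n → C ⊕ Fin n → A) :
    ∑ j, ∑ j', bt e j j' • g j j' = ∑ a : Fin n, e a • g (Sum.inr a) (Sum.inr a.rev) := by
  rw [Fintype.sum_sum_type, Finset.sum_eq_zero (fun c _ => Finset.sum_eq_zero fun j' _ => by
    rw [bt]
    · rw [zero_smul]
    · intro a b h
      cases h), zero_add]
  refine Finset.sum_congr rfl fun a _ => ?_
  rw [Fintype.sum_sum_type, Finset.sum_eq_zero (fun c _ => by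
    rw [bt]
    · rw [zero_smul]
    · intro a b h h'
      cases h'), zero_add]
  simp only [bt]
  rw [Finset.sum_eq_single a.rev]
  · rw [if_pos rfl]
  · intro b _ hb
    rw [if_neg hb, zero_smul]
  · intro h
    exact absurd (Finset.mem_univ _) h

theorem ip_Ko (e : Fin n → ℤ) (j0 : C ⊕ Fin n) (g f : (S → C ⊕ Fin n) → ℚ) :
    ip g (Ko e f) = ∑ p : S × S, if p.1 ≠ p.2 then
      ∑ r : S → C ⊕ Fin n, (if r p.1 = j0 ∧ r p.2 = j0 then
        tro e p.1 p.2 g r * tro e p.1 p.2 f r else 0) else 0 := by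
  unfold ip Ko
  simp only [Finset.mul_sum]
  rw [Finset.sum_comm]
  refine Finset.sum_congr rfl fun p _ => ?_
  by_cases hp : p.1 ≠ p.2
  · simp only [if_pos hp]
    rw [sum_two hp j0]
    refine Finset.sum_congr rfl fun r _ => ?_
    by_cases hr : r p.1 = j0 ∧ r p.2 = j0
    · rw [if_pos hr, if_pos hr]
      have h1 : ∀ j j' : C ⊕ Fin n, g (update (update r p.1 j) p.2 j') *
          (bt e (update (update r p.1 j) p.2 j' p.1) (update (update r p.1 j) p.2 j' p.2) •
            tro e p.1 p.2 f (update (update r p.1 j) p.2 j')) =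
          bt e j j' • (g (update (update r p.1 j) p.2 j') * tro e p.1 p.2 f r) := by
        intro j j'
        rw [update_self, update_of_ne hp, update_self, tro_update hp, mul_smul_comm]
      rw [Finset.sum_congr rfl fun j _ => Finset.sum_congr rfl fun j' _ => h1 j j', sum_bt]
      conv_rhs => rw [tro, Finset.sum_mul]
      refine Finset.sum_congr rfl fun a _ => ?_
      rw [smul_mul_assoc]
    · rw [if_neg hr, if_neg hr]
  · simp only [if_neg hp, mul_zero, Finset.sum_const_zero]

theorem Ko_ker_rat (e : Fin n → ℤ) (j0 : C ⊕ Fin n) {f : (S → C ⊕ Fin n) → ℚ}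
    (h : Ko e f = 0) : ∀ s t, s ≠ t → ∀ r, tro e s t f r = 0 := by
  have h1 := ip_Ko e j0 f f
  have h2 : ip f (Ko e f) = 0 := by rw [h]; simp [ip]
  rw [h2] at h1
  have hnn : ∀ p ∈ (univ : Finset (S × S)), (0 : ℚ) ≤ if p.1 ≠ p.2 then
      ∑ r : S → C ⊕ Fin n, (if r p.1 = j0 ∧ r p.2 = j0 then
        tro e p.1 p.2 f r * tro e p.1 p.2 f r else 0) else 0 := by
    intro p _
    split_ifs
    · refine Finset.sum_nonneg fun r _ => ?_
      split_ifs
      · exact mul_self_nonneg _
      · exact le_rfl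
    · exact le_rfl
  have h3 := (Finset.sum_eq_zero_iff_of_nonneg hnn).1 h1.symm
  intro s t hst r
  have h4 := h3 (s, t) (Finset.mem_univ _)
  rw [if_pos hst] at h4
  have h5 := (Finset.sum_eq_zero_iff_of_nonneg (fun r _ => by
    split_ifs
    · exact mul_self_nonneg _
    · exact le_rfl)).1 h4 (update (update r s j0) t j0) (Finset.mem_univ _)
  rw [if_pos ⟨by rw [update_of_ne hst, update_self], update_self _ _ _⟩, tro_update hst] at h5
  exact mul_self_eq_zero.1 h5

end words

section general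

variable {K : Type*} [Field K] [CharZero K] {C : Type} [DecidableEq C] [Fintype C] {n : ℕ}
  {S : Type} [Fintype S] [DecidableEq S] {M : Type*} [AddCommGroup M] [Module K M]

theorem map_tro (ψ : M →+ ℚ) (e : Fin n → ℤ) (s t : S) (c : (S → C ⊕ Fin n) → M)
    (r : S → C ⊕ Fin n) : ψ (tro e s t c r) = tro e s t (fun r => ψ (c r)) r := by
  rw [tro, tro, map_sum]
  exact Finset.sum_congr rfl fun a _ => map_zsmul ψ _ _

theorem map_Ko (ψ : M →+ ℚ) (e : Fin n → ℤ) (c : (S → C ⊕ Fin n) → M)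
    (r : S → C ⊕ Fin n) : ψ (Ko e c r) = Ko e (fun r => ψ (c r)) r := by
  rw [Ko, Ko, map_sum]
  refine Finset.sum_congr rfl fun p _ => ?_
  rw [apply_ite ψ, map_zsmul, map_tro, map_zero]

include K in
/-- **The kernel of `K`.** -/
theorem Ko_ker (e : Fin n → ℤ) (j0 : C ⊕ Fin n) {c : (S → C ⊕ Fin n) → M} (h : Ko e c = 0) :
    ∀ s t, s ≠ t → ∀ r, tro e s t c r = 0 := by
  intro s t hst r
  by_contra hne
  obtain ⟨ψ, hψ⟩ := exists_addHom (K := K) hne
  apply hψ
  rw [map_tro]
  refine Ko_ker_rat e j0 ?_ s t hst r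
  funext r
  rw [← map_Ko, h]
  exact map_zero ψ

include K in
/-- **`K` is semisimple at zero.** -/
theorem Ko_sq (e : Fin n → ℤ) (j0 : C ⊕ Fin n) {c : (S → C ⊕ Fin n) → M}
    (h : Ko e (Ko e c) = 0) : Ko e c = 0 := by
  by_contra hne
  obtain ⟨r, hr⟩ : ∃ r, Ko e c r ≠ 0 := by
    by_contra hcon
    push Not at hcon
    exact hne (funext hcon)
  obtain ⟨ψ, hψ⟩ := exists_addHom (K := K) hr
  apply hψ
  set f : (S → C ⊕ Fin n) → ℚ := fun r => ψ (c r) with hf
  have h1 : Ko e (Ko e f) = 0 := by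
    have h2 : Ko e f = fun r => ψ (Ko e c r) := by
      funext r
      exact (map_Ko ψ e c r).symm
    rw [h2]
    funext r
    rw [← map_Ko, h]
    exact map_zero ψ
  have h3 := Ko_ker_rat e j0 h1
  have h4 : ip (Ko e f) (Ko e f) = 0 := by
    rw [ip_Ko e j0]
    refine Finset.sum_eq_zero fun p _ => ?_
    by_cases hp : p.1 ≠ p.2
    · rw [if_pos hp]
      refine Finset.sum_eq_zero fun r _ => ?_
      rw [h3 p.1 p.2 hp r, zero_mul, ite_self]
    · rw [if_neg hp]
  have h5 := (Finset.sum_eq_zero_iff_of_nonneg fun r _ => mul_self_nonneg (Ko e f r)).1 h4 r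
    (Finset.mem_univ r)
  rw [map_Ko]
  exact mul_self_eq_zero.1 h5

end general

end Pool.Agent.W5h58.NF
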