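import Pool.Agent.W5h58.NF.Ops
import Pool.Agent.W5h58.NF.Full
import Pool.Agent.TH125.Gal.Chev

/-!
# The Lie algebra of the operators which preserve all stable spaces of multilinear maps
-/

set_option autoImplicit false
set_option linter.unusedSectionVars false

open Finset Function

namespace Pool.Agent.W5h58.NF

open Pool.Agent.TH125.Gal

universe u v w x y

section lie

variable {K : Type u} [Field K] [CharZero K] {V : Type v} [AddCommGroup V] [Module K V]
  {E : Type w} [AddCommGroup E] [Module K E] {S : Type} [Fintype S] [DecidableEq S]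
  {G : Type x} [Group G] {T : Type y} [AddCommGroup T] [Module K T]

/-- the action of the group on multilinear maps -/
noncomputable def gact (S : Type) (ρV : G →* (V →ₗ[K] V)) (σ : G →* (E →ₗ[K] E)) :
    G →* Module.End K (MultilinearMap K (fun _ : S => V) E) where
  toFun g := act S (ρV g⁻¹) (σ g)
  map_one' := by
    ext h v
    rw [act_apply, inv_one, map_one, map_one]
    rfl
  map_mul' g g' := by
    ext h v
    rw [act_apply, mul_inv_rev, map_mul, map_mul]
    rfl

theorem gact_apply (ρV : G →* (V →ₗ[K] V)) (σ : G →* (E →ₗ[K] E)) (g : G)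
    (h : MultilinearMap K (fun _ : S => V) E) (v : S → V) :
    gact S ρV σ g h v = σ g (h fun j => ρV g⁻¹ (v j)) := rfl

/-- stable subspaces -/
def Stb (ρV : G →* (V →ₗ[K] V)) (σ : G →* (E →ₗ[K] E)) (Δ : Subgroup G)
    (U : Submodule K (MultilinearMap K (fun _ : S => V) E)) : Prop :=
  ∀ g ∈ Δ, ∀ h ∈ U, gact S ρV σ g h ∈ U

/-- the extension of an operator -/
def ext (i : T →ₗ[K] V) (p : V →ₗ[K] T) (A : T →ₗ[K] T) : V →ₗ[K] V := i ∘ₗ A ∘ₗ p

/-- The skew operators which preserve all stable subspaces. -/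
noncomputable def LS (S : Type) [Fintype S] [DecidableEq S] (i : T →ₗ[K] V) (p : V →ₗ[K] T)
    (B : T →ₗ[K] T →ₗ[K] K) (ρV : G →* (V →ₗ[K] V)) (σ : G →* (E →ₗ[K] E)) :
    Submodule K (T →ₗ[K] T) where
  carrier := {A | Skew B A ∧ ∀ Δ : Subgroup G, Δ.FiniteIndex →
    ∀ U : Submodule K (MultilinearMap K (fun _ : S => V) E), Stb ρV σ Δ U →
      ∀ h ∈ U, Dop (ext i p A) h ∈ U}
  zero_mem' := by
    refine ⟨fun x y => by simp, fun Δ _ U _ h _ => ?_⟩
    have h1 : Dop (ext i p 0) h = 0 := by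
      ext v
      rw [Dop_apply]
      refine Finset.sum_eq_zero fun j _ => ?_
      exact h.map_coord_zero j (by rw [update_self]; simp [ext])
    rw [h1]
    exact U.zero_mem
  add_mem' := by
    rintro A A' ⟨hA, hA'⟩ ⟨hB, hB'⟩
    refine ⟨fun x y => ?_, fun Δ hΔ U hU h hh => ?_⟩
    · rw [LinearMap.add_apply, LinearMap.add_apply, map_add, map_add, LinearMap.add_apply]
      linear_combination hA x y + hB x y
    · have h1 : ext i p (A + A') = ext i p A + ext i p A' := by
        ext x
        simp [ext]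
      rw [h1, Dop_add, LinearMap.add_apply]
      exact U.add_mem (hA' Δ hΔ U hU h hh) (hB' Δ hΔ U hU h hh)
  smul_mem' := by
    rintro c A ⟨hA, hA'⟩
    refine ⟨fun x y => ?_, fun Δ hΔ U hU h hh => ?_⟩
    · rw [LinearMap.smul_apply, LinearMap.smul_apply, map_smul, map_smul, LinearMap.smul_apply,
        ← smul_add, hA, smul_zero]
    · have h1 : ext i p (c • A) = c • ext i p A := by
        ext x
        simp [ext]
      rw [h1, Dop_smul, LinearMap.smul_apply]
      exact U.smul_mem c (hA' Δ hΔ U hU h hh)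

variable {i : T →ₗ[K] V} {p : V →ₗ[K] T} {B : T →ₗ[K] T →ₗ[K] K} {ρV : G →* (V →ₗ[K] V)}
  {ρ : G →* (T →ₗ[K] T)} {σ : G →* (E →ₗ[K] E)} {μ : G → K}

theorem ext_comp (hpi : ∀ t, p (i t) = t) (A A' : T →ₗ[K] T) :
    ext i p A ∘ₗ ext i p A' = ext i p (A ∘ₗ A') := by
  ext x
  simp [ext, hpi]

/-- **The Lie algebra is normalized by the group.** -/
theorem lieG (hpi : ∀ t, p (i t) = t) (hi : ∀ g t, i (ρ g t) = ρV g (i t))
    (hp : ∀ g v, p (ρV g v) = ρ g (p v))
    (hB : ∀ g x y, B (ρ g x) (ρ g y) = μ g * B x y) :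
    LieG B ρ (LS S i p B ρV σ) where
  skew h := h.1
  br := by
    rintro A A' ⟨hA, hA'⟩ ⟨hB, hB'⟩
    refine ⟨skew_bracket hA hB, fun Δ hΔ U hU h hh => ?_⟩
    have h1 : ext i p (A ∘ₗ A' - A' ∘ₗ A) = ext i p A ∘ₗ ext i p A' - ext i p A' ∘ₗ ext i p A := by
      rw [ext_comp hpi, ext_comp hpi]
      ext x
      simp [ext]
    rw [h1, ← Dop_bracket, LinearMap.sub_apply, Module.End.mul_apply, Module.End.mul_apply]
    exact U.sub_mem (hB' Δ hΔ U hU _ (hA' Δ hΔ U hU h hh)) (hA' Δ hΔ U hU _ (hB' Δ hΔ U hU h hh))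
  cj := by
    rintro A ⟨hA, hA'⟩ γ
    refine ⟨fun x y => ?_, fun Δ hΔ U hU h hh => ?_⟩
    · have h1 := hA (ρ γ⁻¹ x) (ρ γ⁻¹ y)
      have h2 := hB γ (A (ρ γ⁻¹ x)) (ρ γ⁻¹ y)
      have h3 := hB γ (ρ γ⁻¹ x) (A (ρ γ⁻¹ y))
      rw [rho_inv] at h2 h3
      rw [LinearMap.comp_apply, LinearMap.comp_apply, LinearMap.comp_apply, LinearMap.comp_apply,
        h2, h3, ← mul_add, h1, mul_zero]
    · set U' : Submodule K (MultilinearMap K (fun _ : S => V) E) := U.comap (gact S ρV σ γ)
        with hU'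
      set Δ' : Subgroup G := Δ.comap (MulAut.conj γ).toMonoidHom with hΔ'
      have h1 : Δ'.FiniteIndex := ⟨by
        rw [Subgroup.index_comap_of_surjective]
        · exact hΔ.index_ne_zero
        · exact (MulAut.conj γ).surjective⟩
      have h2 : Stb ρV σ Δ' U' := by
        intro g hg h hh
        have hg' : γ * g * γ⁻¹ ∈ Δ := hg
        rw [hU', Submodule.mem_comap] at hh ⊢
        have h3 := hU _ hg' _ hh
        rw [← Module.End.mul_apply, ← map_mul, inv_mul_cancel_right, map_mul,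
          Module.End.mul_apply] at h3
        exact h3
      have h3 : gact S ρV σ γ⁻¹ h ∈ U' := by
        rw [hU', Submodule.mem_comap, ← Module.End.mul_apply, ← map_mul, mul_inv_cancel, map_one]
        exact hh
      have h4 := hA' Δ' h1 U' h2 _ h3
      rw [hU', Submodule.mem_comap] at h4
      have h5 : gact S ρV σ γ (Dop (ext i p A) (gact S ρV σ γ⁻¹ h)) =
          Dop (ext i p (ρ γ ∘ₗ A ∘ₗ ρ γ⁻¹)) h := by
        ext v
        rw [gact_apply, Dop_apply, map_sum, Dop_apply]
        refine Finset.sum_congr rfl fun j _ => ?_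
        rw [gact_apply, ← Module.End.mul_apply, ← map_mul, mul_inv_cancel, map_one]
        change h _ = h _
        congr 1
        funext k
        rw [inv_inv]
        by_cases hk : k = j
        · subst hk
          rw [update_self, update_self]
          change ρV γ (i (A (p (ρV γ⁻¹ (v k))))) = i (ρ γ (A (ρ γ⁻¹ (p (v k)))))
          rw [hi, hp]
        · rw [update_of_ne hk, update_of_ne hk, rho_inv]
      rw [h5] at h4
      exact h4

/-- **Derivatives of families in a subspace.** -/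
theorem deriv_mem {U : Submodule K (MultilinearMap K (fun _ : S => V) E)}
    {h : MultilinearMap K (fun _ : S => V) E} (a b c : V →ₗ[K] V)
    (hinf : {x : K | h.compLinearMap (fun _ => a + x • b + x ^ 2 • c) ∈ U}.Infinite) :
    ∑ j : S, h.compLinearMap (update (fun _ => a) j b) ∈ U := by
  set H : MultilinearMap K (fun _ : S => (V →ₗ[K] V))
      (MultilinearMap K (fun _ : S => V) E ⧸ U) :=
    ((U.mkQ) ∘ₗ (LinearMap.applyₗ h)).compMultilinearMap
      (MultilinearMap.compLinearMapMultilinear) with hH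
  have hHa : ∀ A : S → (V →ₗ[K] V), H A = U.mkQ (h.compLinearMap A) := fun A => rfl
  rcases isEmpty_or_nonempty S with hS | ⟨⟨j0⟩⟩
  · rw [Finset.univ_eq_empty, Finset.sum_empty]
    exact U.zero_mem
  have h1 := deriv_eq H (fun _ => a) (fun _ => b) (fun _ => c) (fun _ => 0) (fun _ => 0)
    (fun _ => 0) (hinf.mono fun x hx => by
      rw [Set.mem_ofPred_eq] at hx ⊢
      have h5 : U.mkQ (h.compLinearMap (fun _ => a + x • b + x ^ 2 • c)) = 0 :=
        (Submodule.Quotient.mk_eq_zero U).2 hx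
      rw [hHa, h5]
      symm
      exact H.map_coord_zero j0 (by simp))
  have h2 : ∑ j : S, H (update (fun _ => (0 : V →ₗ[K] V)) j ((fun _ => (0 : V →ₗ[K] V)) j)) = 0 :=
    Finset.sum_eq_zero fun j _ => H.map_coord_zero j (update_self _ _ _)
  rw [h2] at h1
  rw [← Submodule.Quotient.mk_eq_zero U]
  refine Eq.trans ?_ h1
  change U.mkQ _ = _
  rw [map_sum]
  rfl

/-- **transvections** -/
theorem odd_mem (hpi : ∀ t, p (i t) = t) (hsk : ∀ x y, B x y = -B y x) {g : G} {δ : T} {c : K}
    (hc : c ≠ 0) (hg : ∀ x, ρV g x = x + (c * B δ (p x)) • i δ) (hσ : σ g = 1) :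
    rk B δ δ ∈ LS S i p B ρV σ := by
  have hδ : B δ δ = 0 := by
    have h1 := hsk δ δ
    have h2 : (2 : K) * B δ δ = 0 := by linear_combination h1
    rcases mul_eq_zero.1 h2 with h | h
    · exact absurd h two_ne_zero
    · exact h
  have hpow : ∀ (n : ℕ) x, ρV (g ^ n) x = x + ((n : K) * c * B δ (p x)) • i δ := by
    intro n
    induction n with
    | zero =>
      intro x
      rw [pow_zero, map_one]
      simp
    | succ n ih =>
      intro x
      rw [pow_succ, map_mul, Module.End.mul_apply, hg, ih, map_add, map_smul, hpi, map_add,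
        map_smul, hδ, smul_zero, add_zero]
      push_cast
      module
  refine ⟨fun x y => ?_, fun Δ hΔ U hU h hh => ?_⟩
  · rw [rk_apply, rk_apply, map_smul, map_smul, LinearMap.smul_apply, smul_eq_mul, smul_eq_mul,
      hsk x δ]
    ring
  · obtain ⟨n, hn, hgn⟩ := exists_pow hΔ g
    have h2 : {x : K | h.compLinearMap (fun _ => LinearMap.id + x • (c • ext i p (rk B δ δ)) +
        x ^ 2 • (0 : V →ₗ[K] V)) ∈ U}.Infinite := by
      refine Set.infinite_of_injective_forall_mem (f := fun l : ℕ => ((n * l : ℕ) : K)) ?_ ?_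
      · intro l l' hl
        have h3 : ((n * l : ℕ) : K) = ((n * l' : ℕ) : K) := hl
        have h4 : n * l = n * l' := Nat.cast_injective h3
        exact Nat.eq_of_mul_eq_mul_left hn h4
      · intro l
        have h3 : (g ^ (n * l))⁻¹ ∈ Δ := by
          rw [pow_mul]
          exact Subgroup.inv_mem _ (Subgroup.pow_mem _ hgn l)
        have h4 := hU _ h3 h hh
        rw [Set.mem_ofPred_eq]
        have h5 : gact S ρV σ (g ^ (n * l))⁻¹ h = h.compLinearMap (fun _ => LinearMap.id +
            ((n * l : ℕ) : K) • (c • ext i p (rk B δ δ)) +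
            ((n * l : ℕ) : K) ^ 2 • (0 : V →ₗ[K] V)) := by
          ext v
          have hσ' : σ (g ^ (n * l))⁻¹ = 1 := by
            have h6 : σ (g ^ (n * l)) = 1 := by rw [map_pow, hσ, one_pow]
            have h7 := map_mul σ (g ^ (n * l))⁻¹ (g ^ (n * l))
            rw [inv_mul_cancel, map_one, h6, mul_one] at h7
            exact h7.symm
          rw [gact_apply, hσ', inv_inv]
          change h _ = h _
          congr 1
          funext j
          rw [hpow]
          simp only [smul_zero, add_zero]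
          change _ = v j + ((n * l : ℕ) : K) • (c • i ((rk B δ δ) (p (v j))))
          rw [rk_apply, map_smul, smul_smul, smul_smul]
        rw [← h5]
        exact h4
    have h3 := deriv_mem _ _ _ h2
    have h4 : ∑ j : S, h.compLinearMap (update (fun _ => (LinearMap.id : V →ₗ[K] V)) j
        (c • ext i p (rk B δ δ))) = c • Dop (ext i p (rk B δ δ)) h := by
      rw [← LinearMap.smul_apply, ← Dop_smul, Dop, LinearMap.sum_apply]
      rfl
    rw [h4] at h3
    have h5 := U.smul_mem c⁻¹ h3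
    rwa [smul_smul, inv_mul_cancel₀ hc, one_smul] at h5

end lie

section lines

variable {K : Type u} [Field K] [CharZero K] {G : Type x} [Group G] {T : Type y}
  [AddCommGroup T] [Module K T] {B : T →ₗ[K] T →ₗ[K] K} {ρ : G →* (T →ₗ[K] T)} {μ : G → K}

/-- infinitely many conjugates of a reflection -/
theorem exists_lines (hsy : ∀ x y, B x y = B y x) (hμ : ∀ g, μ g ≠ 0)
    (hB : ∀ g x y, B (ρ g x) (ρ g y) = μ g * B x y) {g γ : G} {δ : T} (hq : B δ δ ≠ 0)
    (hg : ∀ x, ρ g x = refl B δ x)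
    (hinf : ∀ m ≥ 1, ∃ x, ρ ((g * (γ * g * γ⁻¹)) ^ m) x ≠ x) {n : ℕ} (hn : 0 < n) :
    {x : K | B (δ + x • ρ γ δ) (δ + x • ρ γ δ) ≠ 0 ∧ ∃ l : ℕ, ∀ y,
      refl B (δ + x • ρ γ δ) y = ρ ((g * (γ * g * γ⁻¹)) ^ (2 * (n * l))) (ρ g y)}.Infinite := by
  set δ' := ρ γ δ with hδ'
  set g' := γ * g * γ⁻¹ with hg'
  set t := g * g' with ht
  have hinv : ∀ x, ρ γ (ρ γ⁻¹ x) = x := fun x => rho_inv ρ γ x
  have hg'' : ∀ x, ρ g' x = refl B δ' x := by
    intro x
    rw [hg', map_mul, map_mul, Module.End.mul_apply, Module.End.mul_apply, hg,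
      refl_conj (hμ γ) (hB γ), hinv]
  have hq' : B δ' δ' ≠ 0 := by
    rw [hδ', hB]
    exact mul_ne_zero (hμ γ) hq
  have hR : ∀ x, ρ g (ρ g x) = x := fun x => by rw [hg, hg, refl_refl hq]
  have hR' : ∀ x, ρ g' (ρ g' x) = x := fun x => by rw [hg'', hg'', refl_refl hq']
  have hiso : ∀ m x y, B (ρ (t ^ m) x) (ρ (t ^ m) y) = B x y := by
    have h1 : ∀ w, B w w ≠ 0 → ∀ x y, B (refl B w x) (refl B w y) = B x y := by
      intro w hw x y
      rw [refl_apply, refl_apply, map_sub, map_sub, map_smul, map_smul, LinearMap.sub_apply,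
        LinearMap.sub_apply, LinearMap.smul_apply, LinearMap.smul_apply]
      simp only [smul_eq_mul]
      rw [hsy x w]
      field_simp
      ring
    intro m
    induction m with
    | zero => intro x y; rw [pow_zero, map_one]; rfl
    | succ m ih =>
      intro x y
      rw [pow_succ, map_mul, Module.End.mul_apply, Module.End.mul_apply, ih, ht, map_mul,
        Module.End.mul_apply, Module.End.mul_apply, hg, hg, h1 δ hq, hg'', hg'', h1 δ' hq']
  have hrefl : ∀ m x, refl B (ρ (t ^ m) δ) x = ρ (t ^ (2 * m)) (ρ g x) := by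
    intro m x
    obtain ⟨y, rfl⟩ : ∃ y, ρ (t ^ m) y = x := ⟨ρ (t ^ m)⁻¹ x, rho_inv ρ _ x⟩
    rw [← refl_conj (t := ρ (t ^ m)) (m := (1 : K)) one_ne_zero (fun x y => by
      rw [hiso, one_mul]) δ y, ← hg]
    have h1 := dihedral hR hR' m y
    rw [← map_mul, ← ht, ← map_pow] at h1
    rw [two_mul, pow_add, map_mul, Module.End.mul_apply, h1]
  have hspan : ∀ m : ℕ, ∃ a b : K, ρ (t ^ m) δ = a • δ + b • δ' := by
    intro m
    induction m with
    | zero => exact ⟨1, 0, by rw [pow_zero, map_one]; simp⟩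
    | succ m ih =>
      obtain ⟨a, b, h⟩ := ih
      rw [pow_succ', map_mul, Module.End.mul_apply, h, ht, map_mul, Module.End.mul_apply, hg'',
        hg, refl_apply δ', refl_apply δ]
      refine ⟨a - 2 / B δ δ * B δ (a • δ + b • δ' - (2 / B δ' δ' * B δ' (a • δ + b • δ')) • δ'),
        b - 2 / B δ' δ' * B δ' (a • δ + b • δ'), ?_⟩
      module
  choose a b hab using hspan
  have hdist : ∀ m m', m < m' → ∀ w (c c' : K), ρ (t ^ m) δ = c • w → ρ (t ^ m') δ = c' • w →
      False := by
    intro m m' hm w c c' h1 h2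
    have hc : c ≠ 0 := by
      rintro rfl
      have h3 := hiso m δ δ
      rw [h1, zero_smul, map_zero] at h3
      exact hq h3.symm
    have hc' : c' ≠ 0 := by
      rintro rfl
      have h3 := hiso m' δ δ
      rw [h2, zero_smul, map_zero] at h3
      exact hq h3.symm
    obtain ⟨x, hx⟩ := hinf (2 * (m' - m)) (by omega)
    apply hx
    have h3 : ∀ y, ρ (t ^ (2 * m)) (ρ g y) = ρ (t ^ (2 * m')) (ρ g y) := by
      intro y
      rw [← hrefl, ← hrefl, h1, h2, refl_smul hc, refl_smul hc']
    have h4 := h3 (ρ g x)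
    rw [hR, show 2 * m' = 2 * m + 2 * (m' - m) by omega, pow_add, map_mul,
      Module.End.mul_apply] at h4
    have h5 : ∀ y z, ρ (t ^ (2 * m)) y = ρ (t ^ (2 * m)) z → y = z := by
      intro y z hyz
      have h6 := congrArg (ρ (t ^ (2 * m))⁻¹) hyz
      rw [rho_inv', rho_inv'] at h6
      exact h6
    exact (h5 _ _ h4).symm
  have hM : {l : ℕ | a (n * l) = 0}.Subsingleton := by
    intro l hl l' hl'
    rw [Set.mem_ofPred_eq] at hl hl'
    by_contra hne
    rcases Nat.lt_or_gt_of_ne hne with hlt | hlt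
    · exact hdist _ _ (Nat.mul_lt_mul_of_pos_left hlt hn) δ' _ _ (by
        rw [hab, hl, zero_smul, zero_add]) (by rw [hab, hl', zero_smul, zero_add])
    · exact hdist _ _ (Nat.mul_lt_mul_of_pos_left hlt hn) δ' _ _ (by
        rw [hab, hl', zero_smul, zero_add]) (by rw [hab, hl, zero_smul, zero_add])
  have hM' : {l : ℕ | a (n * l) ≠ 0}.Infinite := by
    have := hM.finite.infinite_compl
    exact this
  refine Set.infinite_of_injOn_mapsTo (s := {l : ℕ | a (n * l) ≠ 0})
    (f := fun l => b (n * l) / a (n * l)) ?_ ?_ hM'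
  · intro l hl l' hl' hll
    rw [Set.mem_ofPred_eq] at hl hl'
    have hll' : b (n * l) / a (n * l) = b (n * l') / a (n * l') := hll
    have h3 : ρ (t ^ (n * l)) δ = a (n * l) • (δ + (b (n * l) / a (n * l)) • δ') := by
      rw [hab, smul_add, smul_smul, mul_div_cancel₀ _ hl]
    have h4 : ρ (t ^ (n * l')) δ = a (n * l') • (δ + (b (n * l) / a (n * l)) • δ') := by
      rw [hab, hll', smul_add, smul_smul, mul_div_cancel₀ _ hl']
    by_contra hne
    rcases Nat.lt_or_gt_of_ne hne with hlt | hlt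
    · exact hdist _ _ (Nat.mul_lt_mul_of_pos_left hlt hn) _ _ _ h3 h4
    · exact hdist _ _ (Nat.mul_lt_mul_of_pos_left hlt hn) _ _ _ h4 h3
  · intro l hl
    rw [Set.mem_ofPred_eq] at hl ⊢
    set x := b (n * l) / a (n * l) with hx
    set w := δ + x • δ' with hw
    have h3 : ρ (t ^ (n * l)) δ = a (n * l) • w := by
      rw [hab, hw, smul_add, smul_smul, hx, mul_div_cancel₀ _ hl]
    refine ⟨fun h0 => ?_, l, fun y => ?_⟩
    · have h4 := hiso (n * l) δ δ
      rw [h3, map_smul, map_smul, LinearMap.smul_apply, h0, smul_zero, smul_zero] at h4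
      exact hq h4.symm
    · rw [← hrefl, h3, refl_smul hl]

end lines

section lie

variable {K : Type u} [Field K] [CharZero K] {V : Type v} [AddCommGroup V] [Module K V]
  {E : Type w} [AddCommGroup E] [Module K E] {S : Type} [Fintype S] [DecidableEq S]
  {G : Type x} [Group G] {T : Type y} [AddCommGroup T] [Module K T]
  {i : T →ₗ[K] V} {p : V →ₗ[K] T} {B : T →ₗ[K] T →ₗ[K] K} {ρV : G →* (V →ₗ[K] V)}
  {ρ : G →* (T →ₗ[K] T)} {σ : G →* (E →ₗ[K] E)} {μ : G → K}

/-- **two reflections generating an infinite group** -/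
theorem even_mem (hpi : ∀ t, p (i t) = t) (hi : ∀ g t, i (ρ g t) = ρV g (i t))
    (hp : ∀ g v, p (ρV g v) = ρ g (p v)) (hsy : ∀ x y, B x y = B y x) (hμ : ∀ g, μ g ≠ 0)
    (hB : ∀ g x y, B (ρ g x) (ρ g y) = μ g * B x y) {g γ : G} {δ : T} (hq : B δ δ ≠ 0)
    (hg : ∀ x, ρV g x = x - (2 / B δ δ * B δ (p x)) • i δ) (hσ : σ g = 1)
    (hinf : ∀ m ≥ 1, ∃ x, ρ ((g * (γ * g * γ⁻¹)) ^ m) x ≠ x) :
    wg B δ (ρ γ δ) ∈ LS S i p B ρV σ := by
  have hiinj : Function.Injective i := fun a b h => by rw [← hpi a, h, hpi]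
  have hgT : ∀ x, ρ g x = refl B δ x := by
    intro x
    apply hiinj
    rw [hi, hg, hpi, refl_apply, map_sub, map_smul]
  refine ⟨wg_skew hsy _ _, fun Δ hΔ U hU h hh => ?_⟩
  obtain ⟨n, hn, htn⟩ := exists_pow hΔ (g * (γ * g * γ⁻¹))
  have hset := exists_lines hsy hμ hB hq hgT hinf hn
  set δ' := ρ γ δ with hδ'
  set t := g * (γ * g * γ⁻¹) with ht
  set q := B δ δ with hqd
  set β := B δ δ' with hβ
  -- the complement of `T`
  have hcomp : ∀ g' : G, (∀ x, ρV g' x - x ∈ LinearMap.range i) → ∀ x,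
      ρV g' x = x + i (ρ g' (p x) - p x) := by
    intro g' h1 x
    obtain ⟨y, hy⟩ := h1 x
    have h2 := congrArg p hy
    rw [hpi, map_sub, hp] at h2
    rw [← h2, hy]
    abel
  have hsub : ∀ g' g'' : G, (∀ x, ρV g' x - x ∈ LinearMap.range i) →
      (∀ x, ρV g'' x - x ∈ LinearMap.range i) → ∀ x, ρV (g' * g'') x - x ∈ LinearMap.range i := by
    intro g' g'' h1 h2 x
    have h3 : ρV (g' * g'') x - x = (ρV g' (ρV g'' x) - ρV g'' x) + (ρV g'' x - x) := by
      rw [map_mul, Module.End.mul_apply]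
      abel
    rw [h3]
    exact Submodule.add_mem _ (h1 _) (h2 _)
  have hrg : ∀ x, ρV g x - x ∈ LinearMap.range i := by
    intro x
    rw [hg, sub_sub_cancel_left]
    exact Submodule.neg_mem _ (Submodule.smul_mem _ _ (LinearMap.mem_range_self i δ))
  have hrg' : ∀ x, ρV (γ * g * γ⁻¹) x - x ∈ LinearMap.range i := by
    intro x
    have h1 : ρV (γ * g * γ⁻¹) x - x = ρV γ (ρV g (ρV γ⁻¹ x) - ρV γ⁻¹ x) := by
      rw [map_mul, map_mul, Module.End.mul_apply, Module.End.mul_apply, map_sub,
        rho_inv ρV γ x]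
    obtain ⟨y, hy⟩ := hrg (ρV γ⁻¹ x)
    rw [h1, ← hy, ← hi]
    exact LinearMap.mem_range_self _ _
  have hrt : ∀ m : ℕ, ∀ x, ρV (t ^ m) x - x ∈ LinearMap.range i := by
    intro m
    induction m with
    | zero =>
      intro x
      rw [pow_zero, map_one]
      simp
    | succ m ih => rw [pow_succ]; exact hsub _ _ ih (hsub _ _ hrg hrg')
  have hgg : ∀ x, ρV g (ρV g x) = x := by
    intro x
    rw [← Module.End.mul_apply, ← map_mul, hcomp (g * g) (hsub _ _ hrg hrg), map_mul,
      Module.End.mul_apply, hgT, hgT, refl_refl hq, sub_self, map_zero, add_zero]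
  have hσt : ∀ m, σ (t ^ m)⁻¹ = 1 := by
    intro m
    have h1 : σ t = 1 := by
      rw [ht, map_mul, map_mul, map_mul, hσ, one_mul, mul_one, ← map_mul, mul_inv_cancel, map_one]
    have h6 : σ (t ^ m) = 1 := by rw [map_pow, h1, one_pow]
    have h7 := map_mul σ (t ^ m)⁻¹ (t ^ m)
    rw [inv_mul_cancel, map_one, h6, mul_one] at h7
    exact h7.symm
  -- the coefficients
  obtain ⟨a0, ha0⟩ : ∃ a0 : V →ₗ[K] V, a0 = ρV g := ⟨_, rfl⟩
  obtain ⟨b0, hb0⟩ : ∃ b0 : V →ₗ[K] V, b0 = (2 * β / q) • LinearMap.id -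
    (2 / q) • (ext i p (rk B δ δ') + ext i p (rk B δ' δ)) := ⟨_, rfl⟩
  obtain ⟨c0, hc0⟩ : ∃ c0 : V →ₗ[K] V, c0 = (B δ' δ' / q) • LinearMap.id -
    (2 / q) • ext i p (rk B δ' δ') := ⟨_, rfl⟩
  have hext : ∀ (u w : T) (x : V), ext i p (rk B u w) x = B u (p x) • i w := by
    intro u w x
    change i (rk B u w (p x)) = _
    rw [rk_apply, map_smul]
  -- the space `U'`
  set U' : Submodule K (MultilinearMap K (fun _ : S => V) E) :=
    U.comap (MultilinearMap.compLinearMapₗ fun _ => ρV g) with hU'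
  have hmem : ∀ x ∈ {x : K | B (δ + x • δ') (δ + x • δ') ≠ 0 ∧ ∃ l : ℕ, ∀ y,
      refl B (δ + x • δ') y = ρ (t ^ (2 * (n * l))) (ρ g y)},
      h.compLinearMap (fun _ => a0 + x • b0 + x ^ 2 • c0) ∈ U' := by
    rintro x ⟨hw0, l, hl⟩
    set w := δ + x • δ' with hw
    have hww : B w w = q + x * (2 * β) + x ^ 2 * B δ' δ' := by
      rw [hw]
      simp only [map_add, map_smul, LinearMap.add_apply, LinearMap.smul_apply, smul_eq_mul]
      rw [hsy δ' δ]
      ring
    have htt : (t ^ (2 * (n * l)))⁻¹ ∈ Δ := by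
      rw [mul_comm, pow_mul, pow_mul]
      exact Subgroup.inv_mem _ (Subgroup.pow_mem _ (Subgroup.pow_mem _ htn l) 2)
    have h1 := hU _ htt h hh
    -- the operator
    have h2 : ∀ v : V, (a0 + x • b0 + x ^ 2 • c0) v =
        (B w w / q) • ρV (t ^ (2 * (n * l))) (ρV g v) := by
      intro v
      have h3 : ρV (t ^ (2 * (n * l))) (ρV g v) = v - (2 / B w w * B w (p v)) • i w := by
        rw [← Module.End.mul_apply, ← map_mul, hcomp _ (hsub _ _ (hrt _) hrg), map_mul,
          Module.End.mul_apply, ← hl, refl_apply, sub_sub_cancel_left, map_neg, map_smul]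
        abel
      have h4 : B w w / q * (2 / B w w * B w (p v)) = 2 / q * B w (p v) := by
        field_simp
      have h6 : (B w w / q) • (v - (2 / B w w * B w (p v)) • i w) =
          (B w w / q) • v - (2 / q * B w (p v)) • i w := by
        rw [smul_sub, smul_smul, h4]
      rw [h3, h6, ha0, hb0, hc0]
      simp only [LinearMap.add_apply, LinearMap.sub_apply, LinearMap.smul_apply,
        LinearMap.id_apply, hext, hg]
      rw [hww, hw]
      simp only [map_add, map_smul, LinearMap.add_apply, LinearMap.smul_apply, smul_eq_mul]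
      have h5 : (q + x * (2 * β) + x ^ 2 * B δ' δ') / q =
          1 + x * (2 * β / q) + x ^ 2 * (B δ' δ' / q) := by
        field_simp
      rw [h5]
      module
    have h3 : (h.compLinearMap (fun _ => a0 + x • b0 + x ^ 2 • c0)).compLinearMap
        (fun _ => ρV g) = (∏ _j : S, (B w w / q)) •
          gact S ρV σ (t ^ (2 * (n * l)))⁻¹ h := by
      ext v
      rw [MultilinearMap.smul_apply, gact_apply, hσt, inv_inv]
      change h (fun j => (a0 + x • b0 + x ^ 2 • c0) (ρV g (v j))) =
        (∏ _j : S, (B w w / q)) • h (fun j => ρV (t ^ (2 * (n * l))) (v j))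
      rw [← h.map_smul_univ]
      congr 1
      funext j
      rw [h2, hgg]
    rw [hU', Submodule.mem_comap]
    change (h.compLinearMap (fun _ => a0 + x • b0 + x ^ 2 • c0)).compLinearMap
        (fun _ => ρV g) ∈ U
    rw [h3]
    exact U.smul_mem _ h1
  have h4 := deriv_mem (U := U') (h := h) a0 b0 c0 (hset.mono fun x hx => hmem x hx)
  rw [hU', Submodule.mem_comap, map_sum] at h4
  have h5 : ∑ j : S, (MultilinearMap.compLinearMapₗ fun _ => ρV g)
      (h.compLinearMap (update (fun _ => a0) j b0)) =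
      ((2 * β / q) * (Fintype.card S : K)) • h - (2 / q) • Dop (ext i p (wg B δ δ')) h := by
    ext v
    rw [_root_.sum_apply, MultilinearMap.sub_apply, MultilinearMap.smul_apply,
      MultilinearMap.smul_apply, Dop_apply]
    have h6 : ∀ j : S, ((MultilinearMap.compLinearMapₗ fun _ => ρV g)
        (h.compLinearMap (update (fun _ => a0) j b0))) v =
        (2 * β / q) • h v - (2 / q) • h (update v j (ext i p (wg B δ δ') (v j))) := by
      intro j
      change h (fun k => update (fun _ => a0) j b0 k (ρV g (v k))) = _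
      have h7 : (fun k => update (fun _ => a0) j b0 k (ρV g (v k))) =
          update v j ((2 * β / q) • v j - (2 / q) • ext i p (wg B δ δ') (v j)) := by
        funext k
        by_cases hk : k = j
        · subst hk
          rw [update_self, update_self, hb0]
          have h8 : ext i p (wg B δ δ') (v k) = B δ' (p (v k)) • i δ - B δ (p (v k)) • i δ' := by
            change i (wg B δ δ' (p (v k))) = _
            rw [wg_apply, map_sub, map_smul, map_smul]
          simp only [LinearMap.sub_apply, LinearMap.smul_apply, LinearMap.id_apply,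
            LinearMap.add_apply, hext, h8, hg, map_sub, map_smul, hpi, smul_eq_mul]
          rw [hsy δ' δ, ← hβ, ← hqd]
          match_scalars <;> field_simp <;> ring
        · rw [update_of_ne hk, update_of_ne hk, ha0]
          exact hgg (v k)
      rw [h7, MultilinearMap.map_update_sub, MultilinearMap.map_update_smul,
        MultilinearMap.map_update_smul, update_eq_self]
    rw [Finset.sum_congr rfl fun j _ => h6 j, Finset.sum_sub_distrib, Finset.sum_const,
      Finset.card_univ, ← Finset.smul_sum, ← Nat.cast_smul_eq_nsmul K, smul_smul]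
    congr 2
    ring
  rw [h5] at h4
  have h6 := U.sub_mem (U.smul_mem ((2 * β / q) * (Fintype.card S : K)) hh) h4
  rw [sub_sub_cancel] at h6
  have h7 := U.smul_mem (2 / q)⁻¹ h6
  rwa [smul_smul, inv_mul_cancel₀ (div_ne_zero two_ne_zero hq), one_smul] at h7

end lie

end Pool.Agent.W5h58.NF
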