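import Pool.Agent.TH125.Gal.Pub

/-!
# The coniveau filtration and the generalized Tate conjecture: definitions
-/

open CategoryTheory AlgebraicGeometry

universe u v w

namespace Pool.Agent.W5h58.NF

open Pool.Agent.H914 Pool.Agent.H914.VarClass Pool.Agent.H914.VarClass.Obj
  Pool.Agent.H914.WeilCohomology Pool.Agent.H281R3.HT Pool.Agent.TH125.Gal

section Alg

variable {K : Type*} [Field K]

/-- The sum of the generalized eigenspaces of `F` for the eigenvalues `α` such that
`α ^ D / q ^ x` is an algebraic integer, that is, `α` is divisible by `q ^ (x / D)`. -/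
def slopePart {V : Type*} [AddCommGroup V] [Module K V] (F : V →ₗ[K] V) (q : K)
    (D : ℕ) (x : ℤ) : Submodule K V :=
  ⨆ (α : K) (_ : IsIntegral ℤ (α ^ D / q ^ x)), Module.End.maxGenEigenspace F α

variable {A : Type*} [Ring A] [Algebra K A] {B : Type*} [Ring B] [Algebra K B] {Γ : Type*}
  [Group Γ]

/-- The elements `f (c y)` with `c ∈ C`. -/
def imMul (f : A →ₗ[K] B) (C : Set A) : Set B := {x | ∃ c ∈ C, ∃ y, x = f (c * y)}

/-- `χ γ` is an algebraic integer and not a unit, like the number `q` of the elements of a residue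
field. -/
def IsFrob (χ : Γ →* Kˣ) (γ : Γ) : Prop := IsIntegral ℤ (χ γ : K) ∧ ¬ IsIntegral ℤ (χ γ : K)⁻¹

/-- The subspace `U` is stable under a subgroup of finite index which contains the power
`γ ^ m`, `m > 0`, and the eigenvalues `α` of `γ ^ m` on `U` are divisible by `Q ^ (x / D)`, where
`Q = χ (γ ^ m)`. If `Γ` is the Galois group of a number field, `χ` the inverse of the cyclotomic
character and `γ` a geometric Frobenius element of a place with `q` elements in the residue field,
`χ γ = q` and for `x / D = r` the condition says that the eigenvalues of `γ ^ m` on the twist `U(r)`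
are algebraic integers. -/
def IsGalSub (χ : Γ →* Kˣ) (ρ : Γ →* (A ≃ₐ[K] A)) (γ : Γ) (D : ℕ) (x : ℤ) (U : Submodule K A) :
    Prop :=
  ∃ Δ : Subgroup Γ, Δ.FiniteIndex ∧ (∀ g ∈ Δ, ∀ a ∈ U, ρ g a ∈ U) ∧
    ∃ m > 0, γ ^ m ∈ Δ ∧ U ≤ slopePart (ρ (γ ^ m)).toLinearMap (χ (γ ^ m) : K) D x

/-- Every subspace which is stable under a subgroup of finite index and whose eigenvalues at `γ` are
divisible by `q ^ (x / D)` is contained in `N r` if `M / D < x / D - r + 1`. -/
def ActUpTo (χ : Γ →* Kˣ) (γ : Γ) (D M : ℕ) (N : ℕ → Submodule K A) (ρ : Γ →* (A ≃ₐ[K] A)) :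
    Prop :=
  ∀ (x : ℤ) (r : ℕ) (U : Submodule K A), IsGalSub χ ρ γ D x U →
    (M : ℤ) < x - D * r + D → U ≤ N r

/-- Every subspace which is stable under a subgroup of finite index and whose twist by `r` has
integral eigenvalues at `γ` is contained in `N r`. -/
def ActGTC (χ : Γ →* Kˣ) (γ : Γ) (N : ℕ → Submodule K A) (ρ : Γ →* (A ≃ₐ[K] A)) : Prop :=
  ∀ (r : ℕ) (U : Submodule K A), IsGalSub χ ρ γ 1 r U → U ≤ N r

/-- The generalized eigenspace of an automorphism. -/
def genEig (F : A ≃ₐ[K] A) (α : K) : Submodule K A := Module.End.maxGenEigenspace F.toLinearMap α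

/-- For some `c`: `T` is contained in `N c`, the eigenvalues of `F` on `T` are divisible by
`q ^ c`, and for every valuation ring `O` in which `q` is not invertible there are `n` linearly
independent generalized eigenvectors of `F` in `T`, with eigenvalues `α 1, ..., α n` of slope less
than `d / 2` (that is, `α i ^ 2 / q ^ d` is not in `O`), such that the sum of the slopes of the
numbers `α i / q ^ c` is at most `w / D`; and `n` is not too large. -/
def Slopes (q : K) (d : ℕ) (T : Submodule K A) (N : ℕ → Submodule K A) (F : A ≃ₐ[K] A)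
    (D n w : ℕ) : Prop :=
  (∃ c : ℕ, T ≤ N c ∧
    (∀ α : K, T ⊓ genEig F α ≠ ⊥ → IsIntegral ℤ (α / q ^ c)) ∧
    ∀ O : ValuationSubring K, q⁻¹ ∉ O →
      ∃ (v : Fin n → A) (α : Fin n → K), LinearIndependent K v ∧
        (∀ i, v i ∈ T ∧ v i ∈ genEig F (α i) ∧ α i ^ 2 / q ^ d ∉ O) ∧
        q ^ w / (∏ i, α i / q ^ c) ^ D ∈ O) ∧
  2 * n ≤ Module.finrank K T ∧ (Even d → 2 * n < Module.finrank K T)

/-- `T` has the property `Slopes` for `q = χ γ`, the action `F` of `γ` and `n` and `w`, or `d` is odd
and `T` has the property `Slopes` for `m = dim T / 2` and `w = 0` (so that the slopes of `γ` on `T`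
are `c` and `d - c`); then `n` is arbitrary. -/
def AdmissibleAct (χ : Γ →* Kˣ) (ρ : Γ →* (A ≃ₐ[K] A)) (γ : Γ) (d : ℕ) (T : Submodule K A)
    (N : ℕ → Submodule K A) (D n w : ℕ) : Prop :=
  Slopes (χ γ : K) d T N (ρ γ) D n w ∨
    (Odd d ∧ ∃ m, 2 * m = Module.finrank K T ∧ Slopes (χ γ : K) d T N (ρ γ) D m 0)

/-- `Γ` acts like a Galois group, `T` is in the middle degree and irreducible under all subgroups
of finite index. -/
structure IrredGalois (χ : Γ →* Kˣ) (gr : ℕ → Submodule K A) (d : ℕ) (tr : A →ₗ[K] K)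
    (C : ℕ → Set A) (T : Submodule K A) (ρ : Γ →* (A ≃ₐ[K] A)) : Prop where
  galois : IsGaloisAct χ gr d tr C ρ
  middle : T ≤ gr d
  irreducible : IrredAct ρ T

/-- `Γ` acts like a Galois group and `A` is spanned by the sets `C j`. -/
structure CellAct (χ : Γ →* Kˣ) (gr : ℕ → Submodule K A) (d : ℕ) (tr : A →ₗ[K] K)
    (C : ℕ → Set A) (ρ : Γ →* (A ≃ₐ[K] A)) : Prop where
  galois : IsGaloisAct χ gr d tr C ρ
  span : ∀ a, a ∈ Submodule.span K (⋃ j, C j)

/-- `g` acts by a Picard-Lefschetz formula `a ↦ a + c tr(δ a) δ` with `δ ≠ 0` in `T` and `c ≠ 0`, and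
trivially by `χ`; if `d` is even (then `g` is a reflection), some product of `g` and a conjugate of
`g` has infinite order on `T`. -/
def NodeAct (χ : Γ →* Kˣ) (d : ℕ) (tr : A →ₗ[K] K) (T : Submodule K A)
    (ρ : Γ →* (A ≃ₐ[K] A)) (g : Γ) : Prop :=
  (∃ δ ∈ T, δ ≠ 0 ∧ ∃ c : K, c ≠ 0 ∧ ∀ a, ρ g a = a + (c * tr (δ * a)) • δ) ∧ χ g = 1 ∧
    (Even d → ∃ h : Γ, ∀ m ≥ 1, ∃ t ∈ T, ρ ((g * (h * g * h⁻¹)) ^ m) t ≠ t)

end Alg

variable {k : Type u} [Field k] {𝒱 : VarClass k} {ops : CycleOps 𝒱}

/-- `N ^ r H(Z)`: the linear combinations of the classes `g_* (c y)`, where `g` is a morphism from a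
variety `T` to `Z`, `c` is the class of a cycle of codimension `j` on `T`, hence of dimension
`dim T - j ≤ dim Z - r`, and `y` is any class on `T`. Such a class is supported on the image of the
cycle; with `c = 1` one gets the images of the Gysin maps for `dim T ≤ dim Z - r`. -/
def coniveau (W : WeilCohomology.{u, v} ops) (Z : 𝒱.Obj) (r : ℕ) : Submodule W.K (W.H Z) :=
  Submodule.span W.K {x | ∃ (T : 𝒱.Obj) (g : T ⟶ Z) (j : ℕ), T.dim + r ≤ Z.dim + j ∧
    x ∈ imMul (W.push g) (algClasses W T j)}

variable {W : WeilCohomology.{u, v} ops} {Γ : Type w} [Group Γ]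

/-- The generalized Tate conjecture for `Z` (the nontrivial inclusion), in all degrees and levels:
every subspace of `H(Z)` which is stable under a subgroup of finite index and whose twist by `r` has
integral eigenvalues at `γ` is contained in `N ^ r H(Z)`. -/
def GTC (χ : Γ →* W.Kˣ) (γ : Γ) (Z : GVar W Γ) : Prop := ActGTC χ γ (coniveau W Z.X) Z.act

/-- The generalized Tate conjecture up to the defect `M / D`: a subspace which is stable under a
subgroup of finite index and whose eigenvalues at `γ` are divisible by `q ^ (x / D)` is contained in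
`N ^ r H(Z)` if `M / D < x / D - r + 1`. -/
def GTCUpTo (χ : Γ →* W.Kˣ) (γ : Γ) (D M : ℕ) (Z : GVar W Γ) : Prop :=
  ActUpTo χ γ D M (coniveau W Z.X) Z.act

/-- The transcendental cohomology of `X` has the property `AdmissibleAct` for the coniveau
filtration and the element `γ`. -/
def Admissible (χ : Γ →* W.Kˣ) (γ : Γ) (D : ℕ) (X : GVar W Γ) (n w : ℕ) : Prop :=
  AdmissibleAct χ X.act γ X.X.dim (transcendental W X.X) (coniveau W X.X) D n w

/-- The varieties `Y = X_1^(n_1) × (X_2^(n_2) × ( ⋯ × Z))`, where the `X_i` are pairwise different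
members of the family `X` (`S` is the set of the indices which are used), where `X_i` has the
property `A n_i w_i`; `w` is the sum of the `w_i`. -/
inductive PowTower {ι : Type} (X : ι → GVar W Γ) (Z : GVar W Γ) (A : GVar W Γ → ℕ → ℕ → Prop) :
    Set ι → ℕ → GVar W Γ → Prop
  | base : PowTower X Z A ∅ 0 Z
  | step {S w Y Y'} (i : ι) (n w' : ℕ) : PowTower X Z A S w Y → i ∉ S →
      A (X i) (n + 1) w' → IsPowProd (X i) n Y Y' → PowTower X Z A (insert i S) (w + w') Y'

/-- Numerical and homological equivalence coincide for `X`, and the transcendental cohomology is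
in the middle degree and irreducible under all subgroups of finite index. -/
def IsIrred (χ : Γ →* W.Kˣ) (X : GVar W Γ) : Prop :=
  HomEqNum W X.X ∧ IrredGalois χ (W.gr X.X) X.X.dim (W.tr X.X) (algClasses W X.X)
    (transcendental W X.X) X.act

/-- The `X i` have the property `IsIrred`, and for every `i` there is an element of `Γ` with the
property `NodeAct` for the transcendental cohomology of `X i` which acts trivially on the cohomology
of `Z` and of the other `X j`. -/
structure NodalFamily (χ : Γ →* W.Kˣ) {ι : Type} (X : ι → GVar W Γ) (Z : GVar W Γ) : Prop where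
  irred : ∀ i, IsIrred χ (X i)
  node : ∀ i, ∃ g : Γ,
    NodeAct χ (X i).X.dim (W.tr (X i).X) (transcendental W (X i).X) (X i).act g ∧
      TrivAct Z.act g ∧ ∀ j, j ≠ i → TrivAct (X j).act g

/-- The cohomology of `Z` is spanned by classes of algebraic cycles, and `Γ` acts like a Galois
group. -/
def IsCellular (χ : Γ →* W.Kˣ) (Z : GVar W Γ) : Prop :=
  CellAct χ (W.gr Z.X) Z.X.dim (W.tr Z.X) (algClasses W Z.X) Z.act

end Pool.Agent.W5h58.NF
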