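import Pool.Agent.W5h58.NF.NDefs
import Pool.Agent.W5h58.GC.Calc
import Pool.Agent.TH125.Gal.Tower

/-!
# The calculus of the coniveau filtration
-/

set_option autoImplicit false
set_option linter.unusedSectionVars false

open CategoryTheory AlgebraicGeometry

universe u v w

namespace Pool.Agent.W5h58.NF

open Pool.Agent.H914 Pool.Agent.H914.VarClass Pool.Agent.H914.VarClass.Obj
  Pool.Agent.H914.WeilCohomology Pool.Agent.H281R3.HT Pool.Agent.W552 Pool.Agent.TH125.Gal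
  Pool.Agent.W536.RR

variable {k : Type u} [Field k] {𝒱 : VarClass k} {ops : CycleOps 𝒱}
  {W : WeilCohomology.{u, v} ops} {S T Z X Y : 𝒱.Obj}

theorem mem_con {r j : ℕ} (g : T ⟶ Z) {z : T.Cycles} (y : W.H T) (hz : T.IsCyc j z)
    (hd : T.dim + r ≤ Z.dim + j) : W.push g (W.cl T z * y) ∈ coniveau W Z r :=
  Submodule.subset_span ⟨T, g, j, hd, _, ⟨z, hz, rfl⟩, y, rfl⟩

theorem con_map (g : S ⟶ Z) {n : ℕ} {x : W.H Z} (hx : x ∈ coniveau W Z n) :
    W.map g x ∈ coniveau W S n := by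
  have h1 := Submodule.apply_mem_span_image_of_mem_span (W.map g).toLinearMap hx
  refine Submodule.span_le.2 ?_ h1
  rintro _ ⟨_, ⟨T, h, j, hd, _, ⟨w, hw, rfl⟩, y, rfl⟩, rfl⟩
  obtain ⟨z, hz, hz'⟩ := GC.exists_map_push_cyc (W := W) g h
  have h2 := mem_con (W := W) (r := n) (snd T S) (W.map (fst T S) y)
    (ops.mul_mem hz (ops.pull_mem (fst T S) hw)) (by
    rw [dim_prod]
    omega)
  rw [W.cl_mul, W.cl_pull, mul_assoc, ← map_mul (W.map (fst T S)), ← hz'] at h2
  exact h2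

theorem con_mul {a b : ℕ} {x x' : W.H Z} (hx : x ∈ coniveau W Z a)
    (hx' : x' ∈ coniveau W Z b) : x * x' ∈ coniveau W Z (a + b) := by
  have h1 := Submodule.apply_mem_span_image_of_mem_span (LinearMap.mulRight W.K x') hx
  refine Submodule.span_le.2 ?_ h1
  rintro _ ⟨_, ⟨T, f, j, hd, _, ⟨w, hw, rfl⟩, y, rfl⟩, rfl⟩
  rw [LinearMap.mulRight_apply, ← W.push_mul]
  have h2 := con_map f hx'
  have h3 := Submodule.apply_mem_span_image_of_mem_span
    ((W.push f) ∘ₗ LinearMap.mulLeft W.K (W.cl T w * y)) h2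
  rw [LinearMap.comp_apply, LinearMap.mulLeft_apply] at h3
  refine Submodule.span_le.2 ?_ h3
  rintro _ ⟨_, ⟨T', f', j', hd', _, ⟨w', hw', rfl⟩, y', rfl⟩, rfl⟩
  have h4 := mem_con (W := W) (r := a + b) (f' ≫ f) (W.map f' y * y')
    (ops.mul_mem (ops.pull_mem f' hw) hw') (by omega)
  rw [SetLike.mem_coe]
  convert h4 using 1
  rw [LinearMap.comp_apply, LinearMap.mulLeft_apply, mul_push', W.push_comp, W.cl_mul,
    W.cl_pull, map_mul (W.map f')]
  congr 2
  rw [mul_assoc, mul_assoc, ← mul_assoc (W.map f' y), ← W.even_comm (W.cl_mem hw') (W.map f' y),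
    mul_assoc]

theorem con_cl {j : ℕ} {z : Z.Cycles} (hz : Z.IsCyc j z) : W.cl Z z ∈ coniveau W Z j := by
  have h := mem_con (W := W) (𝟙 Z) 1 hz le_rfl
  rwa [mul_one, W.push_id] at h

theorem con_alg {j : ℕ} {x : W.H Z} (hx : x ∈ Submodule.span W.K (algClasses W Z j)) :
    x ∈ coniveau W Z j := by
  refine Submodule.span_le.2 ?_ hx
  rintro _ ⟨z, hz, rfl⟩
  exact con_cl hz

theorem con_zero (x : W.H Z) : x ∈ coniveau W Z 0 := by
  have h := mem_con (W := W) (𝟙 Z) x Z.V.fundCycle_mem le_rfl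
  rwa [W.cl_fund, one_mul, W.push_id] at h

theorem con_anti (Z : 𝒱.Obj) : Antitone (coniveau W Z) := by
  intro a b hab
  refine Submodule.span_mono ?_
  rintro _ ⟨T, f, j, hd, h⟩
  exact ⟨T, f, j, by omega, h⟩

theorem con_mono {n : ℕ} (π : Fin n → (Y ⟶ X)) (a : Fin n → W.H X) (c : Fin n → ℕ)
    (h : ∀ p, a p ∈ coniveau W X (c p)) : mono π a ∈ coniveau W Y (∑ p, c p) := by
  induction n with
  | zero =>
    rw [Finset.univ_eq_empty, Finset.sum_empty]
    exact con_zero _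
  | succ n ih =>
    rw [mono_succ, Fin.sum_univ_succ]
    exact con_mul (con_map _ (h 0)) (ih _ _ _ fun p => h p.succ)

theorem con_dQ (hDX : HomEqNum W X) (hmid : transcendental W X ≤ W.gr X X.dim) (s : SB W X) :
    dQ s ∈ coniveau W (X.prod X) X.dim :=
  con_alg (algSpan_gr (dQ_alg hDX hmid s) (dQ_gr hmid s))

end Pool.Agent.W5h58.NF
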