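import Pool.Agent.W5h58.NF.KOp

/-!
# Operators on spaces of multilinear maps
-/

set_option autoImplicit false
set_option linter.unusedSectionVars false

open Finset Function

namespace Pool.Agent.W5h58.NF

universe u v w

section ops

variable {K : Type u} [Field K] {V : Type v} [AddCommGroup V] [Module K V]
  {E : Type w} [AddCommGroup E] [Module K E] {S : Type} [Fintype S] [dS : DecidableEq S]

/-- the action on multilinear maps -/
noncomputable def act (S : Type) (a : V →ₗ[K] V) (b : E →ₗ[K] E) :
    Module.End K (MultilinearMap K (fun _ : S => V) E) where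
  toFun h := b.compMultilinearMap (h.compLinearMap fun _ => a)
  map_add' h h' := by
    ext v
    simp
  map_smul' c h := by
    ext v
    simp

omit [Fintype S] dS in
theorem act_apply (a : V →ₗ[K] V) (b : E →ₗ[K] E) (h : MultilinearMap K (fun _ : S => V) E)
    (v : S → V) : act S a b h v = b (h fun j => a (v j)) := rfl

/-- an operator at one position -/
noncomputable def Rop (j : S) (A : V →ₗ[K] V) :
    Module.End K (MultilinearMap K (fun _ : S => V) E) :=
  MultilinearMap.compLinearMapₗ (update (fun _ : S => (LinearMap.id : V →ₗ[K] V)) j A)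

theorem Rop_apply (j : S) (A : V →ₗ[K] V) (h : MultilinearMap K (fun _ : S => V) E) (v : S → V) :
    Rop j A h v = h (update v j (A (v j))) := by
  change h (fun i => update (fun _ : S => (LinearMap.id : V →ₗ[K] V)) j A i (v i)) = _
  congr 1
  funext i
  by_cases hi : i = j
  · subst hi
    rw [update_self, update_self]
  · rw [update_of_ne hi, update_of_ne hi]
    rfl

/-- derivations -/
noncomputable def Dop (A : V →ₗ[K] V) : Module.End K (MultilinearMap K (fun _ : S => V) E) :=
  ∑ j, Rop j A

theorem Dop_apply (A : V →ₗ[K] V) (h : MultilinearMap K (fun _ : S => V) E) (v : S → V) :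
    Dop A h v = ∑ j, h (update v j (A (v j))) := by
  rw [Dop, LinearMap.sum_apply, _root_.sum_apply]
  exact Finset.sum_congr rfl fun j _ => Rop_apply j A h v

theorem Dop_add (A A' : V →ₗ[K] V) :
    (Dop (A + A') : Module.End K (MultilinearMap K (fun _ : S => V) E)) = Dop A + Dop A' := by
  ext h v
  rw [LinearMap.add_apply, MultilinearMap.add_apply, Dop_apply, Dop_apply, Dop_apply,
    ← Finset.sum_add_distrib]
  refine Finset.sum_congr rfl fun j _ => ?_
  rw [LinearMap.add_apply, MultilinearMap.map_update_add]

theorem Dop_sub (A A' : V →ₗ[K] V) :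
    (Dop (A - A') : Module.End K (MultilinearMap K (fun _ : S => V) E)) = Dop A - Dop A' := by
  ext h v
  rw [LinearMap.sub_apply, MultilinearMap.sub_apply, Dop_apply, Dop_apply, Dop_apply,
    ← Finset.sum_sub_distrib]
  refine Finset.sum_congr rfl fun j _ => ?_
  rw [LinearMap.sub_apply, MultilinearMap.map_update_sub]

theorem Dop_smul (c : K) (A : V →ₗ[K] V) :
    (Dop (c • A) : Module.End K (MultilinearMap K (fun _ : S => V) E)) = c • Dop A := by
  ext h v
  rw [LinearMap.smul_apply, MultilinearMap.smul_apply, Dop_apply, Dop_apply, Finset.smul_sum]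
  refine Finset.sum_congr rfl fun j _ => ?_
  rw [LinearMap.smul_apply, MultilinearMap.map_update_smul]

theorem Rop_mul (j : S) (A B : V →ₗ[K] V) :
    (Rop j A * Rop j B : Module.End K (MultilinearMap K (fun _ : S => V) E)) =
      Rop j (B ∘ₗ A) := by
  ext h v
  rw [Module.End.mul_apply, Rop_apply, Rop_apply, Rop_apply, update_self, update_idem]
  rfl

theorem Rop_comm {i j : S} (hij : i ≠ j) (A B : V →ₗ[K] V) :
    (Rop i A * Rop j B : Module.End K (MultilinearMap K (fun _ : S => V) E)) =
      Rop j B * Rop i A := by
  ext h v
  rw [Module.End.mul_apply, Module.End.mul_apply, Rop_apply, Rop_apply, Rop_apply, Rop_apply,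
    update_of_ne hij.symm, update_of_ne hij, update_comm hij]

theorem Dop_bracket (A B : V →ₗ[K] V) :
    (Dop A * Dop B - Dop B * Dop A : Module.End K (MultilinearMap K (fun _ : S => V) E)) =
      Dop (B ∘ₗ A - A ∘ₗ B) := by
  have h1 : ∀ A B : V →ₗ[K] V,
      (Dop A * Dop B : Module.End K (MultilinearMap K (fun _ : S => V) E)) =
        Dop (B ∘ₗ A) + ∑ i : S, ∑ j ∈ univ.erase i, Rop i A * Rop j B := by
    intro A B
    rw [Dop, Dop, Finset.sum_mul, Dop, ← Finset.sum_add_distrib]
    refine Finset.sum_congr rfl fun i _ => ?_
    rw [Finset.mul_sum, ← Finset.add_sum_erase _ _ (Finset.mem_univ i), Rop_mul]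
  have h2 : (∑ i : S, ∑ j ∈ univ.erase i, Rop i A * Rop j B :
      Module.End K (MultilinearMap K (fun _ : S => V) E)) =
      ∑ i : S, ∑ j ∈ univ.erase i, Rop i B * Rop j A := by
    rw [Finset.sum_comm' (s' := fun j => univ.erase j) (t' := univ) (by
      intro x y
      simp only [Finset.mem_univ, Finset.mem_erase, ne_eq, and_true, true_and]
      exact ⟨fun h h' => h h'.symm, fun h h' => h h'.symm⟩)]
    refine Finset.sum_congr rfl fun j _ => Finset.sum_congr rfl fun i hi => ?_
    exact Rop_comm (Finset.ne_of_mem_erase hi) A B
  rw [h1, h1, h2, Dop_sub]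
  abel

/-- contraction and insertion of a form -/
noncomputable def Kop {n : ℕ} (e : Fin n → ℤ) (x : Fin n → V) (θ : V →ₗ[K] V →ₗ[K] K) (s t : S)
    (hst : s ≠ t) : Module.End K (MultilinearMap K (fun _ : S => V) E) where
  toFun h :=
    { toFun := fun v => θ (v s) (v t) • ∑ a, e a • h (update (update v s (x a)) t (x a.rev))
      map_update_add' := by
        intro inst v i y z
        have hd : inst = dS := Subsingleton.elim _ _
        subst hd
        by_cases his : i = s
        · subst his
          simp only [update_idem, update_self, update_of_ne hst.symm, map_add,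
            LinearMap.add_apply, add_smul]
        · by_cases hit : i = t
          · subst hit
            have h1 : ∀ (y : V) (a : Fin n), update (update (update v i y) s (x a)) i (x a.rev) =
                update (update v s (x a)) i (x a.rev) := by
              intro y a
              rw [update_comm his, update_idem, update_comm (Ne.symm his), update_comm his,
                update_comm (Ne.symm his)]
            simp only [h1, update_self, update_of_ne hst, map_add, add_smul]
          · have h1 : ∀ (y : V) (a : Fin n), update (update (update v i y) s (x a)) t (x a.rev) =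
                update (update (update v s (x a)) t (x a.rev)) i y := by
              intro y a
              rw [update_comm his, update_comm hit]
            simp only [h1, update_of_ne (Ne.symm his), update_of_ne (Ne.symm hit),
              MultilinearMap.map_update_add, smul_add, Finset.sum_add_distrib]
      map_update_smul' := by
        intro inst v i c y
        have hd : inst = dS := Subsingleton.elim _ _
        subst hd
        by_cases his : i = s
        · subst his
          simp only [update_idem, update_self, update_of_ne hst.symm, map_smul,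
            LinearMap.smul_apply, smul_eq_mul, mul_smul]
        · by_cases hit : i = t
          · subst hit
            have h1 : ∀ (y : V) (a : Fin n), update (update (update v i y) s (x a)) i (x a.rev) =
                update (update v s (x a)) i (x a.rev) := by
              intro y a
              rw [update_comm his, update_idem, update_comm (Ne.symm his), update_comm his,
                update_comm (Ne.symm his)]
            simp only [h1, update_self, update_of_ne hst, map_smul, smul_eq_mul, mul_smul]
          · have h1 : ∀ (y : V) (a : Fin n), update (update (update v i y) s (x a)) t (x a.rev) =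
                update (update (update v s (x a)) t (x a.rev)) i y := by
              intro y a
              rw [update_comm his, update_comm hit]
            simp only [h1, update_of_ne (Ne.symm his), update_of_ne (Ne.symm hit),
              MultilinearMap.map_update_smul, smul_comm (_ : ℤ) c, ← Finset.smul_sum]
            rw [smul_comm] }
  map_add' h h' := by
    ext v
    simp only [MultilinearMap.add_apply, MultilinearMap.coe_mk, smul_add, Finset.sum_add_distrib]
  map_smul' c h := by
    ext v
    simp only [MultilinearMap.smul_apply, MultilinearMap.coe_mk, RingHom.id_apply,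
      smul_comm (_ : ℤ) c, ← Finset.smul_sum]
    rw [smul_comm]

theorem Kop_apply {n : ℕ} (e : Fin n → ℤ) (x : Fin n → V) (θ : V →ₗ[K] V →ₗ[K] K) {s t : S}
    (hst : s ≠ t) (h : MultilinearMap K (fun _ : S => V) E) (v : S → V) :
    Kop e x θ s t hst h v =
      θ (v s) (v t) • ∑ a, e a • h (update (update v s (x a)) t (x a.rev)) := rfl

/-- **Equivariance of contraction and insertion.** -/
theorem act_Kop {n : ℕ} {e : Fin n → ℤ} {x : Fin n → V} {θ : V →ₗ[K] V →ₗ[K] K} {s t : S}
    (hst : s ≠ t) {a : V →ₗ[K] V} {b : E →ₗ[K] E} {μ ν : K}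
    (hθ : ∀ y z, θ (a y) (a z) = ν * θ y z)
    (hω : ∀ m : V →ₗ[K] V →ₗ[K] E, ∑ i, e i • m (a (x i)) (a (x i.rev)) =
      μ • ∑ i, e i • m (x i) (x i.rev)) (h : MultilinearMap K (fun _ : S => V) E) :
    μ • act S a b (Kop e x θ s t hst h) = ν • Kop e x θ s t hst (act S a b h) := by
  ext v
  rw [MultilinearMap.smul_apply, MultilinearMap.smul_apply, act_apply, Kop_apply, Kop_apply, hθ]
  -- the bilinear map
  set m : V →ₗ[K] V →ₗ[K] E := LinearMap.mk₂ K (fun y z => h (update (update (fun j => a (v j)) s y)
    t z)) (fun y y' z => by
      rw [update_comm hst, update_comm hst, update_comm hst, MultilinearMap.map_update_add])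
    (fun c y z => by
      rw [update_comm hst, update_comm hst, MultilinearMap.map_update_smul])
    (fun y z z' => MultilinearMap.map_update_add _ _ _ _ _)
    (fun c y z => MultilinearMap.map_update_smul _ _ _ _ _) with hm
  have h1 : ∀ y z, m y z = h (update (update (fun j => a (v j)) s y) t z) := fun y z => rfl
  have h2 : ∀ i, act S a b h (update (update v s (x i)) t (x i.rev)) =
      b (m (a (x i)) (a (x i.rev))) := by
    intro i
    rw [act_apply, h1]
    congr 2
    funext j
    by_cases hjt : j = t
    · subst hjt
      rw [update_self, update_self]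
    · rw [update_of_ne hjt, update_of_ne hjt]
      by_cases hjs : j = s
      · subst hjs
        rw [update_self, update_self]
      · rw [update_of_ne hjs, update_of_ne hjs]
  simp only [h2, ← h1]
  have h3 := congrArg b (hω m)
  rw [map_smul, map_sum, map_sum] at h3
  have h4 : ∀ i, b (e i • m (a (x i)) (a (x i.rev))) = e i • b (m (a (x i)) (a (x i.rev))) :=
    fun i => map_zsmul b _ _
  have h5 : ∀ i, b (e i • m (x i) (x i.rev)) = e i • b (m (x i) (x i.rev)) :=
    fun i => map_zsmul b _ _
  rw [Finset.sum_congr rfl fun i _ => h4 i, Finset.sum_congr rfl fun i _ => h5 i] at h3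
  rw [h3, map_smul, map_sum, Finset.sum_congr rfl fun i _ => h5 i, smul_smul, smul_smul, smul_smul]
  congr 1
  ring

/-- coordinates -/
def co {J : Type} (f : J → V) (h : MultilinearMap K (fun _ : S => V) E) (r : S → J) : E :=
  h fun j => f (r j)

theorem comp_update {J : Type} [DecidableEq J] (f : J → V) (r : S → J) (j : S) (i : J) :
    (fun k => f (update r j i k)) = update (fun k => f (r k)) j (f i) := by
  funext k
  by_cases hk : k = j
  · subst hk
    rw [update_self, update_self]
  · rw [update_of_ne hk, update_of_ne hk]

theorem co_Kop {C : Type} [DecidableEq C] {n : ℕ} {e : Fin n → ℤ} {f : C ⊕ Fin n → V}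
    {θ : V →ₗ[K] V →ₗ[K] K} {s t : S} (hst : s ≠ t) (h : MultilinearMap K (fun _ : S => V) E)
    (r : S → C ⊕ Fin n) : co f (Kop e (fun a => f (Sum.inr a)) θ s t hst h) r =
      θ (f (r s)) (f (r t)) • tro e s t (co f h) r := by
  rw [co, Kop_apply, tro]
  congr 1
  refine Finset.sum_congr rfl fun a _ => ?_
  rw [co, comp_update, comp_update]

end ops

section gen

variable {K : Type u} [Field K] {V : Type v} [AddCommGroup V] [Module K V]
  {E : Type w} [AddCommGroup E] [Module K E] {N : ℕ}

theorem gen_eval_aux {Φ : Module.End K (MultilinearMap K (fun _ : Fin N => V) E)}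
    {ρ : Module.End K V} {σ : Module.End K E}
    (hΦ : ∀ h v, σ (h v) = (Φ h) fun j => ρ (v j)) {lam : K} {α : Fin N → K} (k : ℕ) :
    ∀ (a0 : ℕ) (a : Fin N → ℕ) (h : MultilinearMap K (fun _ : Fin N => V) E) (v : Fin N → V),
      a0 + ∑ j, a j ≤ k → ((Φ - algebraMap K _ lam) ^ a0) h = 0 →
      (∀ j, ((ρ - algebraMap K _ (α j)) ^ (a j)) (v j) = 0) →
      ((σ - algebraMap K _ (lam * ∏ j, α j)) ^ k) (h v) = 0 := by
  induction k with
  | zero =>
    intro a0 a h v h1 h2 _
    have h3 : a0 = 0 := by omega
    subst h3
    rw [pow_zero, Module.End.one_apply] at h2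
    rw [h2, MultilinearMap.zero_apply, map_zero]
  | succ k ih =>
    intro a0 a h v h1 h2 h3
    by_cases h0 : a0 = 0
    · subst h0
      rw [pow_zero, Module.End.one_apply] at h2
      rw [h2, MultilinearMap.zero_apply, map_zero]
    by_cases hz : ∃ j, a j = 0
    · obtain ⟨j, hj⟩ := hz
      have h4 := h3 j
      rw [hj, pow_zero, Module.End.one_apply] at h4
      rw [h.map_coord_zero j h4, map_zero]
    push Not at hz
    obtain ⟨a1, rfl⟩ := Nat.exists_eq_succ_of_ne_zero h0
    rw [pow_succ, Module.End.mul_apply]
    have hρ : ∀ j, ((ρ - algebraMap K _ (α j)) ^ (a j)) (ρ (v j)) = 0 := by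
      intro j
      have hc : Commute ((ρ - algebraMap K (Module.End K V) (α j)) ^ (a j)) ρ :=
        ((Commute.refl ρ).sub_left (Algebra.commute_algebraMap_left _ _)).pow_left _
      have h4 := congrArg (fun G : Module.End K V => G (v j)) hc.eq
      simp only [Module.End.mul_apply] at h4
      rw [h4, h3 j, map_zero]
    have e1 : (σ - algebraMap K _ (lam * ∏ j, α j)) (h v) =
        ((Φ - algebraMap K _ lam) h) (fun j => ρ (v j)) + lam •
          (h (fun j => ρ (v j)) - h (fun j => α j • v j)) := by
      have e2 : h (fun j => α j • v j) = (∏ j, α j) • h v := h.map_smul_univ α v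
      rw [e2, LinearMap.sub_apply, LinearMap.sub_apply, MultilinearMap.sub_apply, hΦ,
        Module.algebraMap_end_apply, Module.algebraMap_end_apply, MultilinearMap.smul_apply,
        smul_sub, smul_smul]
      abel
    have e3 : h (fun j => ρ (v j)) - h (fun j => α j • v j) = ∑ i : Fin N, h (fun j =>
        if j < i then ρ (v j) else if j = i then ρ (v j) - α j • v j else α j • v j) := by
      have h4 := h.map_piecewise_sub_map_piecewise (fun j => ρ (v j)) (fun j => α j • v j)
        (fun j => v j) univ
      simp only [Finset.piecewise_univ, Finset.mem_univ, if_true] at h4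
      exact h4
    rw [e1, e3, map_add, map_smul, map_sum]
    have e4 : ((σ - algebraMap K _ (lam * ∏ j, α j)) ^ k)
        (((Φ - algebraMap K _ lam) h) (fun j => ρ (v j))) = 0 := by
      refine ih a1 a _ _ (by omega) ?_ hρ
      rw [← Module.End.mul_apply, ← pow_succ]
      exact h2
    have e5 : ∀ i : Fin N, ((σ - algebraMap K _ (lam * ∏ j, α j)) ^ k) (h (fun j =>
        if j < i then ρ (v j) else if j = i then ρ (v j) - α j • v j else α j • v j)) = 0 := by
      intro i
      refine ih (a1 + 1) (update a i (a i - 1)) _ _ ?_ h2 ?_
      · have h4 : ∑ j, update a i (a i - 1) j + 1 = ∑ j, a j := by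
          rw [← Finset.add_sum_erase _ _ (Finset.mem_univ i), update_self,
            ← Finset.add_sum_erase univ a (Finset.mem_univ i)]
          have h5 : ∑ j ∈ univ.erase i, update a i (a i - 1) j = ∑ j ∈ univ.erase i, a j := by
            refine Finset.sum_congr rfl fun j hj => ?_
            rw [update_of_ne (Finset.ne_of_mem_erase hj)]
          have h6 := hz i
          rw [h5]
          omega
        omega
      · intro j
        by_cases hji : j < i
        · rw [if_pos hji, update_of_ne hji.ne]
          exact hρ j
        · rw [if_neg hji]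
          by_cases hji' : j = i
          · subst hji'
            rw [if_pos rfl, update_self]
            have h5 : ρ (v j) - α j • v j = (ρ - algebraMap K _ (α j)) (v j) := by
              rw [LinearMap.sub_apply, Module.algebraMap_end_apply]
            rw [h5, ← Module.End.mul_apply, ← pow_succ, Nat.sub_add_cancel
              (Nat.one_le_iff_ne_zero.2 (hz j))]
            exact h3 j
          · rw [if_neg hji', update_of_ne hji', map_smul, h3, smul_zero]
    rw [e4, Finset.sum_eq_zero fun i _ => e5 i, smul_zero, add_zero]

/-- **Values at generalized eigenvectors.** -/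
theorem gen_eval {Φ : Module.End K (MultilinearMap K (fun _ : Fin N => V) E)}
    {ρ : Module.End K V} {σ : Module.End K E}
    (hΦ : ∀ h v, σ (h v) = (Φ h) fun j => ρ (v j)) {lam : K} {α : Fin N → K}
    {h : MultilinearMap K (fun _ : Fin N => V) E} (hh : h ∈ Φ.maxGenEigenspace lam)
    {v : Fin N → V} (hv : ∀ j, v j ∈ ρ.maxGenEigenspace (α j)) :
    h v ∈ σ.maxGenEigenspace (lam * ∏ j, α j) := by
  rw [Module.End.mem_maxGenEigenspace] at hh ⊢
  obtain ⟨a0, h0⟩ := hh
  have h1 : ∀ j, ∃ k, ((ρ - α j • (1 : Module.End K V)) ^ k) (v j) = 0 := fun j =>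
    (Module.End.mem_maxGenEigenspace _ _ _).1 (hv j)
  choose a ha using h1
  refine ⟨a0 + ∑ j, a j, ?_⟩
  have h2 := gen_eval_aux hΦ (lam := lam) (α := α) (a0 + ∑ j, a j) a0 a h v le_rfl
  simp only [Algebra.algebraMap_eq_smul_one] at h2
  exact h2 h0 ha

end gen

end Pool.Agent.W5h58.NF
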