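import Mathlib

/-!
# Bases adapted to a form and to a similitude
-/

set_option autoImplicit false
set_option linter.unusedSectionVars false

open Finset Function

namespace Pool.Agent.W5h58.NF

universe u v

/-- the signs -/
def sgn (s : ℤ) {n : ℕ} (a : Fin n) : ℤ := if a ≤ a.rev then 1 else s

section witt

variable {K : Type u} [Field K] [CharZero K] {T : Type v} [AddCommGroup T] [Module K T]
  {B : T →ₗ[K] T →ₗ[K] K} {F : Module.End K T} {μ : K}

theorem gen_orth_aux (hB : ∀ x y, B (F x) (F y) = μ * B x y) {α β : K} (k : ℕ) :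
    ∀ (a b : ℕ) (x y : T), a + b ≤ k → ((F - α • (1 : Module.End K T)) ^ a) x = 0 →
      ((F - β • (1 : Module.End K T)) ^ b) y = 0 → (α * β - μ) ^ k * B x y = 0 := by
  induction k with
  | zero =>
    intro a b x y hab hx _
    have ha : a = 0 := by omega
    subst ha
    rw [pow_zero, Module.End.one_apply] at hx
    rw [hx, map_zero, LinearMap.zero_apply, mul_zero]
  | succ k ih =>
    intro a b x y hab hx hy
    cases a with
    | zero =>
      rw [pow_zero, Module.End.one_apply] at hx
      rw [hx, map_zero, LinearMap.zero_apply, mul_zero]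
    | succ a =>
      cases b with
      | zero =>
        rw [pow_zero, Module.End.one_apply] at hy
        rw [hy, map_zero, mul_zero]
      | succ b =>
        have hFy : ((F - β • (1 : Module.End K T)) ^ (b + 1)) (F y) = 0 := by
          have hc : Commute ((F - β • (1 : Module.End K T)) ^ (b + 1)) F := by
            apply Commute.pow_left
            exact (Commute.refl _).sub_left ((Commute.one_left _).smul_left β)
          have h4 := congrArg (fun G : Module.End K T => G y) hc.eq
          simp only [Module.End.mul_apply] at h4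
          rw [h4, hy, map_zero]
        rw [pow_succ, Module.End.mul_apply] at hx hy
        have h1 := ih a (b + 1) _ (F y) (by omega) hx hFy
        have h2 := ih (a + 1) b x _ (by omega) (by
          rw [pow_succ, Module.End.mul_apply]
          exact hx) hy
        have h3 := hB x y
        simp only [LinearMap.sub_apply, LinearMap.smul_apply, Module.End.one_apply, map_sub,
          map_smul, smul_eq_mul] at h1 h2
        rw [pow_succ]
        linear_combination -h1 - α * h2 + (α * β - μ) ^ k * h3

/-- orthogonality of generalized eigenspaces -/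
theorem gen_orth (hB : ∀ x y, B (F x) (F y) = μ * B x y) {α β : K} (h : α * β ≠ μ) {x y : T}
    (hx : x ∈ F.maxGenEigenspace α) (hy : y ∈ F.maxGenEigenspace β) : B x y = 0 := by
  rw [Module.End.mem_maxGenEigenspace] at hx hy
  obtain ⟨a, ha⟩ := hx
  obtain ⟨b, hb⟩ := hy
  have h1 := gen_orth_aux hB (a + b) a b x y le_rfl ha hb
  exact (mul_eq_zero.1 h1).resolve_left (pow_ne_zero _ (sub_ne_zero.2 h))

variable [Module.Finite K T]

/-- homogeneous subspaces -/
def Hom' (F : Module.End K T) (T' : Submodule K T) : Prop :=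
  T' ≤ ⨆ α, T' ⊓ F.maxGenEigenspace α

theorem exists_hom {T' : Submodule K T} (hH : Hom' F T') {φ : T →ₗ[K] K}
    (h : ∃ y ∈ T', φ y ≠ 0) : ∃ β, ∃ y ∈ T', y ∈ F.maxGenEigenspace β ∧ φ y ≠ 0 := by
  by_contra hcon
  push Not at hcon
  obtain ⟨y, hy, hy'⟩ := h
  apply hy'
  have h1 : (⨆ α, T' ⊓ F.maxGenEigenspace α) ≤ LinearMap.ker φ :=
    iSup_le fun β z hz => hcon β z hz.1 hz.2
  exact h1 (hH hy)

variable (hB : ∀ x y, B (F x) (F y) = μ * B x y) (hμ : μ ≠ 0) {s : ℤ}
  (hs : s = 1 ∨ s = -1) (hsy : ∀ x y, B x y = (s : K) * B y x) {s0 : K}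
  (hs0 : s = 1 → ∀ α, α * α = μ → F.maxGenEigenspace α ≠ ⊥ → α = s0)

include hB hs hsy hs0 in
/-- isotropic vectors -/
theorem exists_iso [IsAlgClosed K] {T' : Submodule K T} (hH : Hom' F T')
    (hn : 2 ≤ Module.finrank K T') :
    ∃ ξ, ∃ x ∈ T', x ∈ F.maxGenEigenspace ξ ∧ x ≠ 0 ∧ B x x = 0 := by
  have hne : ∃ y ∈ T', y ≠ 0 := by
    refine (Submodule.ne_bot_iff _).1 ?_
    rintro rfl
    rw [finrank_bot] at hn
    omega
  have hhom : ∃ ξ, ∃ x ∈ T', x ∈ F.maxGenEigenspace ξ ∧ x ≠ 0 := by
    obtain ⟨y, hy, hy0⟩ := hne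
    by_contra hcon
    push Not at hcon
    apply hy0
    have h1 : (⨆ α, T' ⊓ F.maxGenEigenspace α) ≤ ⊥ :=
      iSup_le fun β z hz => by rw [Submodule.mem_bot]; exact hcon β z hz.1 hz.2
    exact (Submodule.mem_bot K).1 (h1 (hH hy))
  rcases hs with rfl | rfl
  · have hsy' : ∀ x y, B x y = B y x := fun x y => by rw [hsy, Int.cast_one, one_mul]
    by_contra hcon
    push Not at hcon
    have hall : ∀ ξ, ∀ x ∈ T', x ∈ F.maxGenEigenspace ξ → x ≠ 0 → ξ = s0 := by
      intro ξ x hx hx' hx0
      by_contra hne'
      refine hcon ξ x hx hx' hx0 (gen_orth hB ?_ hx' hx')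
      intro h
      refine hne' (hs0 rfl ξ h ?_)
      intro h'
      rw [h', Submodule.mem_bot] at hx'
      exact hx0 hx'
    have hT' : ∀ x ∈ T', x ∈ F.maxGenEigenspace s0 := by
      have h1 : (⨆ α, T' ⊓ F.maxGenEigenspace α) ≤ F.maxGenEigenspace s0 := by
        refine iSup_le fun β z hz => ?_
        by_cases hz0 : z = 0
        · rw [hz0]; exact Submodule.zero_mem _
        · rw [← hall β z hz.1 hz.2 hz0]
          exact hz.2
      exact fun x hx => h1 (hH hx)
    obtain ⟨x1, hx1, hx10⟩ := hne
    have hq1 := hcon s0 x1 hx1 (hT' _ hx1) hx10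
    obtain ⟨z, hz, hz'⟩ : ∃ z ∈ T', z ∉ Submodule.span K {x1} := by
      by_contra h
      push Not at h
      have h1 := Submodule.finrank_mono (show T' ≤ Submodule.span K {x1} from h)
      have h2 : Module.finrank K (Submodule.span K ({x1} : Set T)) ≤ 1 :=
        (finrank_span_le_card ({x1} : Set T)).trans (by simp)
      omega
    set x2 := z - (B x1 z / B x1 x1) • x1 with hx2
    have hx2T : x2 ∈ T' := Submodule.sub_mem _ hz (Submodule.smul_mem _ _ hx1)
    have hx20 : x2 ≠ 0 := by
      intro h
      apply hz'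
      rw [hx2, sub_eq_zero] at h
      rw [h]
      exact Submodule.smul_mem _ _ (Submodule.mem_span_singleton_self x1)
    have hq2 := hcon s0 x2 hx2T (hT' _ hx2T) hx20
    have h12 : B x1 x2 = 0 := by
      rw [hx2, map_sub, map_smul, smul_eq_mul]
      field_simp
      ring
    obtain ⟨c, hc⟩ := IsAlgClosed.exists_pow_nat_eq (-(B x1 x1) / B x2 x2) (n := 2) (by norm_num)
    have hxT : x1 + c • x2 ∈ T' := Submodule.add_mem _ hx1 (Submodule.smul_mem _ _ hx2T)
    refine hcon s0 (x1 + c • x2) hxT (hT' _ hxT) ?_ ?_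
    · intro h
      apply hq1
      have h1 : B x1 (x1 + c • x2) = 0 := by rw [h, map_zero]
      rw [map_add, map_smul, h12, smul_zero, add_zero] at h1
      exact h1
    · simp only [map_add, map_smul, LinearMap.add_apply, LinearMap.smul_apply, smul_eq_mul]
      rw [hsy' x2 x1, h12]
      have h1 : c ^ 2 * B x2 x2 = -(B x1 x1) := by
        rw [hc]
        field_simp
      linear_combination h1
  · obtain ⟨ξ, x, hx, hx', hx0⟩ := hhom
    refine ⟨ξ, x, hx, hx', hx0, ?_⟩
    have h1 := hsy x x
    push_cast at h1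
    have h2 : (2 : K) * B x x = 0 := by linear_combination h1
    exact (mul_eq_zero.1 h2).resolve_left two_ne_zero

include hB hμ hs hsy hs0 in
/-- **Adapted bases.** -/
theorem exists_witt_aux [IsAlgClosed K] (n : ℕ) : ∀ T' : Submodule K T,
    Module.finrank K T' = n → Hom' F T' → (∀ x ∈ T', (∀ y ∈ T', B x y = 0) → x = 0) →
      ∃ t : Fin n → T, (∀ a, t a ∈ T') ∧ (∀ a, ∃ α, t a ∈ F.maxGenEigenspace α) ∧
        ∀ a b, B (t a) (t b) = if b = a.rev then (sgn s a : K) else 0 := by
  induction n using Nat.strong_induction_on with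
  | _ n ih =>
    intro T' hn hH hnd
    have hss : (s : K) * s = 1 := by
      rcases hs with rfl | rfl <;> norm_num
    match n, hn, ih with
    | 0, hn, _ => exact ⟨fun a => a.elim0, fun a => a.elim0, fun a => a.elim0, fun a => a.elim0⟩
    | 1, hn, _ =>
      obtain ⟨y, hy, hy0⟩ : ∃ y ∈ T', y ≠ 0 := by
        refine (Submodule.ne_bot_iff _).1 ?_
        rintro rfl
        rw [finrank_bot] at hn
        omega
      obtain ⟨ξ, x, hx, hx', hx0⟩ : ∃ ξ, ∃ x ∈ T', x ∈ F.maxGenEigenspace ξ ∧ x ≠ 0 := by
        by_contra hcon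
        push Not at hcon
        apply hy0
        have h1 : (⨆ α, T' ⊓ F.maxGenEigenspace α) ≤ ⊥ :=
          iSup_le fun β z hz => by rw [Submodule.mem_bot]; exact hcon β z hz.1 hz.2
        exact (Submodule.mem_bot K).1 (h1 (hH hy))
      have hspan : ∀ z ∈ T', ∃ c : K, z = c • x := by
        have h1 := (finrank_eq_one_iff_of_nonzero' (⟨x, hx⟩ : T') (fun h => hx0
          (congrArg Subtype.val h))).1 hn
        intro z hz
        obtain ⟨c, hc⟩ := h1 ⟨z, hz⟩
        exact ⟨c, (congrArg Subtype.val hc).symm⟩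
      have hq : B x x ≠ 0 := by
        intro h
        apply hx0
        refine hnd x hx fun z hz => ?_
        obtain ⟨c, rfl⟩ := hspan z hz
        rw [map_smul, h, smul_zero]
      obtain ⟨c, hc⟩ := IsAlgClosed.exists_pow_nat_eq ((B x x)⁻¹) (n := 2) (by norm_num)
      refine ⟨fun _ => c • x, fun _ => Submodule.smul_mem _ _ hx,
        fun _ => ⟨ξ, Submodule.smul_mem _ _ hx'⟩, fun a b => ?_⟩
      have ha : a = 0 := Subsingleton.elim _ _
      have hb : b = 0 := Subsingleton.elim _ _
      subst ha hb
      have h1 : (0 : Fin 1).rev = 0 := Subsingleton.elim _ _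
      rw [if_pos h1.symm, sgn, if_pos (by rw [h1])]
      have h2 : B (c • x) (c • x) = c ^ 2 * B x x := by
        simp only [map_smul, LinearMap.smul_apply, smul_eq_mul]
        ring
      change B (c • x) (c • x) = _
      rw [h2, hc, inv_mul_cancel₀ hq, Int.cast_one]
    | n + 2, hn, ih =>
      obtain ⟨ξ, x, hx, hx', hx0, hxx⟩ := exists_iso hB hs hsy hs0 hH (by omega)
      obtain ⟨β, y0, hy0, hy0', hxy0⟩ := exists_hom hH (φ := B x) (by
        by_contra hcon
        push Not at hcon
        exact hx0 (hnd x hx hcon))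
      have hξβ : ξ * β = μ := by
        by_contra h
        exact hxy0 (gen_orth hB h hx' hy0')
      -- the second vector
      obtain ⟨y1, hy1⟩ : ∃ y1, y1 = (B x y0)⁻¹ • y0 := ⟨_, rfl⟩
      have hxy1 : B x y1 = 1 := by rw [hy1, map_smul, smul_eq_mul, inv_mul_cancel₀ hxy0]
      have hy1T : y1 ∈ T' := by rw [hy1]; exact Submodule.smul_mem _ _ hy0
      have hy1g : y1 ∈ F.maxGenEigenspace β := by rw [hy1]; exact Submodule.smul_mem _ _ hy0'
      obtain ⟨y, hyT, hyg, hxy, hyy⟩ : ∃ y ∈ T', y ∈ F.maxGenEigenspace β ∧ B x y = 1 ∧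
          B y y = 0 := by
        by_cases h : B y1 y1 = 0
        · exact ⟨y1, hy1T, hy1g, hxy1, h⟩
        · have hββ : β * β = μ := by
            by_contra h'
            exact h (gen_orth hB h' hy1g hy1g)
          have hβ0 : β ≠ 0 := by
            rintro rfl
            rw [mul_zero] at hββ
            exact hμ hββ.symm
          have hξ : ξ = β := mul_right_cancel₀ hβ0 (hξβ.trans hββ.symm)
          rw [hξ] at hx'
          refine ⟨y1 - (2⁻¹ * B y1 y1) • x, Submodule.sub_mem _ hy1T (Submodule.smul_mem _ _ hx),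
            Submodule.sub_mem _ hy1g (Submodule.smul_mem _ _ hx'), ?_, ?_⟩
          · rw [map_sub, map_smul, hxx, smul_zero, sub_zero, hxy1]
          · rcases hs with rfl | rfl
            · have h2 := hsy y1 x
              rw [Int.cast_one, one_mul, hxy1] at h2
              simp only [map_sub, map_smul, LinearMap.sub_apply, LinearMap.smul_apply,
                smul_eq_mul, hxx, hxy1, h2]
              ring
            · exfalso
              apply h
              have h1 := hsy y1 y1
              push_cast at h1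
              have h2 : (2 : K) * B y1 y1 = 0 := by linear_combination h1
              exact (mul_eq_zero.1 h2).resolve_left two_ne_zero
      have hyx : B y x = s := by
        have h1 := hsy y x
        rw [hxy, mul_one] at h1
        exact h1
      -- the orthogonal complement
      let L : T' →ₗ[K] K × K := ((B x).prod (B y)) ∘ₗ T'.subtype
      have hL : ∀ z, L z = (B x z, B y z) := fun z => rfl
      have hsurj : LinearMap.range L = ⊤ := by
        rw [LinearMap.range_eq_top]
        rintro ⟨c, d⟩
        refine ⟨c • ⟨y, hyT⟩ + ((s : K) * d) • ⟨x, hx⟩, ?_⟩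
        rw [map_add, map_smul, map_smul, hL, hL, hxy, hyy, hxx, hyx]
        ext
        · simp
        · simp only [Prod.smul_mk, Prod.mk_add_mk, smul_eq_mul]
          linear_combination d * hss
      set T'' := (LinearMap.ker L).map T'.subtype with hT''
      have hmem : ∀ z, z ∈ T'' ↔ z ∈ T' ∧ B x z = 0 ∧ B y z = 0 := by
        intro z
        rw [hT'', Submodule.mem_map]
        constructor
        · rintro ⟨w, hw, rfl⟩
          rw [LinearMap.mem_ker, hL] at hw
          have h1 := Prod.mk.inj hw
          exact ⟨w.2, h1.1, h1.2⟩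
        · rintro ⟨h1, h2, h3⟩
          refine ⟨⟨z, h1⟩, ?_, rfl⟩
          rw [LinearMap.mem_ker, hL, h2, h3]
          rfl
      have hn'' : Module.finrank K T'' = n := by
        have h1 := LinearMap.finrank_range_add_finrank_ker L
        rw [hsurj, finrank_top, Module.finrank_prod, Module.finrank_self, hn] at h1
        have h2 : Module.finrank K T'' = Module.finrank K (LinearMap.ker L) :=
          Submodule.finrank_map_subtype_eq T' (LinearMap.ker L)
        omega
      have hH'' : Hom' F T'' := by
        intro z hz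
        obtain ⟨hzT, hxz, hyz⟩ := (hmem z).1 hz
        obtain ⟨g, hg, hgs⟩ := (Submodule.mem_iSup_iff_exists_finsupp _ _).1 (hH hzT)
        have key : ∀ (ζ : K) (w : T), w ∈ F.maxGenEigenspace ζ → ζ ≠ 0 → B w z = 0 →
            ∀ α, B w (g α) = 0 := by
          intro ζ w hw hζ hwz α
          by_cases hα : ζ * α = μ
          · have h1 : B w z = ∑ β ∈ g.support, B w (g β) := by
              rw [← hgs, Finsupp.sum, map_sum]
            have h2 : ∑ β ∈ g.support, B w (g β) = B w (g α) := by
              refine Finset.sum_eq_single α ?_ ?_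
              · intro β _ hβ
                refine gen_orth hB ?_ hw (hg β).2
                intro h3
                exact hβ (mul_left_cancel₀ hζ (h3.trans hα.symm))
              · intro h3
                rw [Finsupp.notMem_support_iff.1 h3, map_zero]
            rw [← h2, ← h1, hwz]
          · exact gen_orth hB hα hw (hg α).2
        have hξ0 : ξ ≠ 0 := by
          rintro rfl
          rw [zero_mul] at hξβ
          exact hμ hξβ.symm
        have hβ0 : β ≠ 0 := by
          rintro rfl
          rw [mul_zero] at hξβ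
          exact hμ hξβ.symm
        refine (Submodule.mem_iSup_iff_exists_finsupp _ _).2 ⟨g, fun α => ⟨?_, (hg α).2⟩, hgs⟩
        exact (hmem _).2 ⟨(hg α).1, key ξ x hx' hξ0 hxz α, key β y hyg hβ0 hyz α⟩
      have hnd'' : ∀ z ∈ T'', (∀ w ∈ T'', B z w = 0) → z = 0 := by
        intro z hz h
        obtain ⟨hzT, hxz, hyz⟩ := (hmem z).1 hz
        refine hnd z hzT fun w hw => ?_
        have h1 : w - B x w • y - ((s : K) * B y w) • x ∈ T'' := by
          refine (hmem _).2 ⟨Submodule.sub_mem _ (Submodule.sub_mem _ hw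
            (Submodule.smul_mem _ _ hyT)) (Submodule.smul_mem _ _ hx), ?_, ?_⟩
          · simp only [map_sub, map_smul, smul_eq_mul, hxy, hxx]
            ring
          · simp only [map_sub, map_smul, smul_eq_mul, hyy, hyx]
            linear_combination -(B y w) * hss
        have h2 := h _ h1
        have h3 : B z y = 0 := by rw [hsy, hyz, mul_zero]
        have h4 : B z x = 0 := by rw [hsy, hxz, mul_zero]
        simp only [map_sub, map_smul, smul_eq_mul, h3, h4, mul_zero, sub_zero] at h2
        exact h2
      obtain ⟨t, htT, htg, htB⟩ := ih n (by omega) T'' hn'' hH'' hnd''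
      have ht1 : ∀ a, B x (t a) = 0 := fun a => ((hmem _).1 (htT a)).2.1
      have ht2 : ∀ a, B y (t a) = 0 := fun a => ((hmem _).1 (htT a)).2.2
      have ht3 : ∀ a, B (t a) x = 0 := fun a => by rw [hsy, ht1, mul_zero]
      have ht4 : ∀ a, B (t a) y = 0 := fun a => by rw [hsy, ht2, mul_zero]
      set T2 : Fin (n + 2) → T := Fin.cons x (Fin.snoc t y) with hT2
      have e0 : T2 0 = x := rfl
      have e1 : ∀ a : Fin n, T2 a.castSucc.succ = t a := fun a => by
        rw [hT2, Fin.cons_succ, Fin.snoc_castSucc]
      have e2 : T2 (Fin.last n).succ = y := by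
        rw [hT2, Fin.cons_succ, Fin.snoc_last]
      have hcase : ∀ P : Fin (n + 2) → Prop, P 0 → (∀ a : Fin n, P a.castSucc.succ) →
          P (Fin.last n).succ → ∀ a, P a := by
        intro P h0 h1 h2 a
        refine Fin.cases h0 (fun j => ?_) a
        refine Fin.lastCases h2 (fun k => h1 k) j
      have r0 : (0 : Fin (n + 2)).rev = (Fin.last n).succ := by
        apply Fin.ext
        simp [Fin.val_rev]
      have r1 : ∀ a : Fin n, (a.castSucc.succ : Fin (n + 2)).rev = a.rev.castSucc.succ := by
        intro a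
        apply Fin.ext
        simp only [Fin.val_rev, Fin.val_succ, Fin.val_castSucc]
        have := a.2
        omega
      have r2 : ((Fin.last n).succ : Fin (n + 2)).rev = 0 := by
        apply Fin.ext
        simp [Fin.val_rev]
      have n1 : ∀ a : Fin n, (a.castSucc.succ : Fin (n + 2)) ≠ 0 := fun a => Fin.succ_ne_zero _
      have n2 : ∀ a : Fin n, (a.castSucc.succ : Fin (n + 2)) ≠ (Fin.last n).succ := fun a h =>
        (Fin.castSucc_lt_last a).ne (Fin.succ_injective _ h)
      have n3 : ((Fin.last n).succ : Fin (n + 2)) ≠ 0 := Fin.succ_ne_zero _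
      refine ⟨T2, hcase _ ?_ (fun a => ?_) ?_, hcase _ ?_ (fun a => ?_) ?_,
        hcase _ (hcase _ ?_ (fun b => ?_) ?_) (fun a => hcase _ ?_ (fun b => ?_) ?_)
          (hcase _ ?_ (fun b => ?_) ?_)⟩
      · rw [e0]; exact hx
      · rw [e1]; exact ((hmem _).1 (htT a)).1
      · rw [e2]; exact hyT
      · rw [e0]; exact ⟨ξ, hx'⟩
      · rw [e1]; exact htg a
      · rw [e2]; exact ⟨β, hyg⟩
      · rw [e0, hxx, r0, if_neg n3.symm]
      · rw [e0, e1, ht1, r0, if_neg (n2 b)]
      · rw [e0, e2, hxy, r0, if_pos rfl, sgn, if_pos (Fin.zero_le _), Int.cast_one]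
      · rw [e1, e0, ht3, r1, if_neg (n1 _).symm]
      · rw [e1, e1, htB, r1]
        have h1 : (b = a.rev) ↔ ((b.castSucc.succ : Fin (n + 2)) = a.rev.castSucc.succ) :=
          ⟨fun h => by rw [h], fun h => Fin.castSucc_injective _ (Fin.succ_injective _ h)⟩
        have h2 : sgn s (a.castSucc.succ : Fin (n + 2)) = sgn s a := by
          unfold sgn
          rw [r1]
          have h3 : ((a.castSucc.succ : Fin (n + 2)) ≤ a.rev.castSucc.succ) ↔ a ≤ a.rev := by
            rw [Fin.succ_le_succ_iff, Fin.castSucc_le_castSucc_iff]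
          simp only [h3]
        by_cases hb : b = a.rev
        · rw [if_pos hb, if_pos (h1.1 hb), h2]
        · rw [if_neg hb, if_neg (fun h => hb (h1.2 h))]
      · rw [e1, e2, ht4, r1, if_neg (n2 _).symm]
      · rw [e2, e0, hyx, r2, if_pos rfl, sgn, r2, if_neg (fun h => n3 (Fin.le_zero_iff.1 h))]
      · rw [e2, e1, ht2, r2, if_neg (n1 b)]
      · rw [e2, hyy, r2, if_neg n3]

omit [Field K] [CharZero K] [AddCommGroup T] [Module K T] [Module.Finite K T] in
include hs in
theorem sgn_sq {n : ℕ} (a : Fin n) : sgn s a * sgn s a = 1 := by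
  unfold sgn
  split_ifs
  · rfl
  · rcases hs with rfl | rfl <;> rfl

include hB hμ hs hsy hs0 in
/-- **Adapted bases of the whole space.** -/
theorem exists_witt [IsAlgClosed K] (hnd : ∀ x, (∀ y, B x y = 0) → x = 0) :
    ∃ (t : Module.Basis (Fin (Module.finrank K T)) K T)
      (α : Fin (Module.finrank K T) → K), (∀ a, t a ∈ F.maxGenEigenspace (α a)) ∧
      (∀ a, α a * α a.rev = μ) ∧
      (∀ a b, B (t a) (t b) = if b = a.rev then (sgn s a : K) else 0) ∧
      (∀ a : Fin (Module.finrank K T), sgn s a.rev = s * sgn s a) := by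
  obtain ⟨t, -, htg, htB⟩ := exists_witt_aux hB hμ hs hsy hs0 _ ⊤
    (finrank_top K T) (by
      intro x _
      have h1 := Module.End.iSup_maxGenEigenspace_eq_top F
      have h2 : x ∈ ⨆ α, F.maxGenEigenspace α := by
        rw [h1]; exact Submodule.mem_top
      have h3 : (⨆ α, F.maxGenEigenspace α) ≤ ⨆ α, ⊤ ⊓ F.maxGenEigenspace α := by
        refine iSup_mono fun α => ?_
        rw [top_inf_eq]
      exact h3 h2) (fun x _ h => hnd x fun y => h y Submodule.mem_top)
  have hsq : ∀ a : Fin (Module.finrank K T), (sgn s a : K) ≠ 0 := by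
    intro a h
    have h1 : sgn s a = 0 := by exact_mod_cast h
    have h2 := sgn_sq hs a
    rw [h1, mul_zero] at h2
    exact zero_ne_one h2
  have hli : LinearIndependent K t := by
    rw [Fintype.linearIndependent_iff]
    intro c hc b
    have h1 : B (∑ a, c a • t a) (t b.rev) = 0 := by rw [hc, map_zero, LinearMap.zero_apply]
    rw [map_sum, LinearMap.sum_apply, Finset.sum_eq_single b] at h1
    · rw [map_smul, LinearMap.smul_apply, htB, if_pos rfl, smul_eq_mul] at h1
      exact (mul_eq_zero.1 h1).resolve_right (hsq b)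
    · intro a _ hab
      rw [map_smul, LinearMap.smul_apply, htB, if_neg, smul_zero]
      intro h
      exact hab (Fin.rev_injective h.symm)
    · intro h
      exact absurd (Finset.mem_univ _) h
  choose α hα using htg
  let t' := basisOfLinearIndependentOfCardEqFinrank' t hli (Fintype.card_fin _)
  have ht' : ∀ a, t' a = t a := fun a => by
    simp only [t', coe_basisOfLinearIndependentOfCardEqFinrank']
  refine ⟨t', α, fun a => by rw [ht']; exact hα a, fun a => ?_, fun a b => by
    rw [ht', ht', htB], fun a => ?_⟩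
  · by_contra h
    have h1 := gen_orth hB h (hα a) (hα a.rev)
    rw [htB, if_pos rfl] at h1
    exact hsq a h1
  · rcases lt_trichotomy a a.rev with h | h | h
    · rw [sgn, Fin.rev_rev, if_neg (not_le.2 h), sgn, if_pos h.le, mul_one]
    · rcases hs with rfl | rfl
      · rw [← h, one_mul]
      · exfalso
        have h1 := hsy (t a) (t a)
        have h2 : (2 : K) * B (t a) (t a) = 0 := by push_cast at h1; linear_combination h1
        have h3 := (mul_eq_zero.1 h2).resolve_left two_ne_zero
        rw [htB, if_pos h] at h3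
        exact hsq a h3
    · rw [sgn, Fin.rev_rev, if_pos h.le, sgn, if_neg (not_le.2 h)]
      rcases hs with rfl | rfl <;> rfl

end witt

end Pool.Agent.W5h58.NF
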