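import Pool.Agent.W5h58.NF.Eig
import Pool.Agent.W5h58.NF.Witt

/-!
# Powers of operators, and the letters with small slopes
-/

set_option autoImplicit false
set_option linter.unusedSectionVars false

open Finset Function

namespace Pool.Agent.W5h58.NF

universe u v w

section pow

variable {K : Type u} [Field K] {V : Type v} [AddCommGroup V] [Module K V]

theorem gen_pow (F : Module.End K V) (α : K) (m : ℕ) :
    F.maxGenEigenspace α ≤ (F ^ m).maxGenEigenspace (α ^ m) := by
  intro x hx
  rw [Module.End.mem_maxGenEigenspace] at hx ⊢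
  obtain ⟨n, hn⟩ := hx
  refine ⟨n, ?_⟩
  have hc : Commute F (α • (1 : Module.End K V)) := (Commute.one_right F).smul_right α
  have h1 := hc.geom_sum₂_mul m
  have h2 : (α • (1 : Module.End K V)) ^ m = α ^ m • (1 : Module.End K V) := by
    rw [smul_pow, one_pow]
  rw [h2] at h1
  have hc2 : Commute (∑ i ∈ range m, F ^ i * (α • (1 : Module.End K V)) ^ (m - 1 - i))
      (F - α • 1) := by
    apply Commute.sub_right
    · apply Commute.sum_left
      intro i _
      exact ((Commute.refl F).pow_left i).mul_left (hc.symm.pow_left _)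
    · apply Commute.smul_right
      exact Commute.one_right _
  rw [← h1, hc2.mul_pow, Module.End.mul_apply, hn, map_zero]

theorem exists_root [IsAlgClosed K] [Module.Finite K V] {F : Module.End K V} {m : ℕ} {β : K}
    (h : (F ^ m).maxGenEigenspace β ≠ ⊥) : ∃ α, α ^ m = β ∧ F.maxGenEigenspace α ≠ ⊥ := by
  by_contra hcon
  push Not at hcon
  apply h
  rw [eq_bot_iff]
  have h1 : (⊤ : Submodule K V) ≤ ⨆ (β' : K) (_ : β' ≠ β), (F ^ m).maxGenEigenspace β' := by
    rw [← Module.End.iSup_maxGenEigenspace_eq_top F]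
    refine iSup_le fun α => ?_
    by_cases hα : α ^ m = β
    · rw [hcon α hα]
      exact bot_le
    · exact (gen_pow F α m).trans (le_iSup₂_of_le
        (f := fun (β' : K) (_ : β' ≠ β) => (F ^ m).maxGenEigenspace β') _ hα le_rfl)
  have h2 := (Module.End.independent_maxGenEigenspace (F ^ m)) β
  rw [← h2.eq_bot]
  exact le_inf le_rfl (le_top.trans h1)

theorem GP_pow {F : Module.End K V} {P P' : K → Prop} {m : ℕ} (h : ∀ β, P β → P' (β ^ m)) :
    GP F P ≤ GP (F ^ m) P' :=
  iSup₂_le fun β hβ => (gen_pow F β m).trans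
    (le_iSup₂_of_le (f := fun (β : K) (_ : P' β) => (F ^ m).maxGenEigenspace β) _ (h β hβ) le_rfl)

theorem Dvd.pow {q : K} {D : ℕ} {x : ℤ} {β : K} (h : Dvd K q D x β) (m : ℕ) :
    Dvd K (q ^ m) D x (β ^ m) := by
  unfold Dvd at h ⊢
  have h1 : (β ^ m) ^ D / (q ^ m) ^ x = (β ^ D / q ^ x) ^ m := by
    rw [div_pow, ← pow_mul, ← pow_mul, mul_comm m D, ← zpow_natCast q m, ← zpow_mul,
      ← zpow_natCast (q ^ x) m, ← zpow_mul, mul_comm (m : ℤ) x]
  rw [h1]
  exact IsIntegral.pow h m

theorem finite_gen [Module.Finite K V] (F : Module.End K V) :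
    {α | F.maxGenEigenspace α ≠ ⊥}.Finite :=
  WellFoundedGT.finite_ne_bot_of_iSupIndep (Module.End.independent_maxGenEigenspace F)

/-- no negative square roots for suitable powers -/
theorem exists_trick [Module.Finite K V] (F : Module.End K V) {q0 : K} (hq0 : q0 ≠ 0) :
    ∃ m > 0, ∀ k > 0, ∀ α, F.maxGenEigenspace α ≠ ⊥ →
      α ^ (m * k) * α ^ (m * k) = (q0 * q0) ^ (m * k) → α ^ (m * k) = q0 ^ (m * k) := by
  classical
  set s := (finite_gen F).toFinset with hs
  refine ⟨∏ α ∈ s, if 0 < orderOf (α / q0) then orderOf (α / q0) else 1, ?_, ?_⟩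
  · refine Finset.prod_pos fun α _ => ?_
    split_ifs with h
    · exact h
    · exact one_pos
  · intro k hk α hα h
    set m := ∏ α ∈ s, if 0 < orderOf (α / q0) then orderOf (α / q0) else 1 with hm
    have hm0 : 0 < m := by
      refine Finset.prod_pos fun α _ => ?_
      split_ifs with h
      · exact h
      · exact one_pos
    have hq : q0 ^ (m * k) ≠ 0 := pow_ne_zero _ hq0
    have h1 : (α / q0) ^ (2 * (m * k)) = 1 := by
      rw [div_pow, pow_mul' α, pow_mul' q0, div_eq_one_iff_eq (pow_ne_zero _ hq), pow_two, pow_two,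
        h, mul_pow]
    have h2 : 0 < orderOf (α / q0) :=
      orderOf_pos_iff.2 (isOfFinOrder_iff_pow_eq_one.2 ⟨_, by positivity, h1⟩)
    have h3 : orderOf (α / q0) ∣ m := by
      have h4 : α ∈ s := by
        rw [hs, Set.Finite.mem_toFinset]
        exact hα
      have h5 := Finset.dvd_prod_of_mem
        (fun α => if 0 < orderOf (α / q0) then orderOf (α / q0) else 1) h4
      beta_reduce at h5
      rw [if_pos h2] at h5
      exact h5
    have h4 : (α / q0) ^ (m * k) = 1 := orderOf_dvd_iff_pow_eq_one.1 (h3.mul_right k)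
    rwa [div_pow, div_eq_one_iff_eq hq] at h4

/-- Matching generalized eigenvectors. -/
theorem exists_match {F : Module.End K V} {n N : ℕ} (t : Module.Basis (Fin n) K V)
    {α : Fin n → K} (hα : ∀ a, t a ∈ F.maxGenEigenspace (α a)) {v : Fin N → V}
    (hv : LinearIndependent K v) {β : Fin N → K} (hβ : ∀ i, v i ∈ F.maxGenEigenspace (β i)) :
    ∃ j : Fin N → Fin n, Function.Injective j ∧ ∀ i, α (j i) = β i := by
  classical
  have hcard : ∀ b : K, Fintype.card {i // β i = b} ≤ Fintype.card {a // α a = b} := by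
    intro b
    set P := Submodule.span K (Set.range fun a : {a // α a = b} => t a.1) with hP
    have hgen : F.maxGenEigenspace b ≤ P := by
      intro z hz
      have h1 : z - ∑ a ∈ univ.filter (fun a => α a = b), t.repr z a • t a =
          ∑ a ∈ univ.filter (fun a => ¬ α a = b), t.repr z a • t a := by
        rw [sub_eq_iff_eq_add, add_comm, Finset.sum_filter_add_sum_filter_not]
        exact (t.sum_repr z).symm
      have h2 : ∑ a ∈ univ.filter (fun a => α a = b), t.repr z a • t a ∈
          F.maxGenEigenspace b := by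
        refine Submodule.sum_mem _ fun a ha => Submodule.smul_mem _ _ ?_
        rw [← (Finset.mem_filter.1 ha).2]
        exact hα a
      have h3 : ∑ a ∈ univ.filter (fun a => ¬ α a = b), t.repr z a • t a ∈
          ⨆ (b' : K) (_ : b' ≠ b), F.maxGenEigenspace b' := by
        refine Submodule.sum_mem _ fun a ha => Submodule.smul_mem _ _ ?_
        exact (le_iSup₂_of_le (f := fun (b' : K) (_ : b' ≠ b) => F.maxGenEigenspace b') _
          (Finset.mem_filter.1 ha).2 le_rfl) (hα a)
      have h4 : z - ∑ a ∈ univ.filter (fun a => α a = b), t.repr z a • t a ∈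
          F.maxGenEigenspace b := Submodule.sub_mem _ hz h2
      have h5 := Submodule.disjoint_def.1 ((Module.End.independent_maxGenEigenspace F) b) _ h4
        (by rw [h1]; exact h3)
      rw [sub_eq_zero] at h5
      rw [h5]
      refine Submodule.sum_mem _ fun a ha => Submodule.smul_mem _ _ (Submodule.subset_span ?_)
      exact ⟨⟨a, (Finset.mem_filter.1 ha).2⟩, rfl⟩
    have hfin : Module.Finite K P := Module.Finite.span_of_finite K (Set.finite_range _)
    have hli : LinearIndependent K (fun i : {i // β i = b} =>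
        (⟨v i.1, hgen (by have h := hβ i.1; rw [i.2] at h; exact h)⟩ : P)) := by
      refine LinearIndependent.of_comp P.subtype ?_
      exact hv.comp _ Subtype.val_injective
    exact hli.fintype_card_le_finrank.trans (finrank_range_le_card _)
  have hemb : ∀ b : K, Nonempty ({i // β i = b} ↪ {a // α a = b}) := fun b =>
    Function.Embedding.nonempty_of_card_le (hcard b)
  let φ : ∀ b : K, {i // β i = b} ↪ {a // α a = b} := fun b => (hemb b).some
  have hφ : ∀ (i : Fin N) (b : K) (h : β i = b), (φ (β i) ⟨i, rfl⟩).1 = (φ b ⟨i, h⟩).1 := by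
    intro i b h
    subst h
    rfl
  refine ⟨fun i => (φ (β i) ⟨i, rfl⟩).1, ?_, fun i => (φ (β i) ⟨i, rfl⟩).2⟩
  intro i i' h
  beta_reduce at h
  have h1 : β i = β i' := by
    rw [← (φ (β i) ⟨i, rfl⟩).2, ← (φ (β i') ⟨i', rfl⟩).2, h]
  rw [hφ i (β i') h1] at h
  exact congrArg Subtype.val ((φ (β i')).injective (Subtype.ext h))

end pow

section letters

variable {K : Type u} [Field K] {T : Type v} [AddCommGroup T] [Module K T]

theorem exists_letters {F : Module.End K T} {n N : ℕ} (t : Module.Basis (Fin n) K T)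
    {α : Fin n → K} (hα : ∀ a, t a ∈ F.maxGenEigenspace (α a)) {q : K} (hq : q ≠ 0)
    (hqi : IsIntegral ℤ q) {d w D c : ℕ} (hαT : ∀ a, α a * α a.rev = q ^ d)
    (hint : ∀ a, IsIntegral ℤ (α a / q ^ c))
    (hn : 2 * N ≤ n) (hsl : ∀ O : ValuationSubring K, q⁻¹ ∉ O →
      ∃ (v : Fin N → T) (β : Fin N → K), LinearIndependent K v ∧
        (∀ i, v i ∈ F.maxGenEigenspace (β i) ∧ β i ^ 2 / q ^ d ∉ O) ∧
          q ^ w / (∏ i, β i / q ^ c) ^ D ∈ O) (O : ValuationSubring K) :
    ∃ A : Finset (Fin n), N ≤ A.card ∧ (∀ a ∈ A, a.rev ∉ A) ∧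
      q ^ w / (∏ a ∈ A, α a.rev / q ^ c) ^ D ∈ O := by
  classical
  have hO : ∀ z : K, IsIntegral ℤ z → z ∈ O := by
    intro z hz
    have h1 : IsIntegral O z := hz.tower_top
    obtain ⟨y, hy⟩ := IsIntegrallyClosed.isIntegral_iff.1 h1
    rw [← hy]
    exact y.2
  have hα0 : ∀ a, α a ≠ 0 := fun a h => by
    have h1 := hαT a
    rw [h, zero_mul] at h1
    exact pow_ne_zero _ hq h1.symm
  by_cases hqO : q⁻¹ ∈ O
  · refine ⟨univ.filter fun a : Fin n => a.val < N, ?_, ?_, ?_⟩
    · rw [Fin.card_filter_val_lt]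
      omega
    · intro a ha ha'
      rw [Finset.mem_filter] at ha ha'
      have h1 := Fin.val_rev a
      omega
    · have h1 : ∀ a, (α a / q ^ c)⁻¹ ∈ O := by
        intro a
        have h2 : (α a / q ^ c)⁻¹ = (α a.rev / q ^ c) * (q⁻¹) ^ d * (q ^ c * q ^ c) := by
          rw [inv_pow, ← hαT a, mul_inv]
          have h3 := hα0 a
          have h4 := hα0 a.rev
          have h5 : q ^ c ≠ 0 := pow_ne_zero _ hq
          field_simp
        rw [h2]
        have h3 := O.pow_mem (hO q hqi) c
        exact O.mul_mem _ _ (O.mul_mem _ _ (hO _ (hint _)) (O.pow_mem hqO _))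
          (O.mul_mem _ _ h3 h3)
      rw [div_eq_mul_inv, ← inv_pow, ← Finset.prod_inv_distrib]
      exact O.mul_mem _ _ (O.pow_mem (hO q hqi) _)
        (O.pow_mem (O.toSubring.prod_mem fun a _ => h1 _) _)
  · obtain ⟨v, β, hv, hβ, hw⟩ := hsl O hqO
    obtain ⟨j, hj, hjα⟩ := exists_match t hα hv fun i => (hβ i).1
    have hnot : ∀ a ∈ univ.image j, a.rev ∉ univ.image j := by
      intro a ha ha'
      rw [Finset.mem_image] at ha ha'
      obtain ⟨i, -, rfl⟩ := ha
      obtain ⟨i', -, hi'⟩ := ha'
      have h1 := (hβ i).2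
      have h2 := (hβ i').2
      rw [← hjα, hi'] at h2
      rw [← hjα] at h1
      have h3 : (α (j i) ^ 2 / q ^ d) * (α (j i).rev ^ 2 / q ^ d) = 1 := by
        have h4 := hαT (j i)
        have h5 : q ^ d ≠ 0 := pow_ne_zero _ hq
        field_simp
        rw [← mul_pow, h4]
      rcases O.mem_or_inv_mem (α (j i) ^ 2 / q ^ d) with h | h
      · exact h1 h
      · apply h2
        rwa [eq_inv_of_mul_eq_one_right h3]
    refine ⟨(univ.image j).image Fin.rev, ?_, ?_, ?_⟩
    · rw [Finset.card_image_of_injective _ Fin.rev_injective, Finset.card_image_of_injective _ hj,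
        Finset.card_univ, Fintype.card_fin]
    · intro a ha ha'
      rw [Finset.mem_image] at ha ha'
      obtain ⟨b, hb, rfl⟩ := ha
      obtain ⟨b', hb', h⟩ := ha'
      rw [Fin.rev_rev] at h
      refine hnot b' hb' ?_
      rw [h]
      exact hb
    · rw [Finset.prod_image (fun _ _ _ _ h => Fin.rev_injective h),
        Finset.prod_image (fun _ _ _ _ h => hj h)]
      simp only [Fin.rev_rev, hjα]
      exact hw

end letters

end Pool.Agent.W5h58.NF
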