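import Pool.Agent.W5h58.NF.CoreT

/-!
# The decomposition into types
-/

set_option autoImplicit false
set_option linter.unusedSectionVars false

open Finset Function

namespace Pool.Agent.W5h58.NF

open Pool.Agent.TH125.Gal

universe u v w x y

variable {K : Type u} [Field K] [CharZero K] {V : Type v} [AddCommGroup V]
  [Module K V] {E : Type w} [AddCommGroup E] [Module K E]
  {G : Type x} [Group G] {T : Type y} [AddCommGroup T] [Module K T] {C : Type} [Fintype C]
  [DecidableEq C] {n : ℕ} {dt : Dat K V E G T C n} {N : ℕ}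

/-- the projection to the vectors of a given type -/
noncomputable def Dat.pr (dt : Dat K V E G T C n) (o : Option C) : V →ₗ[K] V :=
  o.elim (dt.i ∘ₗ dt.p) fun c => (dt.f.coord (Sum.inl c)).smulRight (dt.f (Sum.inl c))

theorem pr_f (o : Option C) (j : C ⊕ Fin n) :
    dt.pr o (dt.f j) = if (Sum.elim some (fun _ => none) j : Option C) = o then dt.f j else 0 := by
  rcases o with _ | c
  · change dt.i (dt.p (dt.f j)) = _
    rcases j with c | a
    · rw [dt.hfc, map_zero, if_neg (by simp)]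
    · rw [dt.hft, dt.hpi, Sum.elim_inr, if_pos rfl]
  · change dt.f.coord (Sum.inl c) (dt.f j) • dt.f (Sum.inl c) = _
    rw [Module.Basis.coord_apply, Module.Basis.repr_self, Finsupp.single_apply]
    rcases j with c' | a
    · by_cases h : c' = c
      · subst h
        rw [if_pos rfl, one_smul, Sum.elim_inl, if_pos rfl]
      · rw [if_neg (fun h' => h (Sum.inl_injective h')), zero_smul, if_neg]
        exact fun h' => h (Option.some_injective _ h')
    · rw [if_neg (by simp), zero_smul, if_neg (by simp)]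

/-- the projection to the maps of a given type -/
noncomputable def Dat.ptau (dt : Dat K V E G T C n) (τ : Fin N → Option C) :
    Module.End K (MultilinearMap K (fun _ : Fin N => V) E) :=
  MultilinearMap.compLinearMapₗ fun j => dt.pr (τ j)

theorem ptau_apply (τ : Fin N → Option C) (h : MultilinearMap K (fun _ : Fin N => V) E)
    (v : Fin N → V) : dt.ptau τ h v = h fun j => dt.pr (τ j) (v j) := rfl

theorem co_ptau (τ : Fin N → Option C) (h : MultilinearMap K (fun _ : Fin N => V) E)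
    (r : Fin N → C ⊕ Fin n) : co dt.f (dt.ptau τ h) r = if pt r = τ then co dt.f h r else 0 := by
  rw [co, ptau_apply]
  by_cases hr : pt r = τ
  · rw [if_pos hr, co]
    congr 1
    funext j
    have h1 : (Sum.elim some (fun _ => none) (r j) : Option C) = τ j := congrFun hr j
    rw [pr_f, if_pos h1]
  · rw [if_neg hr]
    obtain ⟨j, hj⟩ := Function.ne_iff.1 hr
    refine h.map_coord_zero j ?_
    have h1 : ¬ (Sum.elim some (fun _ => none) (r j) : Option C) = τ j := hj
    rw [pr_f, if_neg h1]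

theorem ptau_ty (τ : Fin N → Option C) (h : MultilinearMap K (fun _ : Fin N => V) E) :
    dt.ptau τ h ∈ Ty K E dt.f τ := by
  intro r hr
  by_contra hne
  rw [co_ptau, if_neg hne] at hr
  exact hr rfl

theorem sum_ptau (h : MultilinearMap K (fun _ : Fin N => V) E) : ∑ τ, dt.ptau τ h = h := by
  refine co_inj (f := dt.f) ?_
  funext r
  have h1 : co dt.f (∑ τ, dt.ptau τ h) r = ∑ τ, co dt.f (dt.ptau τ h) r := by
    rw [co, _root_.sum_apply]
    rfl
  rw [h1, Finset.sum_congr rfl fun τ _ => co_ptau τ h r, Finset.sum_ite_eq, if_pos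
    (Finset.mem_univ _)]

/-- the subgroup acts on the fixed letters by scalars -/
def Dat.Fix (dt : Dat K V E G T C n) (Δ : Subgroup G) : Prop :=
  ∀ g ∈ Δ, ∀ c, ∃ ν : K, dt.ρV g (dt.f (Sum.inl c)) = ν • dt.f (Sum.inl c) ∧
    ∀ v, dt.f.coord (Sum.inl c) (dt.ρV g v) = ν * dt.f.coord (Sum.inl c) v

theorem ptau_gact {Δ : Subgroup G} (hfix : dt.Fix Δ) (τ : Fin N → Option C) {g : G} (hg : g ∈ Δ)
    (h : MultilinearMap K (fun _ : Fin N => V) E) :
    gact (Fin N) dt.ρV dt.σ g (dt.ptau τ h) = dt.ptau τ (gact (Fin N) dt.ρV dt.σ g h) := by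
  ext v
  rw [gact_apply, ptau_apply, ptau_apply, gact_apply]
  congr 2
  funext j
  rcases τ j with _ | c
  · change dt.i (dt.p (dt.ρV g⁻¹ (v j))) = dt.ρV g⁻¹ (dt.i (dt.p (v j)))
    rw [dt.hp, dt.hi]
  · obtain ⟨ν, h1, h2⟩ := hfix g⁻¹ (Δ.inv_mem hg) c
    change dt.f.coord (Sum.inl c) (dt.ρV g⁻¹ (v j)) • dt.f (Sum.inl c) =
      dt.ρV g⁻¹ (dt.f.coord (Sum.inl c) (v j) • dt.f (Sum.inl c))
    rw [h2, map_smul, h1, smul_smul, mul_comm]

theorem good_ptau {Δ : Subgroup G} (hfix : dt.Fix Δ) {γ : G} (hγ : γ ∈ Δ) {q : K} {D : ℕ} {x : ℤ}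
    {U : Submodule K (MultilinearMap K (fun _ : Fin N => V) E)} (hU : Stb dt.ρV dt.σ Δ U)
    (hU' : U ≤ GP (gact (Fin N) dt.ρV dt.σ γ) (Dvd K q D x)) (τ : Fin N → Option C) :
    Good dt Δ γ q D x τ (U.map (dt.ptau τ)) := by
  refine ⟨stb_map (ν := fun _ => 1) hU fun g hg h => ?_, ?_, ?_⟩
  · rw [ptau_gact hfix τ hg, one_smul]
  · rintro _ ⟨h, hh, rfl⟩
    refine GP_map (φ := dt.ptau τ) (c := 1) (fun v => ?_) (P := Dvd K q D x)
      (P' := Dvd K q D x) (fun β hβ => ?_) (hU' hh)
    · rw [ptau_gact hfix τ hγ, one_smul]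
    · rwa [one_mul]
  · rintro _ ⟨h, hh, rfl⟩
    exact ptau_ty τ h

end Pool.Agent.W5h58.NF
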