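import Pool.Agent.W5h58.NF.WSB
import Pool.Agent.W5h58.NF.Typ

/-!
# The generalized Tate conjecture for products with powers
-/

set_option autoImplicit false
set_option linter.unusedSectionVars false

open CategoryTheory AlgebraicGeometry Finset Function

universe u v w x

namespace Pool.Agent.W5h58.NF

open Pool.Agent.H914 Pool.Agent.H914.VarClass Pool.Agent.H914.VarClass.Obj
  Pool.Agent.H914.WeilCohomology Pool.Agent.H281R3.HT Pool.Agent.W552 Pool.Agent.TH125.Gal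

variable {k : Type u} [Field k] {𝒱 : VarClass k} {ops : CycleOps 𝒱}
  {W : WeilCohomology.{u, v} ops} {Γ : Type w} [Group Γ] {χ : Γ →* W.Kˣ}

theorem slopePart_eq {K V : Type*} [Field K] [AddCommGroup V] [Module K V] (F : V →ₗ[K] V) (q : K)
    (D : ℕ) (x : ℤ) : slopePart F q D x = GP F (Dvd K q D x) := rfl

theorem eig_gen {K V : Type*} [Field K] [AddCommGroup V] [Module K V] {T : Module.End K V} {v : V}
    {μ : K} (h : T v = μ • v) : v ∈ T.maxGenEigenspace μ := by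
  rw [Module.End.mem_maxGenEigenspace]
  refine ⟨1, ?_⟩
  rw [pow_one, LinearMap.sub_apply, h, LinearMap.smul_apply, Module.End.one_apply, sub_self]

/-- a subgroup of finite index acting by characters on all algebraic classes -/
theorem exists_fix_all {X : 𝒱.Obj} {ρ : Γ →* (W.H X ≃ₐ[W.K] W.H X)} (hDX : HomEqNum W X)
    (hG : IsGalois W χ X ρ) : ∃ Δ : Subgroup Γ, Δ.FiniteIndex ∧
      ∀ g ∈ Δ, ∀ j, ∀ c ∈ algClasses W X j, ρ g c = (χ g : W.K) ^ j • c := by
  obtain ⟨s⟩ := exists_SB hDX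
  obtain ⟨Δ, hΔ, hfix⟩ := exists_fix hG s
  refine ⟨Δ, hΔ, fun g hg j c hc => ?_⟩
  have h1 : (⟨c, alg_mem hc⟩ : algSpan W X) = ∑ i, s.bC.repr ⟨c, alg_mem hc⟩ i • s.bC i :=
    (s.bC.sum_repr _).symm
  set a := s.bC.repr ⟨c, alg_mem hc⟩ with ha
  have h2 : c = ∑ i, a i • (s.bC i : W.H X) := by
    have h3 := congrArg Subtype.val h1
    rw [Submodule.coe_sum] at h3
    exact h3
  have h3 : c = ∑ i, (if s.jC i = j then a i • (s.bC i : W.H X) else 0) := by
    conv_lhs => rw [← proj_same (W.isInternal X) (alg_gr hc), h2]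
    rw [map_sum]
    refine Finset.sum_congr rfl fun i _ => ?_
    rw [map_smul]
    by_cases hi : s.jC i = j
    · rw [if_pos hi, ← hi, proj_same _ (alg_gr (s.alg i))]
    · rw [if_neg hi, proj_ne _ (alg_gr (s.alg i)) (by omega), smul_zero]
  rw [h3, map_sum, Finset.smul_sum]
  refine Finset.sum_congr rfl fun i _ => ?_
  by_cases hi : s.jC i = j
  · rw [if_pos hi, map_smul, hfix g hg i, hi, smul_comm]
  · rw [if_neg hi, map_zero, smul_zero]

theorem coord_esB {X : 𝒱.Obj} (hDX : HomEqNum W X) (s : SB W X) (i : Fin s.NC) (v : W.H X) :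
    (esB hDX s).coord (Sum.inl i) v = bil W X v (s.bC i) := by
  have h1 : (esB hDX s).coord (Sum.inl i) = (bil W X).flip (s.bC i) := by
    refine (esB hDX s).ext fun j => ?_
    rw [Module.Basis.coord_apply, Module.Basis.repr_self, LinearMap.flip_apply, esB_apply,
      ← s.e_inl, s.es_e, Finsupp.single_apply]
    by_cases h : j = Sum.inl i
    · rw [if_pos h, if_pos h.symm]
    · rw [if_neg h, if_neg (Ne.symm h)]
  rw [h1, LinearMap.flip_apply]

/-- the action on the letters -/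
theorem esB_fix {X : 𝒱.Obj} {ρ : Γ →* (W.H X ≃ₐ[W.K] W.H X)} (hDX : HomEqNum W X)
    (hG : IsGalois W χ X ρ) (s : SB W X) {g : Γ}
    (hg : ∀ i, ρ g (s.bC i) = (χ g : W.K) ^ s.jC i • (s.bC i : W.H X)) (i : Fin s.NC) :
    rhoV ρ g (esB hDX s (Sum.inl i)) = (χ g : W.K) ^ (X.dim - s.jC i) • esB hDX s (Sum.inl i) ∧
      ∀ v, (esB hDX s).coord (Sum.inl i) (rhoV ρ g v) =
        (χ g : W.K) ^ (X.dim - s.jC i) * (esB hDX s).coord (Sum.inl i) v := by
  refine ⟨?_, fun v => ?_⟩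
  · rw [esB_apply]
    exact uC_act hG s hg i
  · rw [coord_esB, coord_esB]
    have h1 := bil_act hG g v (s.bC i)
    rw [hg, map_smul, smul_eq_mul] at h1
    have h2 : (χ g : W.K) ^ X.dim = (χ g : W.K) ^ s.jC i * (χ g : W.K) ^ (X.dim - s.jC i) := by
      rw [← pow_add, Nat.add_sub_cancel' (jC_le s i)]
    have h3 : (χ g : W.K) ^ s.jC i ≠ 0 := pow_ne_zero _ (Units.ne_zero _)
    rw [h2, mul_assoc] at h1
    exact mul_left_cancel₀ h3 h1

/-- in valuation rings -/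
theorem mem_of_pow {K : Type*} [Field K] {O : ValuationSubring K} {z : K} {m : ℕ} (hm : 0 < m)
    (h : z ^ m ∈ O) : z ∈ O := by
  rcases O.mem_or_inv_mem z with h1 | h1
  · exact h1
  · by_cases hz : z = 0
    · rw [hz]; exact O.zero_mem
    · have h2 : z = z ^ m * (z⁻¹) ^ (m - 1) := by
        obtain ⟨j, rfl⟩ := Nat.exists_eq_add_of_le hm
        rw [Nat.add_sub_cancel_left, inv_pow, pow_add, pow_one]
        field_simp
      rw [h2]
      exact O.mul_mem _ _ h (O.pow_mem h1 _)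

/-- the linear map from classes to multilinear maps -/
noncomputable def hmlL {P : Polarized 𝒱} {n : ℕ} {Z : 𝒱.Obj} {s : SB W P.X}
    {b : Module.Basis (Fin (n + 1) → Fin s.NC ⊕ Fin s.NT) W.K (W.H (nest ops n fun _ => P).X)}
    (hb : ∀ r, b r = mono (prj ops n fun _ => P) fun p => s.e (r p)) :
    W.H ((nest ops n fun _ => P).X.prod Z) →ₗ[W.K]
      MultilinearMap W.K (fun _ : Fin (n + 1) => W.H P.X) (W.H Z) where
  toFun c := hml s.e b c
  map_add' c c' := by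
    ext v
    exact hml_add hb c c' v
  map_smul' x c := by
    ext v
    exact hml_smul hb x c v

section step

variable {P : Polarized 𝒱} {n : ℕ} {Z : 𝒱.Obj} {ρ : Γ →* (W.H P.X ≃ₐ[W.K] W.H P.X)}
  {τ : Γ →* (W.H Z ≃ₐ[W.K] W.H Z)}
  {υ : Γ →* (W.H ((nest ops n fun _ => P).X.prod Z) ≃ₐ[W.K]
    W.H ((nest ops n fun _ => P).X.prod Z))}

/-- **The step, after the choice of the power.** -/
theorem step_aux [IsAlgClosed W.K] (hDX : HomEqNum W P.X)
    (hmid : transcendental W P.X ≤ W.gr P.X P.X.dim) (hG : IsGalois W χ P.X ρ)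
    (hP : IsPowAct W P n Z ρ τ υ) (hirr : StronglyIrreducible ρ (transcendental W P.X)) {g : Γ}
    (hχ : χ g = 1) (hτ : τ g = 1) {δ : W.H P.X} (hδ : δ ∈ transcendental W P.X) (hδ0 : δ ≠ 0)
    {c0 : W.K} (hc0 : c0 ≠ 0) (hPL : ∀ a, ρ g a = a + (c0 * W.tr P.X (δ * a)) • δ)
    (hinf : Even P.X.dim → ∃ h : Γ, ∀ m ≥ 1, ∃ t ∈ transcendental W P.X,
      ρ ((g * (h * g * h⁻¹)) ^ m) t ≠ t)
    {s : SB W P.X} {c1 : Fin s.NC} {e : Fin s.NT → ℤ} (hc1 : (s.bC c1 : W.H P.X) = 1)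
    (hjc1 : s.jC c1 = 0) (he : ∀ a, e a * e a = 1) (hrev : ∀ a, e a.rev = (-1) ^ P.X.dim * e a)
    (hgram : ∀ a b, bil W P.X (s.uT a) (s.uT b) = if b = a.rev then (e a : W.K) else 0)
    {Δ : Subgroup Γ} (hΔ : Δ.FiniteIndex)
    (hfix : ∀ g ∈ Δ, ∀ i, ρ g (s.bC i) = (χ g : W.K) ^ s.jC i • (s.bC i : W.H P.X)) {γ : Γ}
    (hγ : γ ∈ Δ) {α : Fin s.NT → W.K}
    (hα : ∀ a, s.uT a ∈ Module.End.maxGenEigenspace (rhoT hG γ) (α a))
    (hαT : ∀ a, α a * α a.rev = (χ γ : W.K) ^ P.X.dim) {D w M c : ℕ}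
    (hint : ∀ a, IsIntegral ℤ (α a / (χ γ : W.K) ^ c))
    (hcon : transcendental W P.X ≤ coniveau W P.X c)
    (hγi : IsIntegral ℤ (χ γ : W.K))
    (hsl : SlLetters s.NT (n + 1) ((-1) ^ P.X.dim) (χ γ : W.K) D w c α)
    (hroom : Even P.X.dim → 2 * (n + 1) < s.NT)
    (hZ : ∀ Cv : Submodule W.K (W.H Z), (∀ g ∈ Δ, ∀ z ∈ Cv, τ g z ∈ Cv) → ∀ y : ℤ,
      Cv ≤ slopePart (τ γ).toLinearMap (χ γ : W.K) D y → ∀ r : ℕ,
        (M : ℤ) < y - D * r + D → Cv ≤ coniveau W Z r)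
    {U : Submodule W.K (W.H ((nest ops n fun _ => P).X.prod Z))}
    (hU : ∀ g ∈ Δ, ∀ a ∈ U, υ g a ∈ U) {x : ℤ}
    (hUx : U ≤ slopePart (υ γ).toLinearMap (χ γ : W.K) D x) {r : ℕ}
    (hr : (M + w : ℤ) < x - D * r + D) :
    U ≤ coniveau W ((nest ops n fun _ => P).X.prod Z) r := by
  obtain ⟨b, hb⟩ := exists_monoBasis (ops := ops) P s.e n
  have hq0 : (χ γ : W.K) ≠ 0 := Units.ne_zero _
  set lam : Γ →* W.Kˣ := (χ ^ P.X.dim) ^ (n + 1) with hlam
  have hlamv : ∀ g, (lam g : W.K) = ((χ g : W.K) ^ P.X.dim) ^ (n + 1) := by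
    intro g
    simp [hlam]
  set dt := mkDat hDX hmid hG s he hrev hgram (twist lam τ) with hdt
  have hf : ⇑dt.f = s.es := esB_apply hDX s
  have heven : (-1 : ℤ) ^ P.X.dim = 1 → Even P.X.dim := by
    intro h
    by_contra h'
    rw [(Nat.not_even_iff_odd.1 h').neg_one_pow] at h
    exact absurd h (by decide)
  -- the operators
  have hops : ∀ u v : transcendental W P.X, rk dt.B v u - (dt.ε : W.K) • rk dt.B u v ∈
      LS (Fin (n + 1)) dt.i dt.p dt.B dt.ρV dt.σ := by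
    refine all_ops (S := Fin (n + 1)) dt.hpi dt.hi dt.hp (neg_one_pow_eq_or ℤ _) dt.hsy
      (trans_nondeg hDX) dt.hμ dt.hB (SI_rhoT hG hirr) (g := g) (δ := ⟨δ, hδ⟩) (c := c0)
      (fun h => hδ0 (congrArg Subtype.val h)) hc0 (fun a => ?_) ?_ ?_ (fun h => ?_)
    · change ρ g a = a + (c0 * bil W P.X δ (prT hDX a : W.H P.X)) • δ
      rw [hPL, ← bil_prT hDX ⟨δ, hδ⟩ a, bil_apply]
    · change (χ g : W.K) ^ P.X.dim = 1
      rw [hχ, Units.val_one, one_pow]
    · apply LinearMap.ext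
      intro z
      change twist lam τ g z = z
      rw [twist_apply, hlamv, hχ, hτ]
      simp
    · obtain ⟨γ', hγ'⟩ := hinf (heven h)
      refine ⟨γ', fun m hm => ?_⟩
      obtain ⟨t, ht, ht'⟩ := hγ' m hm
      exact ⟨⟨t, ht⟩, fun h => ht' (congrArg Subtype.val h)⟩
  have hroom' : Room dt.ε (Fin (n + 1)) s.NT := by
    rcases neg_one_pow_eq_or ℤ P.X.dim with h | h
    · right
      refine ⟨h, ?_⟩
      rw [Fintype.card_fin]
      exact hroom (heven h)
    · left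
      exact h
  -- the letters
  have hα' : ∀ j, dt.f j ∈ Module.End.maxGenEigenspace (dt.ρV γ)
      (Sum.elim (fun i => (χ γ : W.K) ^ (P.X.dim - s.jC i)) α j : W.K) := by
    intro j
    rcases j with i | a
    · exact eig_gen (esB_fix hDX hG s (hfix γ hγ) i).1
    · rw [dt.hft]
      have h1 := gen_map' (F := rhoT hG γ) (F' := dt.ρV γ) (φ := dt.i) (c := 1) (fun v => by
        rw [one_smul]
        exact (dt.hi γ v).symm) (hα a)
      rw [one_mul] at h1
      exact h1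
  -- the main theorem
  have hcore := dt.core (N := n + 1) hΔ hγ hq0 hγi (D := D) (w := w) (d := P.X.dim) (M := M) (c := c)
    (cod := s.jC) (c1 := c1) (fun g => by
      change ((χ g⁻¹ : W.Kˣ) : W.K) ^ P.X.dim = ((χ g : W.K) ^ P.X.dim)⁻¹
      rw [map_inv, Units.val_inv_eq_inv_val, inv_pow]) rfl (fun g hg v => by
      have h1 := (esB_fix hDX hG s (hfix g hg) c1).2 v
      rw [hjc1, Nat.sub_zero] at h1
      exact h1) hops hroom' hα' (fun i => by
      change (χ γ : W.K) ^ (P.X.dim - s.jC i) * (χ γ : W.K) ^ s.jC i = _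
      rw [← pow_add, Nat.sub_add_cancel (jC_le s i)]) hαT hint hsl
    (F := fun r => (coniveau W ((nest ops n fun _ => P).X.prod Z) r).comap (clsL Z b))
    (fun r r' h => Submodule.comap_mono (con_anti _ h)) (NZ := coniveau W Z) con_zero
    (fun σ h r hh hc => by
      rw [hf] at hh hc
      exact cls_mem hb hcon hh hc)
    (fun σ h r s1 s2 hss hh hs1 hs2 hc => by
      obtain ⟨ε, hε⟩ := cls_kb (Z := Z) (dt := dt) hb hmid hf hgram hc1 σ hss hs1 hs2
      rw [Submodule.mem_comap] at hc ⊢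
      rw [hf] at hh
      rw [hε h hh]
      exact Submodule.smul_mem _ _ (con_mul (con_map _ (con_map _ (con_dQ hDX hmid s))) hc))
    (fun h => con_zero _)
    (fun Cv hCv y hy r hr => by
      refine hZ Cv (fun g hg z hz => ?_) y (fun z hz => ?_) r hr
      · have h1 : (lam g : W.K) • τ g z ∈ Cv := hCv g hg z hz
        have h2 := Cv.smul_mem (lam g : W.K)⁻¹ h1
        rwa [smul_smul, inv_mul_cancel₀ (Units.ne_zero _), one_smul] at h2
      · refine GP_map (F := dt.σ γ) (F' := (τ γ).toLinearMap) (φ := LinearMap.id)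
          (c := ((χ γ : W.K) ^ (P.X.dim * (n + 1)))⁻¹) (fun v => ?_)
          (P := fun β => Dvd W.K (χ γ : W.K) D y (β / (χ γ : W.K) ^ (P.X.dim * (n + 1))))
          (P' := Dvd W.K (χ γ : W.K) D y) (fun β hβ => ?_) (hy hz)
        · change τ γ v = ((χ γ : W.K) ^ (P.X.dim * (n + 1)))⁻¹ • ((lam γ : W.K) • τ γ v)
          rw [hlamv, ← pow_mul, smul_smul, inv_mul_cancel₀ (pow_ne_zero _ hq0), one_smul]
        · rw [← div_eq_inv_mul]
          exact hβ)
  -- application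
  set U' := U.map (hmlL (Z := Z) hb) with hU'
  have hact : ∀ g (a : W.H ((nest ops n fun _ => P).X.prod Z)),
      gact (Fin (n + 1)) dt.ρV dt.σ g (hmlL hb a) = hmlL hb (υ g a) := by
    intro g a
    ext v
    rw [gact_apply]
    change (lam g : W.K) • τ g (hml s.e b a fun j => ρ g⁻¹ (v j)) = hml s.e b (υ g a) v
    have h1 := hml_equiv hb (bil_act hG g) (hP g).1 (hP g).2 a (fun j => ρ g⁻¹ (v j))
    have h2 : (fun p => ρ g (ρ g⁻¹ (v p))) = v := by
      funext p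
      exact act_inv ρ g (v p)
    rw [h2] at h1
    rw [h1, hlamv]
  have hst : Stb dt.ρV dt.σ Δ U' := by
    rintro g hg _ ⟨a, ha, rfl⟩
    rw [hact]
    exact ⟨υ g a, hU g hg a ha, rfl⟩
  have hGP : U' ≤ GP (gact (Fin (n + 1)) dt.ρV dt.σ γ) (Dvd W.K (χ γ : W.K) D x) := by
    rintro _ ⟨a, ha, rfl⟩
    refine GP_map (F := (υ γ).toLinearMap) (φ := hmlL hb) (c := 1) (fun v => ?_)
      (P := Dvd W.K (χ γ : W.K) D x) (P' := Dvd W.K (χ γ : W.K) D x) (fun β hβ => ?_) (hUx ha)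
    · rw [hact, one_smul]
      rfl
    · rwa [one_mul]
  have hFix : dt.Fix Δ := fun g hg i => ⟨_, esB_fix hDX hG s (hfix g hg) i⟩
  intro a ha
  have h1 : clsL Z b (hmlL hb a) = a := cls_hml hb a
  rw [← h1, ← sum_ptau (dt := dt) (hmlL hb a), map_sum]
  refine Submodule.sum_mem _ fun σ _ => ?_
  exact hcore _ σ rfl x _ (good_ptau hFix hγ hst hGP σ) r hr ⟨_, ⟨a, ha, rfl⟩, rfl⟩

end step

end Pool.Agent.W5h58.NF
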