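import Pool.Agent.W5h58.NF.Step

/-!
# The generalized Tate conjecture for products with powers: the step and towers
-/

set_option autoImplicit false
set_option linter.unusedSectionVars false

open CategoryTheory AlgebraicGeometry Finset Function

universe u v w x

namespace Pool.Agent.W5h58.NF

open Pool.Agent.H914 Pool.Agent.H914.VarClass Pool.Agent.H914.VarClass.Obj
  Pool.Agent.H914.WeilCohomology Pool.Agent.H281R3.HT Pool.Agent.W552 Pool.Agent.TH125.Gal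

variable {k : Type u} [Field k] {𝒱 : VarClass k} {ops : CycleOps 𝒱}
  {W : WeilCohomology.{u, v} ops} {Γ : Type w} [Group Γ] {χ : Γ →* W.Kˣ}

/-- powers of group elements -/
theorem act_pow {X : 𝒱.Obj} (ρ : Γ →* (W.H X ≃ₐ[W.K] W.H X)) (γ : Γ) (m : ℕ) :
    ((ρ (γ ^ m)).toLinearMap : Module.End W.K (W.H X)) = (ρ γ).toLinearMap ^ m := by
  have h1 := map_pow (rhoV ρ) γ m
  exact h1

theorem slopePart_pow {X : 𝒱.Obj} (ρ : Γ →* (W.H X ≃ₐ[W.K] W.H X)) (γ : Γ) (D : ℕ) (x : ℤ)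
    (m : ℕ) : slopePart (ρ γ).toLinearMap (χ γ : W.K) D x ≤
      slopePart (ρ (γ ^ m)).toLinearMap (χ (γ ^ m) : W.K) D x := by
  rw [slopePart_eq, slopePart_eq]
  have h1 : (χ (γ ^ m) : W.K) = (χ γ : W.K) ^ m := by
    rw [map_pow, Units.val_pow_eq_pow_val]
  rw [h1]
  have h2 := act_pow ρ γ m
  rw [h2]
  exact GP_pow fun β hβ => Dvd.pow hβ m

/-- Lagrangian sets of letters -/
theorem lag {n m : ℕ} {A : Finset (Fin n)} (hA : m ≤ A.card) (hA' : ∀ a ∈ A, a.rev ∉ A)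
    (hm : 2 * m = n) (a : Fin n) : a ∈ A ∨ a.rev ∈ A := by
  have h1 : Disjoint A (A.image Fin.rev) := by
    rw [Finset.disjoint_left]
    intro a ha ha'
    obtain ⟨b, hb, rfl⟩ := Finset.mem_image.1 ha'
    exact hA' b hb ha
  have h2 := Finset.card_union_of_disjoint h1
  rw [Finset.card_image_of_injective _ Fin.rev_injective] at h2
  have h3 : A ∪ A.image Fin.rev = univ := by
    rw [← Finset.card_eq_iff_eq_univ, Fintype.card_fin]
    have h4 := Finset.card_le_univ (A ∪ A.image Fin.rev)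
    rw [Fintype.card_fin] at h4
    omega
  have h4 : a ∈ A ∪ A.image Fin.rev := by rw [h3]; exact Finset.mem_univ a
  rcases Finset.mem_union.1 h4 with h | h
  · exact Or.inl h
  · obtain ⟨b, hb, rfl⟩ := Finset.mem_image.1 h
    right
    rwa [Fin.rev_rev]

/-- factors of units -/
theorem unit_of_prod {K : Type*} [Field K] {O : ValuationSubring K} {κ : Type*} [DecidableEq κ]
    {A : Finset κ} {z : κ → K} (hz : ∀ a ∈ A, z a ∈ O) (hz0 : ∀ a ∈ A, z a ≠ 0) {D : ℕ}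
    (hD : 0 < D) (h : 1 / (∏ a ∈ A, z a) ^ D ∈ O) {a : κ} (ha : a ∈ A) : (z a)⁻¹ ∈ O := by
  have h1 : (∏ a ∈ A, z a)⁻¹ ∈ O := by
    refine mem_of_pow hD ?_
    rw [inv_pow, ← one_div]
    exact h
  have h2 : (z a)⁻¹ = (∏ a ∈ A, z a)⁻¹ * ∏ b ∈ A.erase a, z b := by
    rw [← Finset.mul_prod_erase A z ha, mul_inv, mul_assoc, inv_mul_cancel₀, mul_one]
    exact Finset.prod_ne_zero_iff.2 fun b hb => hz0 b (Finset.mem_of_mem_erase hb)
  rw [h2]
  exact O.mul_mem _ _ h1 (O.toSubring.prod_mem fun b hb => hz b (Finset.mem_of_mem_erase hb))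

/-- **The step.** -/
theorem gtc_step [IsAlgClosed W.K] {X Z Y : GVar W Γ} {n : ℕ} (hP : IsPowProd X n Z Y)
    (hDX : HomEqNum W X.X) (hmid : transcendental W X.X ≤ W.gr X.X X.X.dim)
    (hG : IsGalois W χ X.X X.act) (hirr : StronglyIrreducible X.act (transcendental W X.X))
    {g : Γ} (hχ : χ g = 1) (hτ : Z.act g = 1) {δ : W.H X.X} (hδ : δ ∈ transcendental W X.X)
    (hδ0 : δ ≠ 0) {c0 : W.K} (hc0 : c0 ≠ 0)
    (hPL : ∀ a, X.act g a = a + (c0 * W.tr X.X (δ * a)) • δ)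
    (hinf : Even X.X.dim → ∃ h : Γ, ∀ m ≥ 1, ∃ t ∈ transcendental W X.X,
      X.act ((g * (h * g * h⁻¹)) ^ m) t ≠ t) {γ : Γ} (hγi : IsIntegral ℤ (χ γ : W.K)) {D w M : ℕ}
    (hD : 0 < D) (hS : Admissible χ γ D X (n + 1) w) (hZ : GTCUpTo χ γ D M Z) :
    GTCUpTo χ γ D (M + w) Y := by
  obtain ⟨υ, hi1, hi2⟩ := hP
  have hP' := isPowAct hi1 hi2
  obtain ⟨N', w', hN', hOdd, ⟨c, hcon, hint, hsl⟩, hrk, hrk'⟩ : ∃ N' w' : ℕ,
      ((N' = n + 1 ∧ w' = w) ∨ (Odd X.X.dim ∧ 2 * N' = transRank W X.X ∧ w' = 0)) ∧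
        (Even X.X.dim → N' = n + 1) ∧ Slopes (χ γ : W.K) X.X.dim (transcendental W X.X)
          (coniveau W X.X) (X.act γ) D N' w' := by
    rcases hS with hS | ⟨h1, m, h2, hS⟩
    · exact ⟨n + 1, w, Or.inl ⟨rfl, rfl⟩, fun _ => rfl, hS⟩
    · exact ⟨m, 0, Or.inr ⟨h1, h2, rfl⟩,
        fun h => absurd h (Nat.not_even_iff_odd.2 h1), hS⟩
  rintro x r U ⟨Δ, hΔ, hU, k0, hk0, hγΔ, hUx⟩ hr
  have h1 : (1 : W.H X.X) ≠ 0 := by
    intro h
    apply hδ0
    rw [← one_mul δ, h, zero_mul]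
  -- the choice of the power
  obtain ⟨Δ0, hΔ0, hfix0⟩ := exists_fix_all hDX hG
  obtain ⟨q0, hq0⟩ := IsAlgClosed.exists_pow_nat_eq ((χ (γ ^ k0) : W.K) ^ X.X.dim) (n := 2)
    (by norm_num)
  have hq00 : q0 ≠ 0 := by
    rintro rfl
    rw [zero_pow two_ne_zero] at hq0
    exact pow_ne_zero _ (Units.ne_zero _) hq0.symm
  obtain ⟨m1, hm1, htrick⟩ := exists_trick (rhoT hG (γ ^ k0)) hq00
  obtain ⟨m0, hm0, hm0'⟩ := Pool.Agent.TH125.Gal.exists_pow (Δ := Δ ⊓ Δ0) inferInstance (γ ^ k0)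
  set K' := m1 * m0 with hK'
  have hK'0 : 0 < K' := Nat.mul_pos hm1 hm0
  set γ' := (γ ^ k0) ^ K' with hγ'
  have hγ'Δ : γ' ∈ Δ ⊓ Δ0 := by
    rw [hγ', hK', mul_comm, pow_mul]
    exact Subgroup.pow_mem _ hm0' _
  have hγ'γ : γ' = γ ^ (k0 * K') := by rw [hγ', ← pow_mul]
  set L := k0 * K' with hL
  have hL0 : 0 < L := Nat.mul_pos hk0 hK'0
  have hχL : (χ γ' : W.K) = (χ γ : W.K) ^ L := by
    rw [hγ'γ, map_pow, Units.val_pow_eq_pow_val]
  have hF1 : rhoT hG γ' = (rhoT hG (γ ^ k0)) ^ K' := by rw [hγ', map_pow]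
  have hF2 : rhoT hG γ' = (rhoT hG γ) ^ L := by rw [hγ'γ, map_pow]
  -- the adapted basis
  obtain ⟨s, c1, e, α, hNT, hc1, hjc1, he, hrev, hgram, hα, hαT⟩ := exists_wSB (X := X.X) hDX
    hmid h1 (F := rhoT hG γ') (μ := (χ γ' : W.K) ^ X.X.dim) (pow_ne_zero _ (Units.ne_zero _))
    (fun a b => bil_act hG γ' a b) (s0 := q0 ^ K') (fun _ β hβ hβ' => by
      rw [hF1] at hβ'
      obtain ⟨β0, rfl, hβ0⟩ := exists_root hβ'
      refine htrick m0 hm0 β0 hβ0 ?_
      rw [← hK', hβ, ← pow_two q0, hq0, hγ', map_pow χ (γ ^ k0), Units.val_pow_eq_pow_val,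
        pow_right_comm])
  -- integrality
  have hne : ∀ a, Module.End.maxGenEigenspace (rhoT hG γ') (α a) ≠ ⊥ := by
    intro a h
    have h2 := hα a
    rw [h, Submodule.mem_bot] at h2
    exact s.uT.ne_zero a h2
  have hgenT : ∀ (β : W.K) (t : transcendental W X.X),
      t ∈ Module.End.maxGenEigenspace (rhoT hG γ) β →
        (t : W.H X.X) ∈ Module.End.maxGenEigenspace (X.act γ).toLinearMap β := by
    intro β t ht
    have h2 := gen_map' (F := rhoT hG γ) (F' := (X.act γ).toLinearMap)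
      (φ := (transcendental W X.X).subtype) (c := 1) (fun v => by
        rw [one_smul]
        rfl) ht
    rw [one_mul] at h2
    exact h2
  have hgenT' : ∀ (β : W.K) (t : W.H X.X) (ht : t ∈ transcendental W X.X),
      t ∈ Module.End.maxGenEigenspace (X.act γ).toLinearMap β →
        (⟨t, ht⟩ : transcendental W X.X) ∈ Module.End.maxGenEigenspace (rhoT hG γ) β := by
    intro β t ht ht'
    have h2 := gen_map' (F := (X.act γ).toLinearMap) (F' := rhoT hG γ)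
      (φ := prT hDX) (c := 1) (fun v => by
        rw [one_smul]
        exact (prT_act hDX hG γ v).symm) ht'
    rw [one_mul] at h2
    have h3 : prT hDX t = ⟨t, ht⟩ := prT_trans hDX ⟨t, ht⟩
    rw [h3] at h2
    exact h2
  have hαi : ∀ a, IsIntegral ℤ (α a / (χ γ' : W.K) ^ c) := by
    intro a
    have h2 := hne a
    rw [hF2] at h2
    obtain ⟨β0, hβ, hβ0⟩ := exists_root h2
    have h3 : IsIntegral ℤ (β0 / (χ γ : W.K) ^ c) := by
      refine hint β0 ?_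
      obtain ⟨t, ht, ht0⟩ := (Submodule.ne_bot_iff _).1 hβ0
      refine (Submodule.ne_bot_iff _).2 ⟨t, ⟨t.2, hgenT β0 t ht⟩, fun h => ht0 (Subtype.ext h)⟩
    have h4 : α a / (χ γ' : W.K) ^ c = (β0 / (χ γ : W.K) ^ c) ^ L := by
      rw [div_pow, hβ, hχL, pow_right_comm]
    rw [h4]
    exact h3.pow L
  have hγ'i : IsIntegral ℤ (χ γ' : W.K) := by
    rw [hχL]
    exact hγi.pow L
  have hletters := exists_letters (F := rhoT hG γ') s.uT hα (Units.ne_zero (χ γ')) hγ'i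
    (d := X.X.dim) (w := w') (D := D) (c := c) (N := N') hαT hαi (by rw [hNT]; exact hrk)
    (fun O hO => by
      have hO' : (χ γ : W.K)⁻¹ ∉ O := by
        intro h
        apply hO
        rw [hχL, ← inv_pow]
        exact O.pow_mem h L
      obtain ⟨v, β, hv, hβ, hw⟩ := hsl O hO'
      refine ⟨fun i => ⟨v i, (hβ i).1⟩, fun i => β i ^ L, ?_, fun i => ⟨?_, ?_⟩, ?_⟩
      · exact LinearIndependent.of_comp (transcendental W X.X).subtype hv
      · rw [hF2]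
        exact gen_pow _ _ L (hgenT' _ _ (hβ i).1 (hβ i).2.1)
      · intro h
        apply (hβ i).2.2
        refine mem_of_pow hL0 ?_
        have h2 : (β i ^ 2 / (χ γ : W.K) ^ X.X.dim) ^ L =
            (β i ^ L) ^ 2 / (χ γ' : W.K) ^ X.X.dim := by
          rw [div_pow, hχL, pow_right_comm, pow_right_comm (χ γ : W.K)]
        rw [h2]
        exact h
      · have h2 : (χ γ' : W.K) ^ w' / (∏ i, β i ^ L / (χ γ' : W.K) ^ c) ^ D =
            ((χ γ : W.K) ^ w' / (∏ i, β i / (χ γ : W.K) ^ c) ^ D) ^ L := by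
          have h3 : ∀ i, β i ^ L / (χ γ' : W.K) ^ c = (β i / (χ γ : W.K) ^ c) ^ L := by
            intro i
            rw [div_pow, hχL, pow_right_comm]
          rw [Finset.prod_congr rfl fun i _ => h3 i, Finset.prod_pow, div_pow, hχL,
            pow_right_comm, pow_right_comm (∏ i, β i / (χ γ : W.K) ^ c)]
        rw [h2]
        exact O.pow_mem hw L)
  have hαne : ∀ a, α a / (χ γ' : W.K) ^ c ≠ 0 := by
    intro a h
    have h2 := hαT a
    rcases div_eq_zero_iff.1 h with h3 | h3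
    · rw [h3, zero_mul] at h2
      exact pow_ne_zero _ (Units.ne_zero _) h2.symm
    · exact pow_ne_zero _ (Units.ne_zero _) h3
  have hletters' : SlLetters s.NT (n + 1) ((-1) ^ X.X.dim) (χ γ' : W.K) D w c α := by
    intro O
    obtain ⟨A, hA, hA', hO⟩ := hletters O
    refine ⟨A, ?_⟩
    rcases hN' with ⟨rfl, rfl⟩ | ⟨h2, h3, rfl⟩
    · exact Or.inl ⟨hA, hA', hO⟩
    · refine Or.inr ⟨h2.neg_one_pow, lag hA hA' (by rw [hNT]; exact h3), fun a ha => ?_⟩
      rw [pow_zero] at hO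
      exact unit_of_prod (z := fun a => α a.rev / (χ γ' : W.K) ^ c)
        (fun a _ => mem_of_integral (hαi _) O) (fun a _ => hαne _) hD hO ha
  refine step_aux (P := ⟨X.X, 0⟩) (n := n) (Z := Z.X) (ρ := X.act) (τ := Z.act) (υ := υ) hDX hmid
    hG hP' hirr hχ hτ hδ hδ0 hc0 hPL hinf hc1 hjc1 he hrev hgram (Δ := Δ ⊓ Δ0) inferInstance
    (fun g hg i => hfix0 g hg.2 _ _ (s.alg i)) hγ'Δ hα hαT (D := D) (w := w) (M := M) hαi hcon
    hγ'i hletters' (fun h => by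
      have h2 := hrk' h
      rw [hOdd h] at h2
      rw [hNT]
      exact h2) (fun Cv hCv y hy r hr => ?_)
    (fun g hg => hU g hg.1) (x := x) ?_ ?_
  · exact hZ y r Cv ⟨Δ ⊓ Δ0, inferInstance, hCv, L, hL0, by rw [← hγ'γ]; exact hγ'Δ,
      by rw [← hγ'γ]; exact hy⟩ hr
  · exact hUx.trans (slopePart_pow υ (γ ^ k0) D x K')
  · push_cast at hr
    exact hr

/-- **Towers.** -/
theorem gtc_tower [IsAlgClosed W.K] {ι : Type} {X : ι → GVar W Γ} {Z : GVar W Γ}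
    (h : NodalFamily χ X Z) {γ : Γ} (hγi : IsIntegral ℤ (χ γ : W.K)) {D : ℕ} (hD : 0 < D)
    {S : Set ι} {w : ℕ} {Y : GVar W Γ} (hY : PowTower X Z (Admissible χ γ D) S w Y) :
    (∀ g : Γ, (∀ j ∈ S, TrivAct (X j).act g) → TrivAct Z.act g → TrivAct Y.act g) ∧
      ∀ M, GTCUpTo χ γ D M Z → GTCUpTo χ γ D (M + w) Y := by
  induction hY with
  | base => exact ⟨fun g _ h => h, fun M hM => hM⟩
  | @step S w Y Y' i n w' hT hi hS hP ih =>
    obtain ⟨ih1, ih2⟩ := ih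
    refine ⟨fun g hX hZ => ?_, fun M hM => ?_⟩
    · obtain ⟨υ, h1, h2⟩ := hP
      rw [Pool.Agent.TH125.Gal.trivAct]
      exact act_one (isPowAct h1 h2) (Pool.Agent.TH125.Gal.trivAct.1 (hX i (Set.mem_insert _ _)))
        (Pool.Agent.TH125.Gal.trivAct.1 (ih1 g (fun j hj => hX j (Set.mem_insert_of_mem _ hj)) hZ))
    · obtain ⟨g, ⟨⟨δ, hδ, hδ0, c0, hc0, hPL⟩, hχ, hinf⟩, hZ, hj⟩ := h.node i
      obtain ⟨hDX, hI⟩ := h.irred i
      rw [← add_assoc]
      exact gtc_step hP hDX hI.middle (isGalois hI.galois) hI.irreducible hχ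
        (Pool.Agent.TH125.Gal.trivAct.1 (ih1 g (fun j hjS => hj j fun h' => hi (h' ▸ hjS)) hZ))
        hδ hδ0 hc0 hPL hinf hγi hD hS (ih2 M hM)

end Pool.Agent.W5h58.NF
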