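import Pool.Agent.W5h58.NF.Cls
import Pool.Agent.W5h58.NF.Pow

/-!
# Adapted bases of the cohomology, and the data of a variety
-/

set_option autoImplicit false
set_option linter.unusedSectionVars false

open CategoryTheory AlgebraicGeometry Finset Function

universe u v w x

namespace Pool.Agent.W5h58.NF

open Pool.Agent.H914 Pool.Agent.H914.VarClass Pool.Agent.H914.VarClass.Obj
  Pool.Agent.H914.WeilCohomology Pool.Agent.H281R3.HT Pool.Agent.W552 Pool.Agent.TH125.Gal

variable {k : Type u} [Field k] {𝒱 : VarClass k} {ops : CycleOps 𝒱}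
  {W : WeilCohomology.{u, v} ops} {X : 𝒱.Obj}

/-- a basis of the span of the algebraic classes which contains `1` -/
theorem exists_algBasis1 (h1 : (1 : W.H X) ≠ 0) :
    ∃ (N : ℕ) (b : Module.Basis (Fin N) W.K (algSpan W X)) (j : Fin N → ℕ) (c1 : Fin N),
      (∀ i, (b i : W.H X) ∈ algClasses W X (j i)) ∧ (b c1 : W.H X) = 1 ∧ j c1 = 0 := by
  classical
  have hone : LinearIndepOn W.K id ({1} : Set (W.H X)) := by
    rw [linearIndepOn_singleton_iff]
    exact h1
  obtain ⟨S, hSA, h1S, hSt, hSli⟩ := exists_linearIndepOn_id_extension hone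
    (t := ⋃ j, algClasses W X j) (Set.singleton_subset_iff.2 (Set.mem_iUnion.2 ⟨0, alg_one⟩))
  have hSspan : Submodule.span W.K S = Submodule.span W.K (⋃ j, algClasses W X j) :=
    le_antisymm (Submodule.span_mono hSA) (Submodule.span_le.2 hSt)
  have hSli' : LinearIndependent W.K (Subtype.val : S → W.H X) := hSli
  have hfin : S.Finite := hSli'.setFinite
  have := hfin.fintype
  have hj0 : ∀ i : S, ∃ j, (i : W.H X) ∈ algClasses W X j := fun i => Set.mem_iUnion.1 (hSA i.2)
  choose j hj using hj0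
  have h2 : Submodule.span W.K (Set.range (Subtype.val : S → W.H X)) = algSpan W X := by
    rw [Subtype.range_coe, hSspan]
    rfl
  let b0 : Module.Basis S W.K (Submodule.span W.K (Set.range (Subtype.val : S → W.H X))) :=
    Module.Basis.span hSli'
  let b1 := (b0.map (LinearEquiv.ofEq _ _ h2)).reindex (Fintype.equivFin S)
  have h3 : ∀ i, (b1 i : W.H X) = ((Fintype.equivFin S).symm i : S) := by
    intro i
    change (((b0.map (LinearEquiv.ofEq _ _ h2)).reindex (Fintype.equivFin S) i : algSpan W X) :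
      W.H X) = _
    rw [Module.Basis.reindex_apply, Module.Basis.map_apply, LinearEquiv.coe_ofEq_apply]
    exact congrArg Subtype.val (Module.Basis.span_apply hSli' _)
  have h1S' : (1 : W.H X) ∈ S := h1S rfl
  set c1 := Fintype.equivFin S ⟨1, h1S'⟩ with hc1
  have hbc1 : (b1 c1 : W.H X) = 1 := by
    rw [h3, hc1, Equiv.symm_apply_apply]
  refine ⟨Fintype.card S, b1, update (fun i => j ((Fintype.equivFin S).symm i)) c1 0, c1,
    fun i => ?_, hbc1, update_self _ _ _⟩
  by_cases hi : i = c1
  · subst hi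
    rw [update_self, hbc1]
    exact alg_one
  · rw [update_of_ne hi, h3]
    exact hj _

/-- **Adapted bases.** -/
theorem exists_wSB [IsAlgClosed W.K] (hDX : HomEqNum W X)
    (hmid : transcendental W X ≤ W.gr X X.dim) (h1 : (1 : W.H X) ≠ 0)
    {F : Module.End W.K (transcendental W X)} {μ : W.K} (hμ : μ ≠ 0)
    (hB : ∀ x y, rform W X (transcendental W X) (F x) (F y) =
      μ * rform W X (transcendental W X) x y) {s0 : W.K}
    (hs0 : ((-1 : ℤ) ^ X.dim) = 1 → ∀ α, α * α = μ → F.maxGenEigenspace α ≠ ⊥ → α = s0) :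
    ∃ (s : SB W X) (c1 : Fin s.NC) (e : Fin s.NT → ℤ) (α : Fin s.NT → W.K),
      s.NT = transRank W X ∧ (s.bC c1 : W.H X) = 1 ∧ s.jC c1 = 0 ∧ (∀ a, e a * e a = 1) ∧
      (∀ a, e a.rev = (-1) ^ X.dim * e a) ∧
      (∀ a b, bil W X (s.uT a) (s.uT b) = if b = a.rev then (e a : W.K) else 0) ∧
      (∀ a, s.uT a ∈ F.maxGenEigenspace (α a)) ∧ ∀ a, α a * α a.rev = μ := by
  have hs : ((-1 : ℤ) ^ X.dim) = 1 ∨ ((-1 : ℤ) ^ X.dim) = -1 := neg_one_pow_eq_or ℤ _
  have hsy : ∀ x y, rform W X (transcendental W X) x y =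
      (((-1 : ℤ) ^ X.dim : ℤ) : W.K) * rform W X (transcendental W X) y x := by
    intro x y
    rw [rform_apply, rform_apply, trans_symm hmid x.2 y.2]
    push_cast
    rfl
  obtain ⟨t, α, htα, hαμ, hgram, hrev⟩ := exists_witt (B := rform W X (transcendental W X))
    (F := F) hB hμ hs hsy hs0 (trans_nondeg hDX)
  obtain ⟨NC, bC, jC, c1, hjC, hc1, hjc1⟩ := exists_algBasis1 h1
  have hC : LinearMap.BilinForm.Nondegenerate (rform W X (algSpan W X)) := by
    refine ⟨fun a h => alg_nondeg hDX a h, fun a h => alg_nondeg hDX a fun b => ?_⟩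
    rw [rform_apply, bil_apply, alg_comm a.2, ← bil_apply]
    exact h b
  have hT1 : ∀ a, (∀ b, rform W X (transcendental W X) a b = 0) → a = 0 :=
    fun a h => trans_nondeg hDX a h
  have hss : ((-1 : ℤ) ^ X.dim) * ((-1 : ℤ) ^ X.dim) = 1 := by
    rw [← mul_pow]; norm_num
  have hT : LinearMap.BilinForm.Nondegenerate (rform W X (transcendental W X)) := by
    refine ⟨hT1, fun a h => hT1 a fun b => ?_⟩
    rw [hsy, h b, mul_zero]
  let uT := LinearMap.BilinForm.dualBasis _ hT t
  have huT : ∀ i j, rform W X (transcendental W X) (uT i) (t j) = if j = i then 1 else 0 :=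
    fun i j => LinearMap.BilinForm.apply_dualBasis_left hT t i j
  have hsgn : ∀ a : Fin (Module.finrank W.K (transcendental W X)),
      (sgn ((-1) ^ X.dim) a : W.K) * sgn ((-1) ^ X.dim) a = 1 := fun a => by
    exact_mod_cast sgn_sq hs a
  have huTt : ∀ i, uT i = (sgn ((-1) ^ X.dim) i.rev : W.K) • t i.rev := by
    intro i
    rw [← sub_eq_zero]
    refine hT1 _ fun b => ?_
    have h2 : rform W X (transcendental W X) (uT i -
        (sgn ((-1) ^ X.dim) i.rev : W.K) • t i.rev) = 0 := by
      refine t.ext fun j => ?_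
      rw [map_sub, map_smul, LinearMap.sub_apply, LinearMap.smul_apply, huT, hgram, Fin.rev_rev,
        LinearMap.zero_apply, smul_eq_mul]
      by_cases hij : j = i
      · rw [if_pos hij, if_pos hij, hsgn, sub_self]
      · rw [if_neg hij, if_neg hij, mul_zero, sub_self]
    rw [h2, LinearMap.zero_apply]
  refine ⟨{
    NC := NC
    NT := Module.finrank W.K (transcendental W X)
    bC := bC
    jC := jC
    alg := hjC
    bT := t
    e := (bC.prod t).map (Submodule.prodEquivOfIsCompl _ _ (isCompl hDX))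
    e_inl := fun i => by
      rw [Module.Basis.map_apply, Module.Basis.prod_apply]
      simp
    e_inr := fun i => by
      rw [Module.Basis.map_apply, Module.Basis.prod_apply]
      simp
    uC := LinearMap.BilinForm.dualBasis _ hC bC
    uT := uT
    uC_bC := fun i j => LinearMap.BilinForm.apply_dualBasis_left hC bC i j
    uT_bT := huT }, c1, fun a => sgn ((-1) ^ X.dim) a, fun a => α a.rev, rfl, hc1, hjc1,
    fun a => sgn_sq hs a, hrev, fun a b => ?_, fun a => ?_, fun a => hαμ a.rev⟩
  · change rform W X (transcendental W X) (uT a) (uT b) = _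
    rw [huTt a, huTt b]
    simp only [map_smul, LinearMap.smul_apply, smul_eq_mul]
    rw [hgram, Fin.rev_rev]
    by_cases hab : b = a.rev
    · subst hab
      rw [Fin.rev_rev, if_pos rfl, if_pos rfl]
      linear_combination (sgn ((-1) ^ X.dim) a : W.K) * hsgn a.rev
    · rw [if_neg hab, if_neg, mul_zero, mul_zero]
      intro h
      apply hab
      rw [← h, Fin.rev_rev]
  · change uT a ∈ _
    rw [huTt a]
    exact Submodule.smul_mem _ _ (htα _)

variable {Γ : Type w} [Group Γ] {χ : Γ →* W.Kˣ} {ρ : Γ →* (W.H X ≃ₐ[W.K] W.H X)}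

/-- the action by linear maps -/
noncomputable def rhoV (ρ : Γ →* (W.H X ≃ₐ[W.K] W.H X)) : Γ →* (W.H X →ₗ[W.K] W.H X) where
  toFun g := (ρ g).toLinearMap
  map_one' := by
    rw [map_one]
    rfl
  map_mul' g g' := by
    rw [map_mul]
    rfl

theorem rhoV_apply (g : Γ) (a : W.H X) : rhoV ρ g a = ρ g a := rfl

/-- the basis of the dual classes -/
noncomputable def esB (hDX : HomEqNum W X) (s : SB W X) :
    Module.Basis (Fin s.NC ⊕ Fin s.NT) W.K (W.H X) :=
  (s.uC.prod s.uT).map (Submodule.prodEquivOfIsCompl _ _ (isCompl hDX))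

theorem esB_apply (hDX : HomEqNum W X) (s : SB W X) : ⇑(esB hDX s) = s.es := by
  funext j
  rcases j with c | a
  · rw [esB, Module.Basis.map_apply, Module.Basis.prod_apply, SB.es]
    simp
  · rw [esB, Module.Basis.map_apply, Module.Basis.prod_apply, SB.es]
    simp

/-- the projection -/
noncomputable def prT (hDX : HomEqNum W X) : W.H X →ₗ[W.K] transcendental W X :=
  Submodule.projectionOnto (transcendental W X) (algSpan W X) (isCompl hDX).symm

theorem prT_trans (hDX : HomEqNum W X) (t : transcendental W X) : prT hDX t = t :=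
  Submodule.projectionOnto_apply_left _ t

theorem prT_alg (hDX : HomEqNum W X) {c : W.H X} (hc : c ∈ algSpan W X) : prT hDX c = 0 :=
  Submodule.projectionOnto_apply_of_mem_right _ hc

theorem exists_dec (hDX : HomEqNum W X) (v : W.H X) :
    ∃ c ∈ algSpan W X, ∃ t : transcendental W X, v = c + t := by
  have hb : v ∈ algSpan W X ⊔ transcendental W X := by
    rw [(isCompl hDX).sup_eq_top]; exact Submodule.mem_top
  obtain ⟨c, hc, t, ht, rfl⟩ := Submodule.mem_sup.1 hb
  exact ⟨c, hc, ⟨t, ht⟩, rfl⟩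

theorem bil_prT (hDX : HomEqNum W X) (δ : transcendental W X) (v : W.H X) :
    bil W X δ v = bil W X δ (prT hDX v : W.H X) := by
  obtain ⟨c, hc, t, rfl⟩ := exists_dec hDX v
  rw [map_add, map_add, prT_alg hDX hc, prT_trans, zero_add, trans_alg δ.2 hc, zero_add]

theorem prT_act (hDX : HomEqNum W X) (hG : IsGalois W χ X ρ) (g : Γ) (v : W.H X) :
    prT hDX (rhoV ρ g v) = rhoT hG g (prT hDX v) := by
  obtain ⟨c, hc, t, rfl⟩ := exists_dec hDX v
  rw [map_add, map_add, map_add, prT_alg hDX hc, zero_add, prT_trans]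
  have h1 : prT hDX (rhoV ρ g c) = 0 := prT_alg hDX (act_algSpan hG g hc)
  have h2 : rhoV ρ g (t : W.H X) = (rhoT hG g t : W.H X) := rfl
  rw [h1, h2, prT_trans, zero_add]

/-- **The data of a variety.** -/
noncomputable def mkDat {E : Type x} [AddCommGroup E] [Module W.K E] (hDX : HomEqNum W X)
    (hmid : transcendental W X ≤ W.gr X X.dim) (hG : IsGalois W χ X ρ) (s : SB W X)
    {e : Fin s.NT → ℤ} (he : ∀ a, e a * e a = 1) (hrev : ∀ a, e a.rev = (-1) ^ X.dim * e a)
    (hgram : ∀ a b, bil W X (s.uT a) (s.uT b) = if b = a.rev then (e a : W.K) else 0)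
    (σ : Γ →* (E →ₗ[W.K] E)) :
    Dat W.K (W.H X) E Γ (transcendental W X) (Fin s.NC) s.NT where
  i := (transcendental W X).subtype
  p := prT hDX
  B := rform W X (transcendental W X)
  ρV := rhoV ρ
  ρ := rhoT hG
  σ := σ
  μ := fun g => (χ g : W.K) ^ X.dim
  t := s.uT
  f := esB hDX s
  e := e
  ε := (-1) ^ X.dim
  hpi := fun t => prT_trans hDX t
  hi := fun g t => rfl
  hp := fun g v => prT_act hDX hG g v
  hμ := fun g => pow_ne_zero _ (Units.ne_zero _)
  hB := fun g a b => bil_act hG g a b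
  he := he
  hrev := hrev
  hε := by rw [← mul_pow]; norm_num
  hgram := hgram
  hsy := fun a b => by
    rw [rform_apply, rform_apply, trans_symm hmid a.2 b.2]
    push_cast
    rfl
  hft := fun a => by rw [esB_apply]; rfl
  hfc := fun c => by rw [esB_apply]; exact prT_alg hDX (s.uC c).2

end Pool.Agent.W5h58.NF
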